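import Mathlib.RingTheory.MvPolynomial.WeightedHomogeneous
import Mathlib.RingTheory.AlgebraicIndependent.Basic
import Mathlib.FieldTheory.IntermediateField.Adjoin.Defs
import Mathlib.Algebra.Algebra.Rat
import Pool.Agent.MP_79c67d_ag.Defs

/-!
General curves and general line bundles in the sense of generic points; the scroll swept out by a
pencil on a canonical curve, and the syzygy bundles of the relative canonical resolution.
Curves, points and divisors are read through function fields.
-/

open MvPolynomial Pool.Agent.MP_79c67d_ag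

namespace Pool.Agent.MP_8e057e_ag

section general

variable {K F : Type} [Field K] [CharZero K] [Field F] [Algebra K F]

/-- `F₀ / K₀` is a model of the curve `F / K` over the subfield `K₀` of `K`: `F₀` contains `K₀`,
generates `F` over `K`, and has transcendence degree at most one over `K₀`. -/
structure IsModel (K₀ : IntermediateField ℚ K) (F₀ : IntermediateField K₀ F) : Prop where
  gen : IntermediateField.adjoin K (F₀ : Set F) = ⊤
  dim : Algebra.trdeg K₀ F₀ ≤ 1

variable (K F) in
/-- The curve is general in moduli: it has no model over a field of transcendence degree less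
than `3 g - 3`, that is, its moduli point is the generic point of `M_g`. -/
def GeneralCurve : Prop :=
  ∀ (K₀ : IntermediateField ℚ K) (F₀ : IntermediateField K₀ F), IsModel K₀ F₀ →
    ((3 * genus K F - 3 : ℕ) : Cardinal) ≤ Algebra.trdeg ℚ K₀

/-- The line bundle `O(D)`, of degree `k`, is a general point of `W^1_k`: whenever `D` is
linearly equivalent to a divisor supported at points that come from a model over `K₀`, the
transcendence degree of `K₀` is at least `3 g - 3 + ρ` with `ρ = 2 k - g - 2`. -/
def GeneralPencil (D : Divisor K F) : Prop :=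
  2 ≤ h0 D ∧ ∀ (K₀ : IntermediateField ℚ K) (F₀ : IntermediateField K₀ F), IsModel K₀ F₀ →
    ∀ h : F, h ≠ 0 → (∀ P : Place K F, D P + P.ord h ≠ 0 → ∃ z ∈ F₀, 0 < P.ord z) →
      (((3 * genus K F - 3 + (2 * deg D - genus K F - 2)).toNat : ℕ) : Cardinal) ≤
        Algebra.trdeg ℚ K₀

end general

variable {K F : Type} [Field K] [Field F] [Algebra K F]

/-- Open conditions on a curve with canonical divisor `W` and a line bundle `L = O(D)`: every
pencil `A` has `h^0(K - 2 A) = 0` (Petri), `L` is a complete base point free pencil, and `K - L`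
is base point free. -/
structure Good (W D : Divisor K F) : Prop where
  petri : ∀ A : Divisor K F, 2 ≤ h0 A → h0 (W - 2 • A) = 0
  pencil : h0 D = 2
  free : ∀ P, h0 (D - Finsupp.single P 1) = 1
  free_adjoint : ∀ P, h0 (W - D - Finsupp.single P 1) + 1 = h0 (W - D)

variable (K) in
/-- The Cox ring `K[v, w, x_1, ..., x_n]` of a scroll `P(O(e_1) ⊕ ... ⊕ O(e_n))` over `P^1`. -/
abbrev Cox (n : ℕ) := MvPolynomial (Fin 2 ⊕ Fin n) K

/-- The classes of the variables in terms of `H` and the ruling `R`: `v, w` have class `R` and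
`x_l` has class `H - e_l R`. -/
def wt {n : ℕ} (e : Fin n → ℕ) : Fin 2 ⊕ Fin n → ℤ × ℤ :=
  Sum.elim (fun _ => (0, 1)) fun l => (1, -(e l : ℤ))

variable (K) in
/-- `H^0(P(E), O(a H + b R))`. -/
noncomputable def piece {n : ℕ} (e : Fin n → ℕ) (a b : ℤ) : Submodule K (Cox K n) :=
  weightedHomogeneousSubmodule K (wt e) (a, b)

/-- The Koszul differential `∧^p E ⊗ Sym E → ∧^(p-1) E ⊗ Sym E`, in the basis of the exterior
powers indexed by subsets. -/
noncomputable def koszul {n : ℕ} (σ : Finset (Fin n) → Cox K n) (S : Finset (Fin n)) : Cox K n :=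
  ∑ l ∈ Sᶜ, (-1) ^ (S.filter (· < l)).card * X (Sum.inr l) * σ (insert l S)

/-- The scroll `P(E)`, `E = O(e_1) ⊕ ... ⊕ O(e_n)`, swept out by the pencil `|D|` on the canonical
curve, with the map from the curve given by sections `s` of `D` and `φ_l` of `W - e_l D`:
restriction identifies `H^0(R)` with `H^0(D)` and `H^0(H + b R)` with `H^0(W + b D)` for
`b ≤ 0`. -/
structure Scroll (W D : Divisor K F) (n : ℕ) where
  s : Fin 2 → F
  e : Fin n → ℕ
  φ : Fin n → F
  anti : Antitone e
  ruling : Set.BijOn (aeval (Sum.elim s φ)) (piece K e 0 1 : Set (Cox K n)) (sec D)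
  hyperplane : ∀ b : ℤ, b ≤ 0 →
    Set.BijOn (aeval (Sum.elim s φ)) (piece K e 1 b : Set (Cox K n)) (sec (W + b • D))

namespace Scroll

variable {W D : Divisor K F} {n : ℕ}

/-- `H^0(P^1, N_i(b))`, where the `i`-th bundle `N_i` of the relative canonical resolution is
computed by Koszul cohomology as the kernel of `∧^(i-1) E ⊗ I_2 → ∧^(i-2) E ⊗ I_3`, with `I` the
ideal of the curve. -/
noncomputable def syz (X : Scroll W D n) (i : ℕ) (b : ℤ) :
    Submodule K (Finset (Fin n) → Cox K n) where
  carrier := {σ | (∀ S, S.card + 1 ≠ i → σ S = 0) ∧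
    (∀ S, σ S ∈ piece K X.e 2 (b + ∑ l ∈ S, (X.e l : ℤ))) ∧
    (∀ S, aeval (Sum.elim X.s X.φ) (σ S) = 0) ∧ koszul σ = 0}
  add_mem' := fun {σ τ} ⟨a1, a2, a3, a4⟩ ⟨b1, b2, b3, b4⟩ =>
    ⟨fun S h => by simp [a1 S h, b1 S h], fun S => add_mem (a2 S) (b2 S),
      fun S => by simp [a3 S, b3 S], funext fun S => by
        have := congrArg₂ (· + ·) (congrFun a4 S) (congrFun b4 S)
        simpa [koszul, mul_add, Finset.sum_add_distrib] using this⟩
  zero_mem' := ⟨fun _ _ => rfl, fun _ => zero_mem _, fun _ => map_zero _,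
    funext fun S => by simp [koszul]⟩
  smul_mem' := fun c σ ⟨a1, a2, a3, a4⟩ =>
    ⟨fun S h => by simp [a1 S h], fun S => Submodule.smul_mem _ c (a2 S),
      fun S => by simp [a3 S], funext fun S => by
        have := congrArg (c • ·) (congrFun a4 S)
        simpa [koszul, Finset.smul_sum] using this⟩

/-- `N_i` is the sum of the line bundles `O(x)`, `x ∈ a`: all twists have the same `h^0`. -/
def IsSplitting (X : Scroll W D n) (i : ℕ) (a : Multiset ℤ) : Prop :=
  ∀ b : ℤ, Module.rank K (X.syz i b) = ((a.map fun x => (x + b + 1).toNat).sum : ℕ)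

end Scroll

end Pool.Agent.MP_8e057e_ag
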