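import Mathlib.Algebra.BigOperators.Fin
import Mathlib.Algebra.Module.LinearMap.Defs
import Mathlib.Algebra.Module.BigOperators
import Mathlib.Algebra.Module.Pi
import Mathlib.Order.Interval.Finset.Fin
import Mathlib.Data.Fintype.Powerset
import Mathlib.Tactic.Ring
import Mathlib.Tactic.LinearCombination
import Mathlib.RingTheory.MvPolynomial.EulerIdentity
import Mathlib.RingTheory.MvPolynomial.Basic
import Mathlib.Algebra.MvPolynomial.Division
import Mathlib.LinearAlgebra.FiniteDimensional.Lemmas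
import Mathlib.LinearAlgebra.Dimension.Constructions
import Mathlib.Algebra.CharZero.Infinite
import Pool.Agent.MP_8e057e_ag.Defs
import Mathlib.LinearAlgebra.Dual.Lemmas
import Pool.Agent.MP_79c67d_ag.Cliff
import Mathlib.LinearAlgebra.Dimension.OrzechProperty
import Pool.Agent.MP_8e057e_ag.Port

-- ======== part 0: formerly Pool.Agent.MP_8e057e_ag.Kos
section MrgPart0

/-! Koszul complexes in the basis indexed by subsets. -/

namespace Pool.Agent.MP_8e057e_ag

open Finset

variable {n : ℕ}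

/-- The sign of inserting an index into a subset. -/
def sgn (l : Fin n) (S : Finset (Fin n)) : ℤ := (-1) ^ (S.filter (· < l)).card

theorem sgn_mul_self (l : Fin n) (S : Finset (Fin n)) : sgn l S * sgn l S = 1 := by
  rw [sgn, ← mul_pow]; simp

theorem sgn_insert (l : Fin n) {a : Fin n} {S : Finset (Fin n)} (h : a ∉ S) :
    sgn l (insert a S) = (if a < l then -1 else 1) * sgn l S := by
  rw [sgn, sgn, filter_insert]
  split_ifs with h1
  · rw [card_insert_of_notMem (by simp [h]), pow_succ]; ring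
  · simp

theorem sgn_insert_self (l : Fin n) (S : Finset (Fin n)) : sgn l (insert l S) = sgn l S := by
  rw [sgn, sgn, filter_insert, if_neg (lt_irrefl l)]

theorem sgn_erase_self (l : Fin n) (S : Finset (Fin n)) : sgn l (S.erase l) = sgn l S := by
  by_cases h : l ∈ S
  · rw [← sgn_insert_self, insert_erase h]
  · rw [erase_eq_of_notMem h]

theorem sgn_anti {a b : Fin n} {S : Finset (Fin n)} (ha : a ∉ S) (hb : b ∉ S) (hab : a ≠ b) :
    sgn a S * sgn b (insert a S) = - (sgn b S * sgn a (insert b S)) := by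
  rw [sgn_insert b ha, sgn_insert a hb]
  rcases lt_or_gt_of_ne hab with h | h
  · rw [if_pos h, if_neg h.not_gt]; ring
  · rw [if_pos h, if_neg h.not_gt]; ring

theorem sgn_compl (l : Fin n) (S : Finset (Fin n)) : sgn l S * sgn l Sᶜ = (-1) ^ (l : ℕ) := by
  rw [sgn, sgn, ← pow_add, ← card_union_of_disjoint
    (disjoint_filter_filter disjoint_compl_right), ← filter_union, union_compl]
  congr 1
  rw [← Fin.card_Iio]
  congr 1
  ext a; simp

theorem sgn_union {l : Fin n} {A B : Finset (Fin n)} (h : ∀ b ∈ B, l < b) :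
    sgn l (A ∪ B) = sgn l A := by
  rw [sgn, sgn, filter_union, filter_false_of_mem (s := B) fun b hb => (h b hb).not_gt,
    union_empty]

theorem sgn_ne (l : Fin n) (S : Finset (Fin n)) : sgn l S ≠ 0 := fun h => by
  have := sgn_mul_self l S
  simp [h] at this

variable {R M : Type*} [CommRing R] [AddCommGroup M] [Module R M]

/-- The Koszul differential. -/
def kos (φ : Fin n → R) (σ : Finset (Fin n) → M) (S : Finset (Fin n)) : M :=
  ∑ l ∈ Sᶜ, sgn l S • φ l • σ (insert l S)

/-- Exterior multiplication by a basis vector. -/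
def hom (l : Fin n) (σ : Finset (Fin n) → M) (S : Finset (Fin n)) : M :=
  if l ∈ S then sgn l S • σ (S.erase l) else 0

theorem kos_add (φ : Fin n → R) (σ τ : Finset (Fin n) → M) :
    kos φ (σ + τ) = kos φ σ + kos φ τ := by
  ext S; simp [kos, sum_add_distrib]

theorem kos_zero (φ : Fin n → R) : kos φ (0 : Finset (Fin n) → M) = 0 := by
  ext S; simp [kos]

theorem kos_neg (φ : Fin n → R) (σ : Finset (Fin n) → M) : kos φ (-σ) = - kos φ σ := by
  ext S; simp [kos]

theorem kos_sub (φ : Fin n → R) (σ τ : Finset (Fin n) → M) :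
    kos φ (σ - τ) = kos φ σ - kos φ τ := by
  rw [sub_eq_add_neg, kos_add, kos_neg, sub_eq_add_neg]

theorem kos_smul {A : Type*} [Monoid A] [DistribMulAction A M] [SMulCommClass A R M]
    (φ : Fin n → R) (c : A) (σ : Finset (Fin n) → M) : kos φ (c • σ) = c • kos φ σ := by
  ext S
  simp only [kos, Pi.smul_apply, smul_sum]
  refine sum_congr rfl fun l _ => ?_
  rw [smul_comm c, smul_comm c]

theorem kos_sum {ι : Type*} (φ : Fin n → R) (s : Finset ι) (σ : ι → Finset (Fin n) → M) :
    kos φ (∑ i ∈ s, σ i) = ∑ i ∈ s, kos φ (σ i) := by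
  classical
  induction s using Finset.induction_on with
  | empty => simp [kos_zero]
  | insert a s ha ih => rw [sum_insert ha, sum_insert ha, kos_add, ih]

/-- The Koszul differential as a linear map. -/
def kosL (K : Type*) [CommRing K] [Module K M] [SMulCommClass K R M] (φ : Fin n → R) :
    (Finset (Fin n) → M) →ₗ[K] (Finset (Fin n) → M) where
  toFun := kos φ
  map_add' := kos_add φ
  map_smul' := kos_smul φ

theorem kosL_apply (K : Type*) [CommRing K] [Module K M] [SMulCommClass K R M] (φ : Fin n → R)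
    (σ : Finset (Fin n) → M) : kosL K φ σ = kos φ σ := rfl

theorem kos_map {R' M' : Type*} [CommRing R'] [AddCommGroup M'] [Module R' M'] (φ : Fin n → R)
    (ψ : Fin n → R') (g : M →+ M') (h : ∀ l x, g (φ l • x) = ψ l • g x)
    (σ : Finset (Fin n) → M) (S : Finset (Fin n)) :
    g (kos φ σ S) = kos ψ (fun T => g (σ T)) S := by
  simp only [kos, map_sum, map_zsmul, h]

theorem kos_kos (φ : Fin n → R) (σ : Finset (Fin n) → M) : kos φ (kos φ σ) = 0 := by
  ext S
  let f : Fin n × Fin n → M := fun p => if p.1 = p.2 then 0 else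
    (sgn p.1 S * sgn p.2 (insert p.1 S)) • (φ p.1 * φ p.2) • σ (insert p.2 (insert p.1 S))
  have h1 : kos φ (kos φ σ) S = ∑ p ∈ Sᶜ ×ˢ Sᶜ, f p := by
    rw [sum_product, kos]
    refine sum_congr rfl fun a ha => ?_
    rw [kos, compl_insert, smul_sum, smul_sum, ← add_sum_erase _ _ ha]
    simp only [f, if_true, zero_add]
    refine sum_congr rfl fun b hb => ?_
    rw [if_neg (ne_of_mem_erase hb).symm, smul_comm (φ a), smul_smul, smul_smul]
  rw [h1]
  refine sum_involution (fun p _ => p.swap) (fun p hp => ?_) (fun p _ h => ?_)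
    (fun p hp => by simpa [and_comm] using hp) fun _ _ => rfl
  · obtain ⟨a, b⟩ := p
    simp only [mem_product, mem_compl] at hp
    by_cases hab : a = b
    · simp [f, hab]
    · simp only [f, Prod.swap, if_neg hab, if_neg (Ne.symm hab)]
      rw [sgn_anti hp.1 hp.2 hab, Finset.insert_comm, mul_comm (φ a), neg_smul, neg_add_cancel]
  · intro h2
    apply h
    have : p.1 = p.2 := (congrArg Prod.fst h2).symm
    simp [f, this]

theorem kos_hom (φ : Fin n → R) (l : Fin n) (σ : Finset (Fin n) → M) (S : Finset (Fin n)) :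
    kos φ (hom l σ) S + hom l (kos φ σ) S = φ l • σ S := by
  by_cases h : l ∈ S
  · rw [hom, if_pos h, kos, kos, compl_erase, sum_insert (by simpa using h), smul_add,
      smul_smul, sgn_erase_self, sgn_mul_self, one_smul, insert_erase h, add_left_comm,
      add_eq_left, smul_sum, ← sum_add_distrib]
    refine sum_eq_zero fun a ha => ?_
    have ha' : a ∉ S := by simpa using ha
    have hal : a ≠ l := fun e => ha' (e ▸ h)
    rw [hom, if_pos (mem_insert_of_mem h), erase_insert_of_ne hal, smul_comm (φ a), smul_smul,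
      smul_smul, ← add_smul]
    have := sgn_anti (S := S.erase l) (a := a) (b := l) (by simp [ha']) (by simp) hal
    rw [insert_erase h, sgn_erase_self, ← erase_insert_of_ne hal, sgn_erase_self] at this
    have h2 := sgn_mul_self l S
    have h3 := sgn_mul_self l (insert a S)
    have h4 : sgn a S * sgn l (insert a S) + sgn l S * sgn a (S.erase l) = 0 := by
      have h5 : sgn a (S.erase l) = - (sgn l S * sgn a S) * sgn l (insert a S) := by
        rw [← this, mul_assoc, h3, mul_one]
      rw [h5]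
      linear_combination (-(sgn a S * sgn l (insert a S))) * h2
    rw [h4, zero_smul]
  · rw [hom, if_neg h, add_zero, kos, sum_eq_single l]
    · rw [hom, if_pos (mem_insert_self _ _), erase_insert h, smul_comm (φ l), smul_smul,
        sgn_insert_self, sgn_mul_self, one_smul]
    · intro a _ hal
      rw [hom, if_neg (by simp [h, Ne.symm hal])]; simp
    · intro h2; simp [h] at h2

theorem kos_hom_of_cycle {φ : Fin n → R} (l : Fin n) {σ : Finset (Fin n) → M}
    (h : kos φ σ = 0) : kos φ (hom l σ) = φ l • σ := by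
  ext S
  have := kos_hom φ l σ S
  rw [h] at this
  simpa [hom] using this

/-- The sign attached to a subset in the duality pairing. -/
def eps (S : Finset (Fin n)) : ℤ := ∏ m ∈ S, (-1) ^ (m : ℕ)

theorem eps_mul_self (S : Finset (Fin n)) : eps S * eps S = 1 := by
  rw [eps, ← prod_mul_distrib]
  exact prod_eq_one fun m _ => by rw [← mul_pow]; simp

theorem eps_insert {l : Fin n} {S : Finset (Fin n)} (h : l ∉ S) :
    eps (insert l S) * sgn l (insert l S)ᶜ = eps S * sgn l S := by
  have h1 := sgn_compl l (insert l S)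
  have h2 := sgn_mul_self l (insert l S)ᶜ
  rw [sgn_insert_self] at h1
  rw [eps, prod_insert h, ← eps, ← h1]
  linear_combination (eps S * sgn l S) * h2

variable {N : Type*} [AddCommGroup N]

/-- The pairing of a chain of ring elements with a chain of module elements. -/
def pair (ω : M →+ N) (σ : Finset (Fin n) → R) (β : Finset (Fin n) → M) : N :=
  ∑ S, eps S • ω (σ S • β Sᶜ)

theorem pair_kos (ω : M →+ N) (φ : Fin n → R) (σ : Finset (Fin n) → R)
    (β : Finset (Fin n) → M) : pair ω (kos φ σ) β = pair ω σ (kos φ β) := by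
  simp only [pair, kos, sum_smul, smul_sum, map_sum, compl_compl]
  rw [sum_sigma', sum_sigma']
  refine sum_nbij' (fun p => ⟨insert p.2 p.1, p.2⟩) (fun p => ⟨p.1.erase p.2, p.2⟩)
    (fun p _ => by simp) (fun p _ => by simp) (fun p hp => ?_) (fun p hp => ?_) fun p hp => ?_
  · have : p.2 ∉ p.1 := by simpa using hp
    simp [erase_insert this]
  · have : p.2 ∈ p.1 := by simpa using hp
    simp [insert_erase this]
  · obtain ⟨S, l⟩ := p
    have h : l ∉ S := by simpa using hp
    have e : insert l (insert l S)ᶜ = Sᶜ := by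
      rw [compl_insert, insert_erase (by simpa using h)]
    simp only
    rw [e, smul_assoc, smul_comm (σ _) (sgn _ _), map_zsmul, map_zsmul, smul_smul, smul_smul,
      eps_insert h, smul_eq_mul, mul_comm (φ l), mul_smul (σ _)]

theorem pair_add (ω : M →+ N) (σ : Finset (Fin n) → R) (β γ : Finset (Fin n) → M) :
    pair ω σ (β + γ) = pair ω σ β + pair ω σ γ := by
  simp [pair, sum_add_distrib]

theorem pair_zero_left (ω : M →+ N) (β : Finset (Fin n) → M) :
    pair ω (0 : Finset (Fin n) → R) β = 0 := by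
  simp [pair]

theorem pair_single (ω : M →+ N) (S : Finset (Fin n)) (z : R) (β : Finset (Fin n) → M) :
    pair ω (Pi.single S z) β = eps S • ω (z • β Sᶜ) := by
  rw [pair, sum_eq_single S]
  · simp
  · intro T _ h; simp [Pi.single_eq_of_ne h]
  · simp

end Pool.Agent.MP_8e057e_ag

end MrgPart0

-- ======== part 1: formerly Pool.Agent.MP_8e057e_ag.Cox
section MrgPart1

/-! The graded pieces of the Cox ring of a scroll. -/

open MvPolynomial Finset Module

set_option linter.unusedSectionVars false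

namespace Pool.Agent.MP_8e057e_ag

variable {K : Type} [Field K] {n : ℕ} {e : Fin n → ℕ}

/-- The variable `v`. -/
noncomputable abbrev vv : Cox K n := X (Sum.inl 0)

/-- The variable `w`. -/
noncomputable abbrev ww : Cox K n := X (Sum.inl 1)

variable (K) in
/-- The variables `x_l`. -/
noncomputable abbrev xx (l : Fin n) : Cox K n := X (Sum.inr l)

theorem koszul_eq (σ : Finset (Fin n) → Cox K n) : koszul σ = kos (xx K) σ := by
  funext S
  simp [koszul, kos, sgn, mul_assoc]

theorem mem_piece {a b : ℤ} {p : Cox K n} :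
    p ∈ piece K e a b ↔ IsWeightedHomogeneous (wt e) p (a, b) := Iff.rfl

theorem weight_wt (d : Fin 2 ⊕ Fin n →₀ ℕ) : Finsupp.weight (wt e) d =
    (∑ l, (d (Sum.inr l) : ℤ), (d (Sum.inl 0) : ℤ) + d (Sum.inl 1) -
      ∑ l, (d (Sum.inr l) : ℤ) * e l) := by
  rw [Finsupp.weight_eq_sum, Fintype.sum_sum_type, Fin.sum_univ_two]
  ext
  · simp [wt, Prod.fst_sum]
  · simp [wt, Prod.snd_sum, sub_eq_add_neg]

theorem piece_induction {a b : ℤ} {motive : Cox K n → Prop} (zero : motive 0)
    (add : ∀ p q, motive p → motive q → motive (p + q))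
    (mono : ∀ (d : Fin 2 ⊕ Fin n →₀ ℕ) (r : K), Finsupp.weight (wt e) d = (a, b) →
      motive (monomial d r)) {p : Cox K n} (hp : p ∈ piece K e a b) : motive p :=
  IsWeightedHomogeneous.induction_on (motive := fun p _ => motive p) zero
    (fun p q _ _ => add p q) mono (mem_piece.1 hp)

theorem mul_mem_piece {a b a' b' : ℤ} {p q : Cox K n} (hp : p ∈ piece K e a b)
    (hq : q ∈ piece K e a' b') : p * q ∈ piece K e (a + a') (b + b') :=
  (mem_piece.1 hp).mul (mem_piece.1 hq)

theorem piece_cast {a b a' b' : ℤ} {p : Cox K n} (hp : p ∈ piece K e a b) (ha : a = a')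
    (hb : b = b') : p ∈ piece K e a' b' := ha ▸ hb ▸ hp

theorem inl_mem (j : Fin 2) : (X (Sum.inl j) : Cox K n) ∈ piece K e 0 1 :=
  isWeightedHomogeneous_X K (wt e) (Sum.inl j)

theorem xx_mem (l : Fin n) : xx K l ∈ piece K e 1 (-(e l : ℤ)) :=
  isWeightedHomogeneous_X K (wt e) (Sum.inr l)

theorem C_mem (c : K) : (C c : Cox K n) ∈ piece K e 0 0 := isWeightedHomogeneous_C (wt e) c

theorem inl_pow_mem (j : Fin 2) (m : ℕ) : (X (Sum.inl j) ^ m : Cox K n) ∈ piece K e 0 m := by
  have := (mem_piece.1 (inl_mem (K := K) (e := e) j)).pow m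
  simpa [mem_piece] using this

theorem inl_mul_mem (j : Fin 2) {a b : ℤ} {p : Cox K n} (hp : p ∈ piece K e a b) :
    X (Sum.inl j) * p ∈ piece K e a (b + 1) :=
  piece_cast (mul_mem_piece (inl_mem j) hp) (by ring) (by ring)

theorem xx_mul_mem (l : Fin n) {a b : ℤ} {p : Cox K n} (hp : p ∈ piece K e a b) :
    xx K l * p ∈ piece K e (a + 1) (b - e l) :=
  piece_cast (mul_mem_piece (xx_mem l) hp) (by ring) (by ring)

theorem pderiv_mem (l : Fin n) {a b : ℤ} {p : Cox K n} (hp : p ∈ piece K e a b) :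
    pderiv (Sum.inr l) p ∈ piece K e (a - 1) (b + e l) :=
  (mem_piece.1 hp).pderiv (by simp [wt])

theorem of_inl_mul_mem (j : Fin 2) {a b : ℤ} {p : Cox K n}
    (hp : X (Sum.inl j) * p ∈ piece K e a b) : p ∈ piece K e a (b - 1) := by
  intro d hd
  rw [← coeff_X_mul d (Sum.inl j)] at hd
  have := hp hd
  rw [map_add, Finsupp.weight_single, one_smul] at this
  have h2 : wt e (Sum.inl j) = (0, 1) := rfl
  rw [h2, ← eq_sub_iff_add_eq'] at this
  rw [this]; simp

theorem euler {a b : ℤ} {p : Cox K n} (hp : p ∈ piece K e a b) :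
    ∑ l, xx K l * pderiv (Sum.inr l) p = a • p := by
  refine piece_induction (motive := fun p => ∑ l, xx K l * pderiv (Sum.inr l) p = a • p)
    (by simp) (fun p q hp hq => ?_) (fun d r hd => ?_) hp
  · simp only [map_add, mul_add, sum_add_distrib, hp, hq, smul_add]
  · simp only [X_mul_pderiv_monomial]
    rw [weight_wt] at hd
    have h1 : ∑ l, (d (Sum.inr l) : ℤ) = a := (Prod.ext_iff.1 hd).1
    rw [← sum_smul, ← h1, ← Nat.cast_sum, natCast_zsmul]

theorem piece_eq_bot_of_neg {a b : ℤ} (h : a < 0) : piece K e a b = ⊥ := by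
  rw [eq_bot_iff]
  intro p hp
  refine (mem_piece.1 hp).eq_zero_of_no_monomials fun d hd => ?_
  rw [weight_wt] at hd
  have h1 := (Prod.ext_iff.1 hd).1
  have h2 : (0 : ℤ) ≤ ∑ l, (d (Sum.inr l) : ℤ) := sum_nonneg fun l _ => Int.natCast_nonneg _
  simp only at h1
  omega

theorem piece_eq_bot (he : ∀ l, e l ≤ 1) {a b : ℤ} (h : a + b < 0) : piece K e a b = ⊥ := by
  rw [eq_bot_iff]
  intro p hp
  refine (mem_piece.1 hp).eq_zero_of_no_monomials fun d hd => ?_
  rw [weight_wt] at hd
  obtain ⟨h1, h2⟩ := Prod.ext_iff.1 hd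
  have h3 : ∑ l, (d (Sum.inr l) : ℤ) * e l ≤ ∑ l, (d (Sum.inr l) : ℤ) :=
    sum_le_sum fun l _ => mul_le_of_le_one_right (by positivity) (by exact_mod_cast he l)
  simp only at h1 h2
  omega

theorem monomial_zero_eq {d : Fin 2 ⊕ Fin n →₀ ℕ} {c : ℤ} (r : K)
    (hd : Finsupp.weight (wt e) d = (0, c)) :
    (d (Sum.inl 0) : ℤ) + d (Sum.inl 1) = c ∧
      (monomial d r : Cox K n) = r • (vv ^ d (Sum.inl 0) * ww ^ d (Sum.inl 1)) := by
  rw [weight_wt] at hd
  obtain ⟨h1, h2⟩ := Prod.ext_iff.1 hd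
  have h3 : ∀ l, d (Sum.inr l) = 0 := fun l => by
    have := (sum_eq_zero_iff_of_nonneg fun l _ => by positivity).1 h1 l (mem_univ l)
    exact_mod_cast this
  refine ⟨by simpa [h3] using h2, ?_⟩
  rw [monomial_eq, Finsupp.prod_fintype _ _ (by simp), Fintype.prod_sum_type, Fin.prod_univ_two,
    smul_eq_C_mul]
  simp [h3]

theorem piece_zero_eq (c : ℤ) : piece K e 0 c = Submodule.span K (Set.range
    fun j : Fin (c + 1).toNat => (vv ^ (c.toNat - j) * ww ^ (j : ℕ) : Cox K n)) := by
  refine le_antisymm (fun p hp => piece_induction (zero_mem _) (fun _ _ => add_mem)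
    (fun d r hd => ?_) hp) (Submodule.span_le.2 ?_)
  · obtain ⟨h1, h2⟩ := monomial_zero_eq r hd
    rw [h2]
    refine Submodule.smul_mem _ _ (Submodule.subset_span ⟨⟨d (Sum.inl 1), by omega⟩, ?_⟩)
    simp only
    congr 2
    omega
  · rintro _ ⟨j, rfl⟩
    have := j.2
    exact piece_cast (mul_mem_piece (inl_pow_mem 0 _) (inl_pow_mem 1 _)) (by ring) (by omega)

theorem li_vw (c : ℤ) : LinearIndependent K
    fun j : Fin (c + 1).toNat => (vv ^ (c.toNat - j) * ww ^ (j : ℕ) : Cox K n) := by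
  let d : Fin (c + 1).toNat → Fin 2 ⊕ Fin n →₀ ℕ := fun j =>
    Finsupp.single (Sum.inl 0) (c.toNat - j) + Finsupp.single (Sum.inl 1) (j : ℕ)
  have hd : Function.Injective d := fun i j h => by
    have := DFunLike.congr_fun h (Sum.inl 1)
    simp [d] at this
    exact Fin.ext this
  have := (basisMonomials (Fin 2 ⊕ Fin n) K).linearIndependent.comp d hd
  have h2 : (fun j : Fin (c + 1).toNat => (vv ^ (c.toNat - j) * ww ^ (j : ℕ) : Cox K n)) =
      basisMonomials (Fin 2 ⊕ Fin n) K ∘ d := by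
    funext j
    simp [d, X_pow_eq_monomial]
  rwa [h2]

instance (c : ℤ) : FiniteDimensional K (piece K e 0 c) := by
  rw [piece_zero_eq]
  exact FiniteDimensional.span_of_finite K (Set.finite_range _)

theorem finrank_piece_zero (c : ℤ) : finrank K (piece K e 0 c) = (c + 1).toNat := by
  rw [piece_zero_eq, finrank_span_eq_card (li_vw c), Fintype.card_fin]

theorem piece_zero_eq_bot {c : ℤ} (h : c < 0) : piece K e 0 c = ⊥ := by
  rw [← Submodule.finrank_eq_zero, finrank_piece_zero]; omega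

theorem exists_C_of_mem {p : Cox K n} (hp : p ∈ piece K e 0 0) : ∃ c, p = C c := by
  rw [piece_zero_eq] at hp
  obtain ⟨c, rfl⟩ := (Submodule.mem_span_range_iff_exists_fun K).1 hp
  exact ⟨c ⟨0, by simp⟩, by simp [smul_eq_C_mul]⟩

theorem pderiv_of_zero (l : Fin n) {c : ℤ} {p : Cox K n} (hp : p ∈ piece K e 0 c) :
    pderiv (Sum.inr l) p = 0 := by
  have := pderiv_mem l hp
  rwa [piece_eq_bot_of_neg (by omega)] at this

theorem pderiv_sum_xx {c : Fin n → ℤ} {r : Fin n → Cox K n} (hr : ∀ l, r l ∈ piece K e 0 (c l))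
    (m : Fin n) : pderiv (Sum.inr m) (∑ l, xx K l * r l) = r m := by
  rw [map_sum, sum_eq_single m]
  · simp [pderiv_of_zero m (hr m)]
  · intro l _ h
    simp [pderiv_of_zero m (hr l), pderiv_X, h]
  · simp

theorem eq_sum_of_one {b : ℤ} {p : Cox K n} (hp : p ∈ piece K e 1 b) :
    p = ∑ l, xx K l * pderiv (Sum.inr l) p := by
  rw [euler hp, one_smul]

theorem pderiv_mem_zero (l : Fin n) {b : ℤ} {p : Cox K n} (hp : p ∈ piece K e 1 b) :
    pderiv (Sum.inr l) p ∈ piece K e 0 (b + e l) := piece_cast (pderiv_mem l hp) (by ring) rfl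

/-- The linear forms of a given class. -/
noncomputable def oneEquiv (e : Fin n → ℕ) (b : ℤ) :
    piece K e 1 b ≃ₗ[K] ∀ l, piece K e 0 (b + e l) where
  toFun p l := ⟨pderiv (Sum.inr l) p.1, pderiv_mem_zero l p.2⟩
  map_add' p q := by ext l : 2; simp
  map_smul' c p := by ext l : 2; simp
  invFun r := ⟨∑ l, xx K l * (r l).1, Submodule.sum_mem _ fun l _ =>
    piece_cast (xx_mul_mem l (r l).2) (by ring) (by ring)⟩
  left_inv p := Subtype.ext (eq_sum_of_one p.2).symm
  right_inv r := funext fun m => Subtype.ext (pderiv_sum_xx (fun l => (r l).2) m)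

instance (b : ℤ) : FiniteDimensional K (piece K e 1 b) := (oneEquiv e b).symm.finiteDimensional

theorem finrank_piece_one (b : ℤ) :
    finrank K (piece K e 1 b) = ∑ l, (b + e l + 1).toNat := by
  rw [(oneEquiv e b).finrank_eq, Module.finrank_pi_fintype]
  simp only [finrank_piece_zero]

instance [CharZero K] (b : ℤ) : FiniteDimensional K (piece K e 2 b) := by
  let f : (∀ l, piece K e 1 (b + e l)) →ₗ[K] Cox K n :=
    ∑ l, (LinearMap.mulLeft K (xx K l)) ∘ₗ (piece K e 1 (b + e l)).subtype ∘ₗ LinearMap.proj l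
  refine Submodule.finiteDimensional_of_le (S₂ := LinearMap.range f) fun p hp => ?_
  refine ⟨(2 : K)⁻¹ • fun l => ⟨pderiv (Sum.inr l) p,
    piece_cast (pderiv_mem l hp) (by ring) rfl⟩, ?_⟩
  rw [map_smul]
  simp only [f, LinearMap.sum_apply, LinearMap.comp_apply, LinearMap.proj_apply,
    Submodule.subtype_apply, LinearMap.mulLeft_apply]
  rw [euler hp, ← Int.cast_smul_eq_zsmul K, smul_smul]
  simp

theorem zero_split {c : ℕ} {r : Cox K n} (hr : r ∈ piece K e 0 c) :
    ∃ (a : K) (r' : Cox K n), r' ∈ piece K e 0 (c - 1) ∧ r = a • ww ^ c + vv * r' := by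
  refine piece_induction (motive := fun r => ∃ (a : K) (r' : Cox K n),
    r' ∈ piece K e 0 (c - 1) ∧ r = a • ww ^ c + vv * r') ⟨0, 0, zero_mem _, by simp⟩ ?_
    (fun d r hd => ?_) hr
  · rintro _ _ ⟨a, p, hp, rfl⟩ ⟨b, q, hq, rfl⟩
    exact ⟨a + b, p + q, add_mem hp hq, by rw [add_smul]; ring⟩
  · obtain ⟨h1, h2⟩ := monomial_zero_eq r hd
    rw [h2]
    rcases Nat.eq_zero_or_pos (d (Sum.inl 0)) with h | h
    · refine ⟨r, 0, zero_mem _, ?_⟩
      rw [h, show d (Sum.inl 1) = c by omega]; simp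
    · obtain ⟨m, hm⟩ : ∃ m, d (Sum.inl 0) = m + 1 := ⟨_, (Nat.succ_pred_eq_of_pos h).symm⟩
      refine ⟨0, r • (vv ^ m * ww ^ d (Sum.inl 1)), Submodule.smul_mem _ _
        (piece_cast (mul_mem_piece (inl_pow_mem 0 _) (inl_pow_mem 1 _)) (by ring) (by omega)), ?_⟩
      rw [hm, zero_smul, zero_add, mul_smul_comm, pow_succ]
      congr 1; ring

theorem one_split {b : ℕ} {p : Cox K n} (hp : p ∈ piece K e 1 b) :
    ∃ p₀ ∈ piece K e 1 0, ∃ p' ∈ piece K e 1 (b - 1), p = ww ^ b * p₀ + vv * p' := by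
  have h := fun l => zero_split (c := b + e l) (piece_cast (pderiv_mem_zero l hp) rfl
    (by push_cast; ring))
  choose a r hr h using h
  refine ⟨∑ l, xx K l * (a l • ww ^ e l), Submodule.sum_mem _ fun l _ =>
    piece_cast (xx_mul_mem l (Submodule.smul_mem _ _ (inl_pow_mem 1 _))) (by ring) (by ring),
    ∑ l, xx K l * r l, Submodule.sum_mem _ fun l _ =>
    piece_cast (xx_mul_mem l (hr l)) (by ring) (by push_cast; ring), ?_⟩
  rw [eq_sum_of_one hp, mul_sum, mul_sum, ← sum_add_distrib]
  refine sum_congr rfl fun l _ => ?_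
  rw [h l, smul_eq_C_mul, smul_eq_C_mul]; ring

theorem vv_ne : (vv : Cox K n) ≠ 0 := X_ne_zero _

theorem ww_ne : (ww : Cox K n) ≠ 0 := X_ne_zero _

theorem exists_of_vw {p q : Cox K n} (h : vv * p + ww * q = 0) :
    ∃ z, p = ww * z ∧ q = -(vv * z) := by
  have h1 : (ww : Cox K n) ∣ vv * p := ⟨-q, by linear_combination h⟩
  rcases X_prime.dvd_or_dvd h1 with h2 | ⟨z, rfl⟩
  · simp at h2
  · exact ⟨z, rfl, mul_left_cancel₀ ww_ne (by linear_combination h)⟩

section chains

variable [CharZero K]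

/-- The Euler homotopy. -/
noncomputable def eul (σ : Finset (Fin n) → Cox K n) : Finset (Fin n) → Cox K n :=
  ∑ l, hom l fun S => pderiv (Sum.inr l) (σ S)

theorem kos_eul (σ : Finset (Fin n) → Cox K n) (S : Finset (Fin n)) :
    kos (xx K) (eul σ) S + eul (kos (xx K) σ) S =
      ∑ l, xx K l * pderiv (Sum.inr l) (σ S) + S.card • σ S := by
  have h1 : ∀ l T, l ∉ T → pderiv (Sum.inr l) (kos (xx K) σ T) =
      kos (xx K) (fun S => pderiv (Sum.inr l) (σ S)) T + sgn l T • σ (insert l T) := by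
    intro l T hl
    simp only [kos, map_sum, map_zsmul, smul_eq_mul, Derivation.leibniz, smul_add,
      sum_add_distrib]
    congr 1
    rw [sum_eq_single l]
    · simp
    · intro a _ ha
      simp [pderiv_X, ha]
    · intro h; simp [hl] at h
  have h2 : ∀ l, hom l (fun T => pderiv (Sum.inr l) (kos (xx K) σ T)) S =
      hom l (kos (xx K) fun S => pderiv (Sum.inr l) (σ S)) S + if l ∈ S then σ S else 0 := by
    intro l
    simp only [hom]
    split_ifs with h
    · rw [h1 l _ (notMem_erase l S), smul_add, smul_smul, sgn_erase_self, sgn_mul_self, one_smul,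
        insert_erase h]
    · simp
  rw [eul, eul, kos_sum]
  simp only [Finset.sum_apply, h2, sum_add_distrib]
  rw [← add_assoc, ← sum_add_distrib]
  simp only [kos_hom, smul_eq_mul]
  simp

theorem eul_supp {σ : Finset (Fin n) → Cox K n} {p : ℕ} (h : ∀ S, S.card ≠ p → σ S = 0)
    (S : Finset (Fin n)) (hS : S.card ≠ p + 1) : eul σ S = 0 := by
  rw [eul, Finset.sum_apply]
  refine sum_eq_zero fun l _ => ?_
  rw [hom]
  split_ifs with hl
  · rw [h _ (by rw [card_erase_of_mem hl]; have := card_pos.2 ⟨l, hl⟩; omega)]; simp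
  · rfl

theorem eul_mem {σ : Finset (Fin n) → Cox K n} {a b : ℤ}
    (h : ∀ S, σ S ∈ piece K e a (b + ∑ l ∈ S, (e l : ℤ))) (S : Finset (Fin n)) :
    eul σ S ∈ piece K e (a - 1) (b + ∑ l ∈ S, (e l : ℤ)) := by
  rw [eul, Finset.sum_apply]
  refine Submodule.sum_mem _ fun l _ => ?_
  rw [hom]
  split_ifs with hl
  · refine Submodule.smul_of_tower_mem _ _ (piece_cast (pderiv_mem l (h _)) rfl ?_)
    rw [← add_sum_erase _ _ hl]; ring
  · exact zero_mem _

theorem kos_mem {σ : Finset (Fin n) → Cox K n} {a b : ℤ}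
    (h : ∀ S, σ S ∈ piece K e a (b + ∑ l ∈ S, (e l : ℤ))) (S : Finset (Fin n)) :
    kos (xx K) σ S ∈ piece K e (a + 1) (b + ∑ l ∈ S, (e l : ℤ)) := by
  refine Submodule.sum_mem _ fun l hl => Submodule.smul_of_tower_mem _ _ ?_
  refine piece_cast (xx_mul_mem l (h _)) rfl ?_
  rw [sum_insert (by simpa using hl)]; ring

theorem kos_eul' {σ : Finset (Fin n) → Cox K n} {p : ℕ} {a : ℤ} {b : Finset (Fin n) → ℤ}
    (h : ∀ S, S.card ≠ p → σ S = 0) (h' : ∀ S, σ S ∈ piece K e a (b S)) :
    kos (xx K) (eul σ) + eul (kos (xx K) σ) = ((a + p : ℤ) : K) • σ := by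
  funext S
  rw [Pi.add_apply, kos_eul, euler (h' S), Pi.smul_apply, Int.cast_smul_eq_zsmul, add_smul]
  by_cases hS : S.card = p
  · rw [hS, natCast_zsmul]
  · simp [h S hS]

theorem eul_zero : eul (0 : Finset (Fin n) → Cox K n) = 0 := by
  funext S; simp [eul, hom]

end chains

theorem kos_supp {R M : Type*} [CommRing R] [AddCommGroup M] [Module R M] (φ : Fin n → R)
    {σ : Finset (Fin n) → M} {p : ℕ} (h : ∀ S, S.card ≠ p + 1 → σ S = 0)
    (S : Finset (Fin n)) (hS : S.card ≠ p) : kos φ σ S = 0 :=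
  sum_eq_zero fun l hl => by
    rw [h _ (by rw [card_insert_of_notMem (by simpa using hl)]; omega)]; simp

theorem kos_supp_zero {R M : Type*} [CommRing R] [AddCommGroup M] [Module R M] (φ : Fin n → R)
    {σ : Finset (Fin n) → M} (h : ∀ S, S.card ≠ 0 → σ S = 0) : kos φ σ = 0 :=
  funext fun S => sum_eq_zero fun l hl => by
    rw [h _ (by rw [card_insert_of_notMem (by simpa using hl)]; omega)]; simp

end Pool.Agent.MP_8e057e_ag

end MrgPart1

-- ======== part 2: formerly Pool.Agent.MP_8e057e_ag.Can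
section MrgPart2

/-! Canonical divisors, Serre duality on adeles, and pencils. -/

open Pool.Agent.MP_79c67d_ag Pool.Agent.MP_79c67d_ag.FF Module

set_option linter.unusedSectionVars false

namespace Pool.Agent.MP_8e057e_ag

variable {K F : Type} [Field K] [Field F] [Algebra K F] [IsFF K F] [CharZero K] [IsAlgClosed K]

/-- Canonical divisors. -/
structure IsCan (W : Divisor K F) : Prop where
  deg_eq : deg W = 2 * genus K F - 2
  h0_eq : h0 W = genus K F

theorem exists_div_of_deg {D : Divisor K F} (h : deg D = 0) (h1 : 0 < h0 D) :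
    ∃ f : F, f ≠ 0 ∧ D = - div K f := by
  obtain ⟨f, hf, hf0⟩ := exists_ne_of_h0 h1
  have := eq_zero_of_deg_eq_zero ((mem_sec_iff hf0).1 hf) (by rw [deg_add, deg_div, h]; rfl)
  exact ⟨f, hf0, eq_neg_of_add_eq_zero_right this⟩

namespace IsCan

variable {W : Divisor K F} (hW : IsCan W)
include hW

theorem rr (D : Divisor K F) : (h0 D : ℤ) = deg D + 1 - genus K F + h0 (W - D) := by
  obtain ⟨W₀, h⟩ := riemann_roch K F
  have h1 := h 0
  have h2 := h W₀
  have h3 := h W
  rw [h0_zero, deg_zero, sub_zero] at h1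
  rw [sub_self, h0_zero] at h2
  have h4 := hW.deg_eq
  have h5 := hW.h0_eq
  obtain ⟨f, hf, e⟩ := exists_div_of_deg (D := W₀ - W) (by rw [deg_sub]; omega) (by omega)
  rw [h D, ← h0_add_div (W₀ - D) hf]
  congr 3
  rw [← neg_neg (div K f), ← e]; abel

theorem nonspecial {D : Divisor K F} (h : 2 * (genus K F : ℤ) - 2 < deg D) :
    (h0 D : ℤ) = deg D + 1 - genus K F := by
  have := hW.rr D
  rw [h0_eq_zero (D := W - D) (by rw [deg_sub, hW.deg_eq]; omega)] at this
  omega

theorem finrank_Om (D : Divisor K F) : finrank K (Om D) = h0 (W - D) := by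
  have h1 := (Om_dim D).2
  have h2 := hW.rr D
  omega

theorem exists_om : ∃ ω ∈ Om W, ω ≠ 0 := by
  have h1 := hW.finrank_Om W
  rw [sub_self, h0_zero] at h1
  have := (Om_dim W).1
  obtain ⟨⟨ω, hω⟩, hω0⟩ := (finrank_pos_iff_exists_ne_zero (R := K) (M := Om W)).1 (by omega)
  exact ⟨ω, hω, fun h => hω0 (Subtype.ext h)⟩

theorem exists_tw {ω : Dual K (Adele K F)} (hω : ω ∈ Om W) (hω0 : ω ≠ 0) {D : Divisor K F}
    {η : Dual K (Adele K F)} (hη : η ∈ Om D) : ∃ f ∈ sec (W - D), tw ω f = η := by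
  have := (Om_dim D).1
  let m : sec (W - D) →ₗ[K] Om D :=
    ((tw ω).domRestrict (sec (W - D))).codRestrict _ fun f => tw_mem hω f.2
  have h1 : Function.Injective m := (injective_iff_map_eq_zero m).2 fun f hf =>
    Subtype.ext (tw_eq_zero hω0 (congrArg Subtype.val hf))
  have h2 : finrank K (sec (W - D)) = finrank K (Om D) := (hW.finrank_Om D).symm
  have h3 : Function.Surjective m :=
    (LinearMap.injective_iff_surjective_of_finrank_eq_finrank (K := K) (V := sec (W - D))
      (V₂ := Om D) h2).1 h1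
  obtain ⟨f, hf⟩ := h3 ⟨η, hη⟩
  exact ⟨f, f.2, congrArg Subtype.val hf⟩

/-- Serre duality as a separation statement. -/
theorem sep {ω : Dual K (Adele K F)} (hω : ω ∈ Om W) (hω0 : ω ≠ 0) {D : Divisor K F}
    {Y : Submodule K (Adele K F)} (h1 : AD D ≤ Y) (h2 : ∀ f, diag K f ∈ Y) {α : Adele K F}
    (h : ∀ f ∈ sec (W - D), (∀ y ∈ Y, ω (f • y) = 0) → ω (f • α) = 0) : α ∈ Y := by
  by_contra hn
  obtain ⟨η, hη, hη'⟩ := Submodule.exists_le_ker_of_notMem hn
  obtain ⟨f, hf, rfl⟩ := hW.exists_tw hω hω0 (D := D) (η := η)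
    ⟨fun a ha => hη' (h1 ha), fun f => hη' (h2 f)⟩
  exact hη (h f hf fun y hy => hη' hy)

theorem sep' {ω : Dual K (Adele K F)} (hω : ω ∈ Om W) (hω0 : ω ≠ 0) {D : Divisor K F}
    {α : Adele K F} (h : ∀ f ∈ sec (W - D), ω (f • α) = 0) :
    ∃ a ∈ AD D, ∃ f, α = a + diag K f := by
  have := hW.sep hω hω0 (D := D) (Y := AD D ⊔ LinearMap.range (diag K)) le_sup_left
    (fun f => Submodule.mem_sup_right ⟨f, rfl⟩) fun f hf _ => h f hf
  obtain ⟨a, ha, _, ⟨f, rfl⟩, rfl⟩ := Submodule.mem_sup.1 this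
  exact ⟨a, ha, f, rfl⟩

end IsCan

theorem exists_repr {ω : Dual K (Adele K F)} (hω0 : ω ≠ 0) (V : Submodule K F)
    [FiniteDimensional K V] (lam : Dual K V) : ∃ α : Adele K F, ∀ z : V, ω (z.1 • α) = lam z := by
  let m : Adele K F →ₗ[K] Dual K V := (tw ω ∘ₗ V.subtype).flip
  have h1 : Submodule.span K (Set.range m) = ⊤ := Submodule.span_eq_top_of_ne_zero fun z hz => by
    by_contra hn
    push Not at hn
    exact hz (Subtype.ext (tw_eq_zero hω0 (LinearMap.ext fun α => hn _ ⟨α, rfl⟩)))
  rw [← LinearMap.coe_range, Submodule.span_eq] at h1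
  obtain ⟨α, hα⟩ := LinearMap.range_eq_top.1 h1 lam
  exact ⟨α, fun z => LinearMap.congr_fun hα z⟩

theorem smul_mem_AD {D E : Divisor K F} {f : F} {α : Adele K F} (hf : f ∈ sec D)
    (hα : α ∈ AD E) : f • α ∈ AD (D + E) := fun P => by
  have := (hf P).mul (hα P)
  rw [Finsupp.add_apply, neg_add]
  exact this

theorem smul_diag (f g : F) : f • diag K g = (diag K (f * g) : Adele K F) := rfl

theorem pow_mem_sec {D : Divisor K F} {f : F} (hf : f ∈ sec D) (m : ℕ) :
    f ^ m ∈ sec ((m : ℤ) • D) := fun P => by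
  have := (hf P).pow m
  rwa [Finsupp.smul_apply, smul_eq_mul, neg_mul_eq_mul_neg]

theorem one_mem_sec {D : Divisor K F} (h : 0 ≤ D) : (1 : F) ∈ sec D := fun P =>
  P.ge_one.mono (neg_nonpos.2 (h P))

theorem const_mem_sec {D : Divisor K F} (h : 0 ≤ D) (c : K) : algebraMap K F c ∈ sec D :=
  fun P => (P.ge_const c).mono (neg_nonpos.2 (h P))

theorem prod_mem_sec {ι : Type*} (s : Finset ι) {G : ι → Divisor K F} {f : ι → F}
    (h : ∀ i ∈ s, f i ∈ sec (G i)) : ∏ i ∈ s, f i ∈ sec (∑ i ∈ s, G i) := by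
  classical
  induction s using Finset.induction_on with
  | empty => simpa using one_mem_sec le_rfl
  | insert a s ha ih =>
    rw [Finset.prod_insert ha, Finset.sum_insert ha]
    exact mul_mem_sec (h a (by simp)) (ih fun i hi => h i (by simp [hi]))

variable (K) in
/-- The divisor of poles. -/
noncomputable def pol (x : F) : Divisor K F := (- div K x) ⊔ 0

theorem pol_apply (x : F) (P : Place K F) : pol K x P = max (- P.ord x) 0 := by
  rw [pol, Finsupp.sup_apply]; rfl

theorem pol_nonneg (x : F) : 0 ≤ pol K x := le_sup_right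

theorem mem_sec_pol (x : F) : x ∈ sec (pol K x) := sec_mono le_sup_left (self_mem_sec x)

theorem li_one {x : F} (hx : Transcendental K x) : LinearIndependent K ![1, x] := by
  refine LinearIndependent.pair_iff.2 fun a b h => ?_
  by_cases hb : b = 0
  · simpa [hb] using h
  · exfalso
    refine transcendental_iff_ne.1 hx (-a / b) ?_
    have hb' : algebraMap K F b ≠ 0 := by simpa using hb
    rw [Algebra.smul_def, Algebra.smul_def] at h
    rw [map_div₀, map_neg, eq_div_iff hb']
    linear_combination h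

theorem two_le_h0 {D : Divisor K F} {s t : F} (hs : s ∈ sec D) (ht : t ∈ sec D)
    (h : LinearIndependent K ![s, t]) : 2 ≤ h0 D := by
  have h1 : LinearIndependent K (![⟨s, hs⟩, ⟨t, ht⟩] : Fin 2 → sec D) :=
    LinearIndependent.of_comp (sec D).subtype (by
      convert h using 1
      funext i; fin_cases i <;> rfl)
  simpa [h0] using h1.fintype_card_le_finrank

theorem two_le_h0_pol {x : F} (hx : Transcendental K x) : 2 ≤ h0 (pol K x) :=
  two_le_h0 (one_mem_sec (pol_nonneg x)) (mem_sec_pol x) (li_one hx)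

theorem ne_of_li {s t : F} (h : LinearIndependent K ![s, t]) : s ≠ 0 := by
  simpa using h.ne_zero 0

theorem ne_of_li' {s t : F} (h : LinearIndependent K ![s, t]) : t ≠ 0 := by
  simpa using h.ne_zero 1

theorem trans_of_li {s t : F} (h : LinearIndependent K ![s, t]) : Transcendental K (t / s) := by
  refine transcendental_iff_ne.2 fun c hc => ?_
  have := (LinearIndependent.pair_iff.1 h c (-1) (by
    rw [Algebra.smul_def, ← hc, div_mul_cancel₀ _ (ne_of_li h)]; simp)).2
  simp at this

theorem exists_li_of_h0 {D : Divisor K F} (h : 2 ≤ h0 D) :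
    ∃ s ∈ sec D, ∃ t ∈ sec D, LinearIndependent K ![s, t] := by
  obtain ⟨v, hv⟩ := exists_linearIndependent_of_le_finrank (R := K) (M := sec D) h
  refine ⟨v 0, (v 0).2, v 1, (v 1).2, ?_⟩
  have h1 : ![(v 0 : F), (v 1 : F)] = (sec D).subtype ∘ v := by
    funext i; fin_cases i <;> rfl
  rw [h1]
  exact hv.map' (sec D).subtype (Submodule.ker_subtype _)

/-- The base point free pencil trick on a curve with the Petri property for pencils. -/
theorem pencil_trick {W M : Divisor K F} (hP : ∀ A : Divisor K F, 2 ≤ h0 A → h0 (W - 2 • A) = 0)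
    {s t a b : F} (hs : s ∈ sec M) (ht : t ∈ sec M) (h : LinearIndependent K ![s, t])
    (ha : a ∈ sec (W - M)) (hb : b ∈ sec (W - M)) (e : s * a + t * b = 0) : a = 0 ∧ b = 0 := by
  have hs0 := ne_of_li h
  have ht0 := ne_of_li' h
  have h1 : s * b = 0 := by
    refine eq_zero_of_h0 (hP _ (two_le_h0_pol (trans_of_li h))) fun P => ?_
    have e1 : (W - 2 • pol K (t / s)) P = W P - 2 * max (P.ord s - P.ord t) 0 := by
      rw [Finsupp.sub_apply, Finsupp.smul_apply, pol_apply, P.ord_div ht0 hs0]; simp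
    rw [e1]
    have h2 := (hs P).le hs0
    have h3 := (ht P).le ht0
    rcases le_total (P.ord s - P.ord t) 0 with h4 | h4
    · exact ((hs P).mul (hb P)).mono (by rw [max_eq_right h4, Finsupp.sub_apply]; omega)
    · have e2 : s * b = -(s * s * t⁻¹ * a) := by field_simp; linear_combination e
      rw [e2, max_eq_left h4]
      refine ((((P.ge_ord s).mul (P.ge_ord s)).mul (P.ge_ord t⁻¹)).mul (ha P)).neg.mono ?_
      rw [Finsupp.sub_apply, Place.ord_inv]; omega
  have h2 : b = 0 := (mul_eq_zero.1 h1).resolve_left hs0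
  rw [h2, mul_zero, add_zero] at e
  exact ⟨(mul_eq_zero.1 e).resolve_left hs0, h2⟩

theorem exists_ord_eq {D : Divisor K F} {P : Place K F}
    (h : h0 (D - Finsupp.single P 1) < h0 D) : ∃ f ∈ sec D, ¬ P.Ge (-D P + 1) f := by
  by_contra hn
  push Not at hn
  have : sec D ≤ sec (D - Finsupp.single P 1) := fun f hf => mem_sec_sub hf (hn f hf)
  exact absurd (Submodule.finrank_mono this) (not_le.2 h)

theorem ord_eq_of_not_ge {P : Place K F} {m : ℤ} {f : F} (h : P.Ge m f) (h' : ¬ P.Ge (m + 1) f) :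
    f ≠ 0 ∧ P.ord f = m := by
  rw [Place.not_ge] at h'
  have := h.le h'.1
  exact ⟨h'.1, by omega⟩

/-- A dual basis for a separating family of functionals. -/
theorem exists_dual_basis {V J : Type} [AddCommGroup V] [Module K V] [FiniteDimensional K V]
    (ev : J → Dual K V) (h : ∀ z ≠ 0, ∃ j, ev j z ≠ 0) :
    ∃ (b : Basis (Fin (finrank K V)) K V) (j : Fin (finrank K V) → J),
      ∀ a c, ev (j a) (b c) = if a = c then 1 else 0 := by
  classical
  have h1 : Submodule.span K (Set.range ev) = ⊤ := Submodule.span_eq_top_of_ne_zero fun z hz => by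
    obtain ⟨j, hj⟩ := h z hz
    exact ⟨_, ⟨j, rfl⟩, hj⟩
  obtain ⟨t, ht, hs, hl⟩ := exists_linearIndependent K (Set.range ev)
  let B : Basis t K (Dual K V) := Basis.mk hl (by simp [hs, h1])
  have : Fintype t := FiniteDimensional.fintypeBasisIndex B
  have hc : Fintype.card t = finrank K V := by
    rw [← finrank_eq_card_basis B, Subspace.dual_finrank_eq]
  let B' := B.reindex (Fintype.equivFinOfCardEq hc)
  have h2 : ∀ a, ∃ j, ev j = B' a := fun a => by
    rw [Basis.reindex_apply, Basis.mk_apply]; exact ht (Subtype.prop _)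
  choose j hj using h2
  refine ⟨B'.dualBasis.map (evalEquiv K V).symm, j, fun a c => ?_⟩
  rw [hj, Basis.map_apply, apply_evalEquiv_symm_apply, Basis.dualBasis_apply_self]

end Pool.Agent.MP_8e057e_ag

end MrgPart2

-- ======== part 3: formerly Pool.Agent.MP_8e057e_ag.Scr
section MrgPart3

/-! The scroll of a good pencil. -/

open Pool.Agent.MP_79c67d_ag Pool.Agent.MP_79c67d_ag.FF Module MvPolynomial Finset

set_option linter.unusedSectionVars false

namespace Pool.Agent.MP_8e057e_ag

variable {K F : Type} [Field K] [Field F] [Algebra K F] [IsFF K F] [CharZero K] [IsAlgClosed K]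
variable {W D : Divisor K F} {n : ℕ}

theorem aeval_mem {e : Fin n → ℕ} {s : Fin 2 → F} {φ : Fin n → F} (hs : ∀ j, s j ∈ sec D)
    (hφ : ∀ l, φ l ∈ sec (W - (e l : ℤ) • D)) {a b : ℤ} {p : Cox K n} (hp : p ∈ piece K e a b) :
    aeval (Sum.elim s φ) p ∈ sec (a • W + b • D) := by
  refine piece_induction (motive := fun p => aeval (Sum.elim s φ) p ∈ sec (a • W + b • D))
    (by simp) (fun p q hp hq => by rw [map_add]; exact add_mem hp hq) (fun d r hd => ?_) hp
  rw [aeval_monomial, ← Algebra.smul_def, Finsupp.prod_fintype _ _ (by simp)]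
  refine Submodule.smul_mem _ _ ?_
  have h1 : ∀ i, Sum.elim s φ i ∈ sec ((wt e i).1 • W + (wt e i).2 • D) := by
    rintro (j | l)
    · simpa [wt] using hs j
    · simpa [wt, sub_eq_add_neg] using hφ l
  have h2 := prod_mem_sec univ fun i _ => pow_mem_sec (h1 i) (d i)
  rw [Finsupp.weight_eq_sum] at hd
  have h3 : ∑ i, (d i : ℤ) * (wt e i).1 = a := by
    simpa [Prod.fst_sum] using congrArg Prod.fst hd
  have h4 : ∑ i, (d i : ℤ) * (wt e i).2 = b := by
    simpa [Prod.snd_sum] using congrArg Prod.snd hd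
  simp only [smul_add, smul_smul, sum_add_distrib, ← sum_smul] at h2
  rwa [h3, h4] at h2

theorem neg_one_repr {e : Fin n → ℕ} (he : ∀ l, e l ≤ 1) {p : Cox K n}
    (hp : p ∈ piece K e 1 (-1)) :
    ∃ c : Fin n → K, (∀ l, e l = 0 → c l = 0) ∧ p = ∑ l, xx K l * C (c l) := by
  have h : ∀ l, ∃ c : K, (e l = 0 → c = 0) ∧ pderiv (Sum.inr l) p = C c := fun l => by
    have h1 := pderiv_mem_zero l hp
    rcases Nat.le_one_iff_eq_zero_or_eq_one.1 (he l) with h | h
    · rw [piece_zero_eq_bot (by omega)] at h1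
      exact ⟨0, fun _ => rfl, by simpa using h1⟩
    · obtain ⟨c, hc⟩ := exists_C_of_mem (piece_cast h1 rfl (by omega))
      exact ⟨c, by omega, hc⟩
  choose c hc h using h
  exact ⟨c, hc, by simp only [← h]; exact eq_sum_of_one hp⟩

namespace Scroll

variable (X : Scroll W D n)

/-- Restriction to the curve. -/
noncomputable abbrev ev : Cox K n →ₐ[K] F := aeval (Sum.elim X.s X.φ)

theorem ev_inl (j : Fin 2) : X.ev (MvPolynomial.X (Sum.inl j)) = X.s j := by simp

theorem ev_xx (l : Fin n) : X.ev (xx K l) = X.φ l := by simp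

theorem s_mem (j : Fin 2) : X.s j ∈ sec D := by simpa using X.ruling.mapsTo (inl_mem j)

theorem φ_mem (l : Fin n) : X.φ l ∈ sec (W - (X.e l : ℤ) • D) := by
  simpa [sub_eq_add_neg] using (X.hyperplane (-X.e l) (by omega)).mapsTo (xx_mem l)

theorem ev_mem {a b : ℤ} {p : Cox K n} (hp : p ∈ piece K X.e a b) :
    X.ev p ∈ sec (a • W + b • D) := aeval_mem X.s_mem X.φ_mem hp

theorem ev_mem_zero {b : ℤ} {p : Cox K n} (hp : p ∈ piece K X.e 0 b) :
    X.ev p ∈ sec (b • D) := by simpa using X.ev_mem hp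

theorem ev_mem_one {b : ℤ} {p : Cox K n} (hp : p ∈ piece K X.e 1 b) :
    X.ev p ∈ sec (W + b • D) := by simpa using X.ev_mem hp

theorem inj_nonpos {b : ℤ} (hb : b ≤ 0) {p : Cox K n} (hp : p ∈ piece K X.e 1 b)
    (h : X.ev p = 0) : p = 0 :=
  (X.hyperplane b hb).injOn hp (zero_mem _) (by rw [map_zero]; exact h)

theorem surj_nonpos {b : ℤ} (hb : b ≤ 0) {z : F} (hz : z ∈ sec (W + b • D)) :
    ∃ p ∈ piece K X.e 1 b, X.ev p = z := (X.hyperplane b hb).surjOn hz

theorem φ_ne (l : Fin n) : X.φ l ≠ 0 := fun h =>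
  X_ne_zero _ (X.inj_nonpos (by omega) (xx_mem l) (by rw [ev_xx, h]))

theorem li_s : LinearIndependent K ![X.s 0, X.s 1] := by
  refine LinearIndependent.pair_iff.2 fun a b h => ?_
  have h1 : a • (vv : Cox K n) + b • ww = 0 := X.ruling.injOn
    (add_mem (Submodule.smul_mem _ _ (inl_mem 0)) (Submodule.smul_mem _ _ (inl_mem 1)))
    (zero_mem _) (by simpa using h)
  have h2 := congrArg (pderiv (Sum.inl 0)) h1
  have h3 := congrArg (pderiv (Sum.inl 1)) h1
  simp [pderiv_X] at h2 h3
  exact ⟨h2, h3⟩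

theorem finrank_map {a b : ℤ} (h : ∀ p ∈ piece K X.e a b, X.ev p = 0 → p = 0) :
    finrank K ((piece K X.e a b).map X.ev.toLinearMap) = finrank K (piece K X.e a b) := by
  rw [← LinearMap.range_domRestrict]
  exact LinearMap.finrank_range_of_inj ((injective_iff_map_eq_zero _).2 fun p hp =>
    Subtype.ext (h p p.2 hp))

theorem finrank_nonpos {b : ℤ} (hb : b ≤ 0) :
    ∑ l, (b + X.e l + 1).toNat = h0 (W + b • D) := by
  rw [← finrank_piece_one (K := K), ← X.finrank_map fun p hp => X.inj_nonpos hb hp, h0]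
  rw [show (piece K X.e 1 b).map X.ev.toLinearMap = sec (W + b • D) from
    SetLike.coe_injective (X.hyperplane b hb).image_eq]

theorem aeval_norm {u : F} (hu : u ≠ 0) {a b : ℤ} {p : Cox K n} (hp : p ∈ piece K X.e a b) :
    aeval (Sum.elim (fun j => X.s j / u) fun l => X.φ l * u ^ X.e l) p = X.ev p * u ^ (-b) := by
  refine piece_induction (motive := fun p => aeval (Sum.elim (fun j => X.s j / u)
    fun l => X.φ l * u ^ X.e l) p = X.ev p * u ^ (-b)) (by simp)
    (fun p q hp hq => by rw [map_add, map_add, hp, hq, add_mul]) (fun d r hd => ?_) hp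
  rw [weight_wt] at hd
  have h1 : (d (Sum.inl 0) : ℤ) + d (Sum.inl 1) - ∑ l, (d (Sum.inr l) : ℤ) * X.e l = b :=
    (Prod.ext_iff.1 hd).2
  rw [aeval_monomial, aeval_monomial, Finsupp.prod_fintype _ _ (by simp),
    Finsupp.prod_fintype _ _ (by simp), mul_assoc, ← h1]
  congr 1
  simp only [Fintype.prod_sum_type, Fin.prod_univ_two, Sum.elim_inl, Sum.elim_inr, mul_pow,
    prod_mul_distrib, ← pow_mul, prod_pow_eq_pow_sum, _root_.div_pow]
  rw [neg_sub, zpow_sub₀ hu, zpow_add₀ hu]
  simp only [← Nat.cast_mul, ← Nat.cast_sum, zpow_natCast, mul_comm (X.e _)]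
  field_simp

theorem bijOn_mul (G : Divisor K F) {u : F} (hu : u ≠ 0) (b : ℤ) :
    Set.BijOn (fun z => z * u ^ (-b)) (sec G : Set F) (sec (G + b • div K u)) := by
  have h : ∀ (G : Divisor K F) (b : ℤ), Set.MapsTo (fun z => z * u ^ (-b)) (sec G : Set F)
      (sec (G + b • div K u)) := fun G b z hz => by
    have := mul_mem_sec hz (self_mem_sec (u ^ (-b)))
    rwa [FF.div_zpow, neg_smul, neg_neg] at this
  refine ⟨h G b, fun x _ y _ e => mul_right_cancel₀ (zpow_ne_zero _ hu) e, fun z hz =>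
    ⟨z * u ^ (- -b), by simpa using h _ (-b) hz, ?_⟩⟩
  simp only
  rw [mul_assoc, ← zpow_add₀ hu]; simp

/-- Normalizing the first section of the pencil. -/
noncomputable def norm : Scroll W (D + div K (X.s 0)) n where
  s j := X.s j / X.s 0
  e := X.e
  φ l := X.φ l * X.s 0 ^ X.e l
  anti := X.anti
  ruling := by
    have := (bijOn_mul D (ne_of_li X.li_s) 1).comp X.ruling
    rw [one_smul] at this
    exact this.congr fun p hp => (X.aeval_norm (ne_of_li X.li_s) hp).symm
  hyperplane b hb := by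
    have := (bijOn_mul (W + b • D) (ne_of_li X.li_s) b).comp (X.hyperplane b hb)
    rw [add_assoc, ← smul_add] at this
    exact this.congr fun p hp => (X.aeval_norm (ne_of_li X.li_s) hp).symm

theorem norm_syz (i : ℕ) (b : ℤ) : X.norm.syz i b = X.syz i b := by
  ext σ
  refine and_congr_right fun _ => and_congr_right fun h => and_congr_left fun _ =>
    forall_congr' fun S => ?_
  have := X.aeval_norm (ne_of_li X.li_s) (h S)
  change aeval (Sum.elim (fun j => X.s j / X.s 0) fun l => X.φ l * X.s 0 ^ X.e l) (σ S) = 0 ↔ _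
  rw [this, mul_eq_zero, or_iff_left (zpow_ne_zero _ (ne_of_li X.li_s))]

end Scroll

theorem Good.add_div (h : Good W D) {u : F} (hu : u ≠ 0) : Good W (D + div K u) where
  petri := h.petri
  pencil := by rw [h0_add_div D hu, h.pencil]
  free P := by rw [add_sub_right_comm, h0_add_div _ hu, h.free]
  free_adjoint P := by
    rw [← sub_sub, sub_right_comm, h0_sub_div _ hu, h0_sub_div _ hu, h.free_adjoint]

/-- The standing assumptions. -/
structure Ctx (X : Scroll W D n) : Prop where
  can : IsCan W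
  good : Good W D
  one : X.s 0 = 1
  two : 2 ≤ h0 (W - D)

/-- The adele that is one at the points of a divisor and zero elsewhere. -/
noncomputable def inf (D : Divisor K F) : Adele K F :=
  ⟨fun P => if D P = 0 then 0 else 1, 0, fun P => by
    beta_reduce
    split_ifs
    · exact P.ge_zero _
    · simpa using P.ge_one⟩

theorem smul_inf_apply (z : F) (P : Place K F) :
    (z • inf D).1 P = if D P = 0 then 0 else z := by
  change z * (if D P = 0 then 0 else 1) = _
  split_ifs <;> simp

namespace Ctx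

variable {X : Scroll W D n} (h : Ctx X)
include h

theorem nonneg (P : Place K F) : 0 ≤ D P := by
  have := (X.s_mem 0 P).le (ne_of_li X.li_s)
  rw [h.one] at this
  simpa using this

theorem t_trans : Transcendental K (X.s 1) := by
  simpa [h.one] using trans_of_li X.li_s

theorem t_ne : X.s 1 ≠ 0 := ne_of_li' X.li_s

theorem ev_vv : X.ev vv = 1 := by simp [h.one]

theorem e_le (l : Fin n) : X.e l ≤ 1 := by
  by_contra hn
  have h1 : vv ^ (X.e l - 2) * xx K l ∈ piece K X.e 1 (-2) :=
    piece_cast (mul_mem_piece (inl_pow_mem 0 _) (xx_mem l)) (by ring) (by omega)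
  have h2 := X.ev_mem_one h1
  have h3 := h.good.petri D h.good.pencil.ge
  rw [show W - 2 • D = W + (-2 : ℤ) • D by simp [sub_eq_add_neg, two_smul]] at h3
  exact mul_ne_zero (pow_ne_zero _ vv_ne) (X_ne_zero _)
    (X.inj_nonpos (by omega) h1 (eq_zero_of_h0 h3 h2))

theorem sum_e : ∑ l, X.e l = h0 (W - D) := by
  have := X.finrank_nonpos (b := -1) (by omega)
  rw [neg_smul, one_smul, ← sub_eq_add_neg] at this
  rw [← this]
  exact sum_congr rfl fun l _ => by omega

theorem n_add : n + h0 (W - D) = genus K F := by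
  have := X.finrank_nonpos (b := 0) le_rfl
  rw [zero_smul, add_zero, h.can.h0_eq] at this
  rw [sum_congr rfl (g := fun l => 1 + X.e l) fun l _ => by omega] at this
  rw [← this, ← h.sum_e]
  simp [sum_add_distrib]

theorem deg_eq : deg D = n + 1 := by
  have h1 := h.can.rr D
  have h2 := h.n_add
  rw [h.good.pencil] at h1
  omega

theorem ord_t {P : Place K F} (hP : D P ≠ 0) : P.ord (X.s 1) = - D P := by
  obtain ⟨z, hz, hz'⟩ := exists_ord_eq (D := D) (P := P) (by rw [h.good.free, h.good.pencil]; omega)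
  refine (ord_eq_of_not_ge (X.s_mem 1 P) fun h1 => hz' ?_).2
  obtain ⟨p, hp, rfl⟩ := X.ruling.surjOn hz
  obtain ⟨a, r, hr, rfl⟩ := zero_split (c := 1) hp
  obtain ⟨c, rfl⟩ := exists_C_of_mem (piece_cast hr rfl (by simp))
  have := h.nonneg P
  simpa [h.one] using (h1.smul a).add ((P.ge_const c).mono (by omega))

theorem t_ge {P : Place K F} (hP : D P = 0) : P.Ge 0 (X.s 1) := by
  simpa [hP] using X.s_mem 1 P

theorem t_zpow {P : Place K F} (hP : D P ≠ 0) (m : ℤ) : P.Ge (-(m * D P)) (X.s 1 ^ m) :=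
  P.ge_of_le (by rw [P.ord_zpow, h.ord_t hP]; simp)

theorem repr {z : F} (hz : z ∈ sec (W - D)) :
    ∃ c : Fin n → K, (∀ l, X.e l = 0 → c l = 0) ∧ z = ∑ l, c l • X.φ l := by
  obtain ⟨p, hp, rfl⟩ := X.surj_nonpos (b := -1) (by omega) (z := z)
    (by simpa [sub_eq_add_neg] using hz)
  obtain ⟨c, hc, rfl⟩ := neg_one_repr h.e_le hp
  exact ⟨c, hc, by simp [Algebra.smul_def, mul_comm]⟩

theorem y_mem {l : Fin n} (hl : X.e l = 1) : X.φ l ∈ sec (W - D) := by
  simpa [hl] using X.φ_mem l

theorem exists_gen (P : Place K F) : ∃ l, X.e l = 1 ∧ P.ord (X.φ l) = -W P + D P := by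
  obtain ⟨z, hz, hz'⟩ := exists_ord_eq (D := W - D) (P := P)
    (by have := h.good.free_adjoint P; omega)
  obtain ⟨c, hc, rfl⟩ := h.repr hz
  by_contra hn
  push Not at hn
  refine hz' (Place.ge_sum fun l _ => ?_)
  rcases Nat.le_one_iff_eq_zero_or_eq_one.1 (h.e_le l) with h1 | h1
  · rw [hc l h1, zero_smul]; exact P.ge_zero _
  · have h2 := (h.y_mem h1 P).le (X.φ_ne l)
    have h3 := hn l h1
    rw [Finsupp.sub_apply] at h2 ⊢
    exact (P.ge_of_le (by omega)).smul _

theorem inj_one {b : ℤ} {p : Cox K n} (hp : p ∈ piece K X.e 1 b) (h0 : X.ev p = 0) : p = 0 := by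
  rcases le_or_gt b 0 with hb | hb
  · exact X.inj_nonpos hb hp h0
  obtain ⟨b, rfl⟩ := Int.eq_ofNat_of_zero_le hb.le
  clear hb
  induction b generalizing p with
  | zero => exact X.inj_nonpos le_rfl hp h0
  | succ b ih =>
    obtain ⟨p₀, hp₀, p', hp', rfl⟩ := one_split hp
    rw [map_add, map_mul, map_mul, h.ev_vv, one_mul, map_pow, X.ev_inl] at h0
    have h1 : X.ev p₀ ∈ sec (W + (-1 : ℤ) • D) := fun P => by
      by_cases hP : D P = 0
      · simpa [hP] using X.ev_mem_one hp₀ P
      · have e : X.ev p₀ = -(X.s 1 ^ (-(b + 1 : ℤ)) * X.ev p') := by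
          rw [eq_neg_of_add_eq_zero_right h0, zpow_neg]
          norm_cast
          field_simp [h.t_ne]
        rw [e]
        refine ((h.t_zpow hP _).mul (X.ev_mem_one hp' P)).neg.mono (le_of_eq ?_)
        simp; ring
    obtain ⟨q, hq, e⟩ := X.surj_nonpos (by omega) h1
    have h2 : p₀ = vv * q := sub_eq_zero.1 (X.inj_nonpos le_rfl
      (sub_mem hp₀ (piece_cast (inl_mul_mem 0 hq) rfl (by ring))) (by
        rw [map_sub, map_mul, h.ev_vv, one_mul, e, sub_self]))
    have h3 : ww ^ (b + 1) * q + p' = 0 := ih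
      (by rw [map_add, map_mul, map_pow, X.ev_inl, e, h0]) (add_mem (piece_cast (mul_mem_piece
      (inl_pow_mem 1 (b + 1)) hq) (by ring) (by push_cast; ring))
      (piece_cast hp' rfl (by push_cast; ring)))
    rw [h2]
    linear_combination vv * h3

theorem li {b : ℤ} {r : Fin n → Cox K n} (hr : ∀ l, r l ∈ piece K X.e 0 (b + X.e l))
    (h0 : ∑ l, X.φ l * X.ev (r l) = 0) (l : Fin n) : r l = 0 := by
  have h1 : ∑ l, xx K l * r l = 0 := h.inj_one (b := b) (Submodule.sum_mem _ fun l _ =>
    piece_cast (xx_mul_mem l (hr l)) (by ring) (by ring)) (by simpa using h0)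
  rw [← pderiv_sum_xx hr l, h1, map_zero]

theorem exists_inf : ∃ P, D P ≠ 0 := by
  by_contra hn
  push Not at hn
  have := h.deg_eq
  rw [Finsupp.ext hn (g := 0), deg_zero] at this
  omega

theorem inj_zero {b : ℤ} {p : Cox K n} (hp : p ∈ piece K X.e 0 b) (h0 : X.ev p = 0) : p = 0 := by
  obtain ⟨P, -⟩ := h.exists_inf
  obtain ⟨l, -⟩ := h.exists_gen P
  exact (mul_eq_zero.1 (h.inj_one (piece_cast (xx_mul_mem l hp) (by ring) rfl)
    (by rw [map_mul, h0, mul_zero]))).resolve_left (X_ne_zero _)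

theorem surj_zero {b : ℤ} (hb : b ≤ 1) {z : F} (hz : z ∈ sec (b • D)) :
    ∃ p ∈ piece K X.e 0 b, X.ev p = z := by
  rcases lt_trichotomy b 0 with h1 | rfl | h1
  · rw [sec_eq_bot (by rw [deg_zsmul, h.deg_eq]; nlinarith)] at hz
    exact ⟨0, zero_mem _, by rw [map_zero]; exact hz.symm⟩
  · rw [zero_smul, sec_zero, Submodule.mem_span_singleton] at hz
    obtain ⟨c, rfl⟩ := hz
    exact ⟨C c, C_mem c, by simp [Algebra.smul_def]⟩
  · obtain rfl : b = 1 := by omega
    exact X.ruling.surjOn (by simpa using hz)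

theorem om_inf {ω : Dual K (Adele K F)} (hω : ω ∈ Om W) (l : Fin n) (j : ℤ) :
    ω ((X.φ l * X.s 1 ^ j) • inf D) = 0 := by
  rcases le_total j 0 with hj | hj
  · refine hω.1 _ fun P => ?_
    rw [smul_inf_apply]
    split_ifs with hP
    · exact P.ge_zero _
    · refine ((X.φ_mem l P).mul (h.t_zpow hP j)).mono ?_
      have := h.nonneg P
      simp only [Finsupp.sub_apply, Finsupp.smul_apply, smul_eq_mul]
      nlinarith [Int.natCast_nonneg (X.e l)]
  · rw [← hω.2 (X.φ l * X.s 1 ^ j), ← sub_eq_zero, ← map_sub]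
    refine hω.1 _ fun P => ?_
    change P.Ge _ (((X.φ l * X.s 1 ^ j) • inf D).1 P - X.φ l * X.s 1 ^ j)
    rw [smul_inf_apply]
    split_ifs with hP
    · obtain ⟨j, rfl⟩ := Int.eq_ofNat_of_zero_le hj
      rw [zero_sub, zpow_natCast]
      simpa [hP] using ((X.φ_mem l P).mul0' ((h.t_ge hP).pow0 j)).neg
    · rw [sub_self]; exact P.ge_zero _

theorem om_inf' {ω : Dual K (Adele K F)} (hω : ω ∈ Om W) {b : ℤ} {p : Cox K n}
    (hp : p ∈ piece K X.e 1 b) (j : ℤ) : ω ((X.ev p * X.s 1 ^ j) • inf D) = 0 := by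
  have h1 : ∀ l c, ∀ r ∈ piece K X.e 0 c, ω ((X.φ l * X.ev r * X.s 1 ^ j) • inf D) = 0 := by
    intro l c r hr
    refine piece_induction (motive := fun r => ω ((X.φ l * X.ev r * X.s 1 ^ j) • inf D) = 0)
      (by simp) (fun p q hp hq => ?_) (fun d r hd => ?_) hr
    · rw [map_add, mul_add, add_mul, add_smul, map_add, hp, hq, add_zero]
    · rw [(monomial_zero_eq r hd).2, map_smul X.ev, map_mul, map_pow, map_pow, h.ev_vv, one_pow,
        one_mul, X.ev_inl, mul_smul_comm, smul_mul_assoc, smul_assoc, map_smul, mul_assoc,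
        ← zpow_natCast, ← zpow_add₀ h.t_ne, h.om_inf hω, smul_zero]
  rw [eq_sum_of_one hp, map_sum, sum_mul, sum_smul, map_sum]
  exact sum_eq_zero fun l _ => by
    rw [map_mul, X.ev_xx]; exact h1 l _ _ (pderiv_mem_zero l hp)

theorem sec_neg {z : F} (hz : ∀ P : Place K F, P.Ge (D P) z) : z = 0 :=
  eq_zero_of_h0 (D := -D) (h0_eq_zero (by rw [deg_neg, h.deg_eq]; omega)) fun P => by
    simpa using hz P

theorem ann {ω : Dual K (Adele K F)} (hω : ω ∈ Om W) (hω0 : ω ≠ 0) {b : ℤ} {z : F}
    (hz : z ∈ sec (W + b • D))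
    (hG0 : ∀ G ∈ piece K X.e 0 (b - 2), ω ((z * (X.ev G * X.s 1 ^ (1 - b))) • inf D) = 0) :
    ∃ p ∈ piece K X.e 1 b, X.ev p = z := by
  rcases le_or_gt b 0 with hb | hb
  · exact X.surj_nonpos hb hz
  let Θ : sec (W + b • D) →ₗ[K] Dual K (piece K X.e 0 (b - 2)) := LinearMap.mk₂ K
    (fun z G => ω ((z.1 * (X.ev G.1 * X.s 1 ^ (1 - b))) • inf D))
    (fun a c G => by simp [add_mul, add_smul]) (fun a c G => by simp)
    (fun a c G => by simp [add_mul, mul_add, add_smul]) (fun a c G => by simp)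
  have h1 : Submodule.span K (Set.range Θ) = ⊤ := Submodule.span_eq_top_of_ne_zero fun G hG => by
    by_contra hn
    push Not at hn
    obtain ⟨a, ha, f, e⟩ := h.can.sep' hω hω0 (D := -(b • D))
      (α := (X.ev G.1 * X.s 1 ^ (1 - b)) • inf D) fun f hf => by
        rw [smul_smul]; exact hn _ ⟨⟨f, by simpa using hf⟩, rfl⟩
    have e1 : ∀ P, (if D P = 0 then 0 else X.ev G.1 * X.s 1 ^ (1 - b)) = a.1 P + f := fun P => by
      rw [← smul_inf_apply, e]; rfl
    have ha' : ∀ P : Place K F, P.Ge (b * D P) (a.1 P) := fun P => by simpa using ha P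
    have hG' : ∀ P : Place K F, P.Ge (-((b - 2) * D P)) (X.ev G.1) := fun P => by
      simpa using X.ev_mem_zero G.2 P
    have hf : f = 0 := h.sec_neg fun P => by
      have h2 := h.nonneg P
      rw [← sub_eq_iff_eq_add'.2 (e1 P)]
      refine Place.Ge.sub ?_ ((ha' P).mono (by nlinarith))
      split_ifs with hP
      · exact P.ge_zero _
      · exact ((hG' P).mul (h.t_zpow hP _)).mono (le_of_eq (by ring))
    refine hG (Subtype.ext (h.inj_zero G.2 (h.sec_neg fun P => ?_)))
    by_cases hP : D P = 0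
    · simpa [hP] using hG' P
    · have h2 := e1 P
      rw [if_neg hP, hf, add_zero] at h2
      have h3 := (ha' P).mul (h.t_zpow hP (b - 1))
      rw [← h2, mul_assoc, ← zpow_add₀ h.t_ne] at h3
      simpa using h3.mono (n := _) (m := D P) (le_of_eq (by ring))
  rw [← LinearMap.coe_range, Submodule.span_eq] at h1
  have h2 := Θ.finrank_range_add_finrank_ker
  rw [h1, finrank_top, Subspace.dual_finrank_eq, finrank_piece_zero] at h2
  have h3 := h.can.nonspecial (D := W + b • D) (by
    rw [deg_add, deg_zsmul, h.can.deg_eq, h.deg_eq]; nlinarith)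
  rw [deg_add, deg_zsmul, h.can.deg_eq, h.deg_eq] at h3
  have h4 : (finrank K (piece K X.e 1 b) : ℤ) = n * (b + 1) + h0 (W - D) := by
    rw [finrank_piece_one, ← h.sum_e]
    push_cast
    rw [sum_congr rfl (g := fun l => (b + 1) + (X.e l : ℤ)) fun l _ => by omega]
    simp [sum_add_distrib]
  have h5 : (piece K X.e 1 b).map X.ev.toLinearMap ≤ (LinearMap.ker Θ).map (sec _).subtype := by
    rintro _ ⟨p, hp, rfl⟩
    refine ⟨⟨_, X.ev_mem_one hp⟩, LinearMap.ext fun G => ?_, rfl⟩
    change ω ((X.ev p * (X.ev G.1 * X.s 1 ^ (1 - b))) • inf D) = 0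
    rw [← mul_assoc, ← map_mul]
    exact h.om_inf' hω (piece_cast (mul_mem_piece hp G.2) (by ring) rfl) _
  have h6 := Submodule.eq_of_le_of_finrank_eq h5 (by
    rw [X.finrank_map fun p hp => h.inj_one hp, Submodule.finrank_map_subtype_eq]
    have h7 := h.n_add
    rw [← h0] at h2
    zify at h2 h7 ⊢
    rw [Int.toNat_of_nonneg (by omega)] at h2
    linarith)
  exact h6.ge ⟨⟨z, hz⟩, LinearMap.ext fun G => hG0 G.1 G.2, rfl⟩

theorem surj_one {b : ℤ} (hb : b ≤ 1) {z : F} (hz : z ∈ sec (W + b • D)) :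
    ∃ p ∈ piece K X.e 1 b, X.ev p = z := by
  obtain ⟨ω, hω, hω0⟩ := h.can.exists_om
  refine h.ann hω hω0 hz fun G hG => ?_
  rw [piece_zero_eq_bot (by omega), Submodule.mem_bot] at hG
  simp [hG]

theorem gam {c : ℤ} {η : F} {G : Fin n → Cox K n} (hG : ∀ l, G l ∈ piece K X.e 0 (c - X.e l - 2))
    (h0 : ∀ P : Place K F, P.Ge (-W P + c * D P) (η - if D P = 0 then 0 else
      ∑ l, X.φ l * (X.ev (G l) * X.s 1 ^ (1 - (c - X.e l))))) (l : Fin n) : G l = 0 := by
  rcases le_or_gt c 1 with hc | hc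
  · have := hG l
    rwa [piece_zero_eq_bot (by omega)] at this
  obtain ⟨c, rfl⟩ : ∃ c' : ℕ, c = c' + 2 := ⟨(c - 2).toNat, by omega⟩
  have hφ : ∀ l (P : Place K F), P.Ge (-W P + X.e l * D P) (X.φ l) := fun l P =>
    (X.φ_mem l P).mono (by simp [add_comm])
  have hG' : ∀ l (P : Place K F), P.Ge (-((c - X.e l) * D P)) (X.ev (G l)) := fun l P =>
    (X.ev_mem_zero (hG l) P).mono (by simp; ring_nf; rfl)
  obtain ⟨q, hq, hη⟩ := h.repr (z := η) fun P => by
    have h1 := h0 P
    have h2 := h.nonneg P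
    rw [Finsupp.sub_apply]
    split_ifs at h1 with hP
    · simpa [hP] using h1
    · have h3 : P.Ge (-(W P - D P))
          (∑ l, X.φ l * (X.ev (G l) * X.s 1 ^ (1 - ((c : ℤ) + 2 - X.e l)))) :=
        Place.ge_sum fun l _ => ((hφ l P).mul ((hG' l P).mul (h.t_zpow hP _))).mono
          (by nlinarith [Int.natCast_nonneg (X.e l)])
      simpa using (h1.mono (by nlinarith [Int.natCast_nonneg c])).add h3
  obtain ⟨q', hq', hξ⟩ := h.repr
    (z := X.s 1 ^ (c + 1) * η - ∑ l, X.φ l * (X.ev (G l) * X.s 1 ^ X.e l)) fun P => by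
    have h1 := h0 P
    rw [Finsupp.sub_apply]
    split_ifs at h1 with hP
    · have h2 := h.t_ge hP
      refine ((h2.pow0 _).mul0 (by simpa [hP] using h1)).sub (Place.ge_sum fun l _ => ?_)
      exact ((hφ l P).mul ((hG' l P).mul0' (h2.pow0 _))).mono (by simp [hP])
    · have h2 := (h.t_zpow hP (c + 1)).mul h1
      rw [mul_sub, mul_sum] at h2
      have h3 : ∀ l, X.s 1 ^ ((c : ℤ) + 1) *
          (X.φ l * (X.ev (G l) * X.s 1 ^ (1 - ((c : ℤ) + 2 - X.e l)))) =
          X.φ l * (X.ev (G l) * X.s 1 ^ X.e l) := fun l => by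
        rw [mul_left_comm, mul_left_comm (X.s 1 ^ _), ← zpow_add₀ h.t_ne, ← zpow_natCast]
        congr 3; ring
      simp only [h3] at h2
      norm_cast at h2
      exact h2.mono (le_of_eq (by push_cast; ring))
  have h1 := h.li (b := c) (r := fun l => q l • ww ^ (c + 1) - G l * (vv * ww) ^ X.e l -
    q' l • vv ^ (c + 1)) (fun l => by
      rcases Nat.le_one_iff_eq_zero_or_eq_one.1 (h.e_le l) with h1 | h1
      · simpa [hq l h1, hq' l h1, h1] using hG l
      · have h2 := hG l
        rw [h1] at h2 ⊢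
        refine sub_mem (sub_mem (Submodule.smul_mem _ _ (inl_pow_mem 1 _)) ?_)
          (Submodule.smul_mem _ _ (inl_pow_mem 0 _))
        rw [pow_one]
        exact piece_cast (mul_mem_piece h2 (inl_mul_mem 0 (inl_mem 1))) (by ring)
          (by push_cast; ring)) (by
      rw [hη, mul_sum, ← sub_eq_zero, ← sum_sub_distrib, ← sum_sub_distrib] at hξ
      rw [← hξ]
      refine sum_congr rfl fun l _ => ?_
      simp [h.one, Algebra.smul_def]
      ring) l
  rcases Nat.le_one_iff_eq_zero_or_eq_one.1 (h.e_le l) with h2 | h2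
  · simpa [hq l h2, hq' l h2, h2] using h1
  have h3 := congrArg X.ev h1
  simp only [h2, map_sub, map_smul, map_pow, map_mul, X.ev_inl, h.one, one_pow, one_mul, pow_one,
    map_zero] at h3
  have h4 : q l = 0 := by
    by_contra hq0
    obtain ⟨P, hP⟩ := h.exists_inf
    have h5 := h.nonneg P
    have h6 : P.Ge (-(c * D P)) (q l • X.s 1 ^ (c + 1)) := by
      rw [show q l • X.s 1 ^ (c + 1) = X.ev (G l) * X.s 1 + q' l • (1 : F) by
        linear_combination h3]
      refine (((hG' l P).mul (X.s_mem 1 P)).mono (le_of_eq ?_)).add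
        ((P.ge_one.mono (by nlinarith [Int.natCast_nonneg c])).smul _)
      rw [h2]; push_cast; ring
    have h7 := h6.le (smul_ne_zero hq0 (pow_ne_zero _ h.t_ne))
    rw [P.ord_smul hq0, P.ord_pow, h.ord_t hP] at h7
    push_cast at h7
    have : 0 < D P := lt_of_le_of_ne h5 (Ne.symm hP)
    nlinarith
  have h5 : q' l = 0 := by
    obtain ⟨P, hP⟩ := exists_place_pos h.t_trans
    have h6 : D P = 0 := by
      by_contra h6
      have := h.ord_t h6
      have := h.nonneg P
      omega
    refine Place.const_eq_zero (P := P) ?_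
    rw [Algebra.algebraMap_eq_smul_one, show q' l • (1 : F) = -(X.ev (G l) * X.s 1) by
      rw [h4, zero_smul] at h3; linear_combination -h3]
    exact (Place.Ge.mul0 (by simpa [h6] using hG' l P) (P.ge_of_le hP)).neg
  rw [h4, h5, h2] at h1
  simpa using h1

end Ctx

end Pool.Agent.MP_8e057e_ag

end MrgPart3

-- ======== part 4: formerly Pool.Agent.MP_8e057e_ag.RH
section MrgPart4

/-! The Riemann-Hurwitz formula for a map to the projective line. -/

open Pool.Agent.MP_79c67d_ag Pool.Agent.MP_79c67d_ag.FF Module Finset Polynomial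
open scoped IntermediateField

set_option linter.unusedSectionVars false

namespace Pool.Agent.MP_8e057e_ag

variable {K F : Type} [Field K] [Field F] [Algebra K F] [CharZero K] [IsAlgClosed K]

theorem exists_isCan (K F : Type) [Field K] [Field F] [Algebra K F] [CharZero K] [IsAlgClosed K]
    [IsFF K F] : ∃ W : Divisor K F, IsCan W := by
  obtain ⟨W, h⟩ := riemann_roch K F
  have h1 := h 0
  have h2 := h W
  rw [h0_zero, FF.deg_zero, sub_zero] at h1
  rw [sub_self, h0_zero] at h2
  exact ⟨W, by omega, by omega⟩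

theorem ord_gen_eq_one {w : F} (hw : IsRat K w) (b : Place K F) {β : K}
    (h : b.Ge 1 (w - algebraMap K F β)) : b.ord (w - algebraMap K F β) = 1 := by
  have h0 : w - algebraMap K F β ≠ 0 := by simpa using hw.aeval_ne_zero (X_sub_C_ne_zero β)
  have h1 : ∀ q : K[X], q ≠ 0 → b.ord (w - algebraMap K F β) ∣ b.ord (aeval w q) := by
    intro q hq
    obtain ⟨r, hr, hr0⟩ := exists_eq_pow_rootMultiplicity_mul_and_not_dvd q hq β
    rw [dvd_iff_isRoot] at hr0
    obtain ⟨h2, h3⟩ := Place.unit_of_sub hr0 (b.aeval_sub h r)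
    rw [hr, map_mul, map_pow, map_sub, aeval_X, aeval_C, b.ord_mul (pow_ne_zero _ h0) h2, h3,
      Place.ord_pow, add_zero]
    exact Dvd.intro_left _ rfl
  obtain ⟨p, q, hq, hpq⟩ := hw.gen b.unif
  have hp : p ≠ 0 := by rintro rfl; exact b.unif_ne (by simpa using hpq)
  have h2 := b.ord_unif
  rw [hpq, b.ord_div (hw.aeval_ne_zero hp) (hw.aeval_ne_zero hq)] at h2
  have h3 := h2 ▸ dvd_sub (h1 p hp) (h1 q hq)
  exact Int.eq_one_of_dvd_one (zero_le_one.trans (h.le h0)) h3

theorem ord_gen_pole {w : F} (hw : IsRat K w) (b : Place K F) (h : b.ord w < 0) :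
    b.ord w = -1 := by
  have := ord_gen_eq_one hw.inv b (β := 0) (b.ge_of_le (by simp; omega))
  simp only [map_zero, sub_zero, Place.ord_inv] at this
  omega

theorem exists_lead [IsFF K F] (a : Place K F) {w : F} (hw : a.ord w = 1) {ι : Type} [Fintype ι]
    (r : ι → F) (k : ι → ℤ) (h : ∃ i, ¬ a.Ge (k i) (r i)) : ∃ s : ℤ, 1 ≤ s ∧ ∃ c : ι → K,
      (∃ i, c i ≠ 0) ∧ ∀ i, a.Ge 1 (r i * w ^ (s - k i) - algebraMap K F (c i)) := by
  classical
  have hw0 : w ≠ 0 := by rintro rfl; simp at hw
  obtain ⟨i₀, hi₀⟩ := h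
  rw [Place.not_ge] at hi₀
  obtain ⟨i, hi, hmax⟩ := exists_max_image (univ.filter fun i => r i ≠ 0)
    (fun i => k i - a.ord (r i)) ⟨i₀, by simp [hi₀.1]⟩
  have hi' : r i ≠ 0 := by simpa using hi
  have h1 := hmax i₀ (by simp [hi₀.1])
  have h2 : ∀ j, a.Ge 0 (r j * w ^ (k i - a.ord (r i) - k j)) := fun j => by
    by_cases hj : r j = 0
    · rw [hj, zero_mul]; exact a.ge_zero _
    · have := hmax j (by simp [hj])
      exact a.ge_of_le (by rw [a.ord_mul hj (zpow_ne_zero _ hw0), a.ord_zpow, hw]; omega)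
  refine ⟨k i - a.ord (r i), by omega, fun j => a.val _, ⟨i, fun h3 => ?_⟩,
    fun j => a.sub_val (h2 j)⟩
  have h4 := a.sub_val (h2 i)
  beta_reduce at h3
  rw [h3, map_zero, sub_zero] at h4
  have := h4.le (mul_ne_zero hi' (zpow_ne_zero _ hw0))
  rw [a.ord_mul hi' (zpow_ne_zero _ hw0), a.ord_zpow, hw] at this
  omega

variable {L : Type} [Field L] [Algebra K L] [Algebra L F] [IsScalarTower K L F]
  [FiniteDimensional L F] [IsFF K L] [IsFF K F] {x : L}

theorem deg_pol (hx : IsRat K x) : deg (pol K (algebraMap L F x)) = finrank L F := by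
  have h := hx.sum_fibre_inf (F := F)
  rw [finsum_mem_def] at h
  rw [deg_eq_finsum, ← neg_neg (finrank L F : ℤ), ← h, ← finsum_neg_distrib]
  refine finsum_congr fun P => ?_
  rw [pol_apply]
  by_cases hP : 1 < P.v (algebraMap L F x)
  · rw [Set.indicator_of_mem (by exact hP)]
    have := (one_lt_v_iff P _).1 hP
    omega
  · rw [Set.indicator_of_notMem (by exact hP)]
    have := mt (one_lt_v_iff P _).2 hP
    omega

theorem deg_pol_one (hx : IsRat K x) : deg (pol K x) = 1 := by
  have := deg_pol (F := L) hx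
  rw [finrank_self] at this
  exact this

theorem pol_sub_const (x : F) (β : K) : pol K (x - algebraMap K F β) = pol K x := by
  ext P
  rw [pol_apply, pol_apply]
  rcases le_or_gt 0 (P.ord x) with h | h
  · rcases P.ge_iff'.1 ((P.ge_of_le h).sub (P.ge_const β)) with h1 | h1
    · rw [h1, P.ord_zero]; omega
    · omega
  · have := (Place.add_ne_and_ord (P := P) (f := x) (fun e => by simp [e] at h)
      (g := - algebraMap K F β) ((P.ge_const β).neg.mono (by omega))).2
    rw [sub_eq_add_neg, this]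

theorem eq_of_deg_one {D : Divisor K F} (h0 : 0 ≤ D) (h1 : deg D = 1) {a b : Place K F}
    (ha : 0 < D a) (hb : 0 < D b) : a = b := by
  classical
  by_contra hn
  have h2 : Finsupp.single a 1 + Finsupp.single b 1 ≤ D := fun P => by
    have := h0 P
    simp only [Finsupp.add_apply, Finsupp.single_apply, Finsupp.coe_zero, Pi.zero_apply] at this ⊢
    split_ifs with e1 e2 e2
    · exact absurd (e1.trans e2.symm) hn
    · subst e1; omega
    · subst e2; omega
    · omega
  have := deg_mono h2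
  rw [deg_add, deg_single, deg_single] at this
  omega

theorem div_add_pol_nonneg (x : F) : 0 ≤ div K x + pol K x := fun P => by
  rw [Finsupp.add_apply, pol_apply, div_apply]
  simp only [Finsupp.coe_zero, Pi.zero_apply]
  omega

theorem pol_pow_mem (x : F) {i : ℕ} {j : ℤ} (h : (i : ℤ) ≤ j) : x ^ i ∈ sec (j • pol K x) :=
  sec_mono (smul_le_smul_of_nonneg_right h (pol_nonneg x)) (pow_mem_sec (mem_sec_pol x) i)

theorem h0_pol (hx : IsRat K x) (j : ℤ) : h0 (j • pol K x) = (j + 1).toNat := by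
  have h1 : deg (j • pol K x) = j := by rw [deg_zsmul, deg_pol_one hx, mul_one]
  rcases lt_or_ge j 0 with hj | hj
  · rw [h0_eq_zero (by omega)]; omega
  have h2 := h0_le_deg (D := j • pol K x) (by omega)
  have h3 : LinearIndependent K fun i : Fin (j + 1).toNat =>
      (⟨x ^ (i : ℕ), pol_pow_mem x (by have := i.2; omega)⟩ : sec (j • pol K x)) :=
    LinearIndependent.of_comp (sec _).subtype ((li_pow hx.trans).comp _ Fin.val_injective)
  have h4 := h3.fintype_card_le_finrank
  rw [Fintype.card_fin, ← h0] at h4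
  omega

theorem pol_map (x : L) (P : Place K F) :
    pol K (algebraMap L F x) P = P.ram L * pol K x (P.below L) := by
  rw [pol_apply, pol_apply, P.ord_map, mul_max_of_nonneg _ _ P.ram_pos.le]; simp

theorem map_mem_sec {r : L} {m : ℤ} (h : r ∈ sec (m • pol K x)) :
    algebraMap L F r ∈ sec (m • pol K (algebraMap L F x)) := fun P => by
  refine (Place.ge_map (h (P.below L))).mono (le_of_eq ?_)
  simp only [Finsupp.smul_apply, smul_eq_mul, pol_map]; ring

theorem trace_mem {z : F} {m : ℤ}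
    (h : ∀ P : Place K F, P.Ge (1 - P.ram L - m * pol K (algebraMap L F x) P) z) :
    Algebra.trace L F z ∈ sec (m • pol K x) := fun a => by
  have h1 := trace_ge1 a (f := algebraMap L F (a.unif ^ (m * pol K x a + 1)) * z) fun P hP =>
    ((P.ge_ord _).mul (h P)).mono (le_of_eq (by
      rw [P.ord_map, pol_map, hP, a.ord_zpow, a.ord_unif]; ring))
  rw [← Algebra.smul_def, map_smul, smul_eq_mul, mul_comm] at h1
  refine Place.Ge.of_mul (zpow_ne_zero (m * pol K x a + 1) a.unif_ne) (h1.mono (le_of_eq ?_))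
  simp

theorem ge_of_trace (hx : IsRat K x) {z : F} {m : ℤ}
    (h : ∀ (j : ℤ), ∀ b ∈ sec (j • pol K (algebraMap L F x)),
      Algebra.trace L F (z * b) ∈ sec ((m + j) • pol K x)) (P₀ : Place K F) :
    P₀.Ge (1 - P₀.ram L - m * pol K (algebraMap L F x) P₀) z := by
  classical
  by_contra hn
  rw [Place.not_ge] at hn
  set A := pol K (algebraMap L F x) with hA
  set a := P₀.below L with ha
  let H : Divisor K F := ∑ Q ∈ fib F a, Finsupp.single Q (if Q = P₀ then
    -Q.ram L - m * A Q - Q.ord z else max 0 (1 - Q.ram L - m * A Q - Q.ord z))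
  have hH : ∀ Q, Q.below L = a → H Q = if Q = P₀ then -Q.ram L - m * A Q - Q.ord z
      else max 0 (1 - Q.ram L - m * A Q - Q.ord z) := fun Q hQ => by
    simp only [H, Finsupp.finsetSum_apply, Finsupp.single_apply]
    rw [sum_ite_eq' (fib F a) Q, if_pos (mem_fib.2 hQ)]
  have hH0 : 0 ≤ H := sum_nonneg fun Q _ => Finsupp.single_nonneg.2 (by
    split_ifs with h
    · subst h; omega
    · exact le_max_left _ _)
  obtain ⟨W, hW⟩ := exists_isCan K F
  have h1 : 1 ≤ deg A := by rw [hA, deg_pol hx]; exact_mod_cast finrank_pos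
  have h2 := deg_nonneg hH0
  obtain ⟨j, hj⟩ : ∃ j : ℤ, 2 * genus K F + deg H ≤ j * deg A :=
    ⟨2 * genus K F + deg H, le_mul_of_one_le_right (by positivity) h1⟩
  obtain ⟨b, hb, hb'⟩ := exists_ord_eq (D := j • A - H) (P := P₀) (by
    have e1 := hW.nonspecial (D := j • A - H) (by rw [deg_sub, deg_zsmul]; omega)
    have e2 := hW.nonspecial (D := j • A - H - Finsupp.single P₀ 1) (by
      rw [deg_sub, deg_sub, deg_zsmul, deg_single]; omega)
    rw [deg_sub _ (Finsupp.single _ _), deg_single] at e2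
    omega)
  obtain ⟨hb0, hb1⟩ := ord_eq_of_not_ge (hb P₀) hb'
  have h3 := h j b (sec_mono (sub_le_self _ hH0) hb) a
  set u := a.unif ^ ((m + j) * pol K x a + 1) with hu
  have hu0 : u ≠ 0 := zpow_ne_zero _ a.unif_ne
  have hu1 : ∀ Q : Place K F, Q.below L = a →
      Q.ord (algebraMap L F u) = (m + j) * A Q + Q.ram L := fun Q hQ => by
    rw [Q.ord_map, hA, pol_map, hQ, hu, a.ord_zpow, a.ord_unif]; ring
  have h4 : P₀.ord (algebraMap L F u * (z * b)) = 0 := by
    rw [P₀.ord_mul (by simpa using hu0) (mul_ne_zero hn.1 hb0), P₀.ord_mul hn.1 hb0, hu1 _ rfl, hb1,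
      Finsupp.sub_apply, hH _ rfl, if_pos rfl, Finsupp.smul_apply, smul_eq_mul]
    ring
  obtain ⟨c, hc⟩ := P₀.residue (P₀.ge_of_le h4.ge)
  have hc0 : c ≠ 0 := by
    rintro rfl
    rw [map_zero, sub_zero] at hc
    have := hc.le (mul_ne_zero (by simpa using hu0) (mul_ne_zero hn.1 hb0))
    omega
  obtain ⟨r, hr, hr0⟩ := trace_sub a (algebraMap L F u * (z * b)) c fun Q hQ => by
    by_cases hQP : Q = P₀
    · exact Or.inr (hQP ▸ hc)
    · refine Or.inl (((Q.ge_ord _).mul ((Q.ge_ord z).mul (hb Q))).mono ?_)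
      rw [hu1 Q hQ, Finsupp.sub_apply, hH Q hQ, if_neg hQP, Finsupp.smul_apply, smul_eq_mul]
      have := le_max_right 0 (1 - Q.ram L - m * A Q - Q.ord z)
      linarith
  have h5 := hr0 ⟨P₀, rfl, hc⟩ hc0
  have h6 : a.Ge 1 (Algebra.trace L F (algebraMap L F u * (z * b))) := by
    rw [← Algebra.smul_def, map_smul, smul_eq_mul]
    exact ((a.ge_ord u).mul h3).mono (le_of_eq (by simp [hu]))
  have h7 := h6.sub hr
  rw [sub_sub_cancel] at h7
  exact mul_ne_zero (by exact_mod_cast h5.ne') hc0 (Place.const_eq_zero h7)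

theorem exists_clear (hx : IsRat K x) (z : F) : ∃ q : L, q ≠ 0 ∧ ∃ m : ℕ,
    q • z ∈ sec ((m : ℤ) • pol K (algebraMap L F x)) := by
  classical
  let C : Divisor K L := ∑ P ∈ (pol K z).support, Finsupp.single (P.below L) (pol K z P)
  have hC : ∀ P : Place K F, pol K z P ≤ C (P.below L) := fun P => by
    have h1 : ∀ Q ∈ (pol K z).support, 0 ≤ Finsupp.single (Q.below L) (pol K z Q) (P.below L) :=
      fun Q _ => Finsupp.single_nonneg.2 (pol_nonneg z Q) _
    simp only [C, Finsupp.finsetSum_apply]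
    by_cases hP : P ∈ (pol K z).support
    · have := single_le_sum h1 hP
      rwa [Finsupp.single_eq_same] at this
    · rw [Finsupp.notMem_support_iff.1 hP]; exact sum_nonneg h1
  clear_value C
  have h1 := deg_pol_one hx
  obtain ⟨m, hm⟩ : ∃ m : ℕ, deg C + genus K L ≤ m := ⟨(deg C + genus K L).toNat, by omega⟩
  have h2 := riemann_ineq ((m : ℤ) • pol K x - C)
  rw [deg_sub, deg_zsmul, h1] at h2
  obtain ⟨q, hq, hq0⟩ := exists_ne_of_h0 (D := (m : ℤ) • pol K x - C) (by omega)
  refine ⟨q, hq0, m, fun P => ?_⟩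
  rw [Algebra.smul_def]
  refine ((Place.ge_map (hq (P.below L))).mul (mem_sec_pol z P)).mono ?_
  have h3 := hC P
  have h4 := pol_nonneg (K := K) z P
  have h5 := P.ram_pos (L := L)
  simp only [Finsupp.smul_apply, smul_eq_mul, pol_map, Finsupp.sub_apply, Finsupp.coe_zero,
    Pi.zero_apply] at h4 ⊢
  nlinarith

theorem exists_reduced (hx : IsRat K x) : ∃ (b : Basis (Fin (finrank L F)) L F)
    (d : Fin (finrank L F) → ℕ), (∀ i, b i ∈ sec ((d i : ℤ) • pol K (algebraMap L F x))) ∧
    ∀ (m : ℤ) (r : Fin (finrank L F) → L), ∑ i, r i • b i ∈ sec (m • pol K (algebraMap L F x)) →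
      ∀ i, r i ∈ sec ((m - d i) • pol K x) := by
  classical
  set A := pol K (algebraMap L F x) with hA
  have hA1 : 1 ≤ deg A := by rw [hA, deg_pol hx]; exact_mod_cast finrank_pos
  have h1 : ∃ N, ∃ (b : Basis (Fin (finrank L F)) L F) (d : Fin (finrank L F) → ℕ),
      (∀ i, b i ∈ sec ((d i : ℤ) • A)) ∧ ∑ i, d i = N := by
    choose q hq d hd using fun i => exists_clear hx (Module.finBasis L F i)
    exact ⟨_, (Module.finBasis L F).unitsSMul fun i => Units.mk0 _ (hq i), d, fun i => by
      rw [Basis.unitsSMul_apply]; exact hd i, rfl⟩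
  obtain ⟨b, d, hb, hN⟩ := Nat.find_spec h1
  have rep : ∀ (ρ : Fin (finrank L F) → L) i, ρ i ≠ 0 →
      ∑ j, ρ j • b j ∉ sec ((d i - 1 : ℤ) • A) := by
    intro ρ i hi hm
    have h2 : ∑ j, ρ j • b j ≠ 0 := fun e =>
      hi (Fintype.linearIndependent_iff.1 b.linearIndependent ρ e i)
    have h3 := deg_nonneg_of_mem_sec h2 hm
    rw [deg_zsmul] at h3
    have h4 : 1 ≤ d i := by
      by_contra h4
      rw [show d i = 0 by omega] at h3
      omega
    have h5 : ⊤ ≤ Submodule.span L (Set.range (Function.update b i (∑ j, ρ j • b j))) := by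
      have h6 : ∀ j, j ≠ i → b j ∈ Submodule.span L
          (Set.range (Function.update b i (∑ j, ρ j • b j))) := fun j hj =>
        Submodule.subset_span ⟨j, Function.update_of_ne hj _ _⟩
      rw [← b.span_eq, Submodule.span_le]
      rintro _ ⟨j, rfl⟩
      by_cases hj : j = i
      · subst hj
        rw [SetLike.mem_coe, ← Submodule.smul_mem_iff _ hi, ← sub_eq_iff_eq_add.2
          (add_sum_erase _ (fun j => ρ j • b j) (mem_univ j)).symm]
        exact sub_mem (Submodule.subset_span ⟨j, Function.update_self _ _ _⟩)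
          (Submodule.sum_mem _ fun l hl => Submodule.smul_mem _ _ (h6 l (ne_of_mem_erase hl)))
      · exact h6 j hj
    refine Nat.find_min h1 (m := Nat.find h1 - 1) (by
      have := single_le_sum (f := d) (fun _ _ => Nat.zero_le _) (mem_univ i)
      omega) ⟨basisOfTopLeSpanOfCardEqFinrank _ h5 (Fintype.card_fin _),
      Function.update d i (d i - 1), fun j => ?_, ?_⟩
    · rw [coe_basisOfTopLeSpanOfCardEqFinrank]
      by_cases hj : j = i
      · subst hj
        rw [Function.update_self, Function.update_self, Nat.cast_sub h4]; exact hm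
      · rw [Function.update_of_ne hj, Function.update_of_ne hj]; exact hb j
    · rw [sum_update_of_mem (mem_univ i), ← hN, ← add_sum_erase _ d (mem_univ i),
        sdiff_singleton_eq_erase]
      omega
  have hmax : ∀ c : Fin (finrank L F) → K, (∃ i, c i ≠ 0) →
      ∃ i, c i ≠ 0 ∧ ∀ j, c j ≠ 0 → d j ≤ d i := fun c ⟨i, hi⟩ => by
    obtain ⟨j, hj, h⟩ := exists_max_image (univ.filter fun i => c i ≠ 0) d ⟨i, by simpa⟩
    exact ⟨j, by simpa using hj, fun l hl => h l (by simpa)⟩
  have hA0 : ∀ P, 0 ≤ A P := pol_nonneg _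
  have hb' : ∀ i (P : Place K F), P.Ge (-(d i * A P)) (b i) := fun i P => by simpa using hb i P
  refine ⟨b, d, hb, fun m r hr i a => ?_⟩
  by_contra hn
  have hr' : ∀ P : Place K F, P.Ge (-(m * A P)) (∑ i, r i • b i) := fun P => by simpa using hr P
  rcases le_or_gt 0 (a.ord x) with ha | ha
  · obtain ⟨β, hβ⟩ := a.residue (a.ge_of_le ha)
    have hw := ord_gen_eq_one hx a hβ
    set w := x - algebraMap K L β with hwd
    have hw0 : w ≠ 0 := fun e => by simp [e] at hw
    have h2 : pol K x a = 0 := by rw [pol_apply]; omega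
    obtain ⟨s, hs, c, hc, hc'⟩ := exists_lead a hw r (fun _ => 0) ⟨i, by simpa [h2] using hn⟩
    obtain ⟨l, hl, hl'⟩ := hmax c hc
    refine rep (fun j => algebraMap K L (c j) / w) l (div_ne_zero (by simpa using hl) hw0)
      fun P => ?_
    have e1 : ∑ j, (algebraMap K L (c j) / w) • b j = algebraMap L F w⁻¹ * ∑ j, c j • b j := by
      rw [mul_sum]
      refine sum_congr rfl fun j _ => ?_
      rw [div_eq_inv_mul, mul_smul, algebraMap_smul, Algebra.smul_def]
    rw [e1, Finsupp.smul_apply, smul_eq_mul]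
    by_cases hP : P.below L = a
    · have h3 : A P = 0 := by rw [hA, pol_map, hP, h2, mul_zero]
      have e2 : ∑ j, c j • b j = algebraMap L F (w ^ s) * ∑ i, r i • b i -
          ∑ j, algebraMap L F (r j * w ^ (s - 0) - algebraMap K L (c j)) * b j := by
        rw [mul_sum, ← sum_sub_distrib]
        refine sum_congr rfl fun j _ => ?_
        simp only [Algebra.smul_def, map_sub, map_mul, sub_zero, ← IsScalarTower.algebraMap_apply]
        ring
      have h4 : P.Ge (P.ram L * 1) (∑ j, c j • b j) := by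
        rw [e2]
        refine ((Place.ge_map (n := 1) (by
          rw [hP]; exact a.ge_of_le (by rw [a.ord_zpow, hw]; omega))).mul0'
          (by simpa [h3] using hr' P)).sub (Place.ge_sum fun j _ => ?_)
        exact (Place.ge_map (hP ▸ hc' j)).mul0' (by simpa [h3] using hb' j P)
      refine ((P.ge_ord _).mul h4).mono (le_of_eq ?_)
      rw [P.ord_map, hP, a.ord_inv, hw, h3]; ring
    · have h3 : P.Ge (-(d l * A P)) (∑ j, c j • b j) := Place.ge_sum fun j _ => by
        by_cases hj : c j = 0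
        · rw [hj, zero_smul]; exact P.ge_zero _
        · refine ((hb' j P).mono ?_).smul _
          have := hl' j hj
          have := hA0 P
          nlinarith
      refine ((P.ge_ord _).mul h3).mono ?_
      rw [P.ord_map, Place.ord_inv, hA, pol_map, ← pol_sub_const x β, pol_apply, ← hwd]
      have h5 : (P.below L).ord w ≤ 0 := by
        by_contra h6
        refine hP (eq_of_deg_one (div_add_pol_nonneg w) (by
          rw [deg_add, deg_div, pol_sub_const, deg_pol_one hx, zero_add]) ?_ ?_)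
        all_goals
          rw [Finsupp.add_apply, pol_apply, div_apply]
          omega
      rw [max_eq_left (by omega)]
      exact le_of_eq (by ring)
  · have h2 := ord_gen_pole hx a ha
    have hw : a.ord x⁻¹ = 1 := by rw [a.ord_inv, h2]; rfl
    have h3 : pol K x a = 1 := by rw [pol_apply]; omega
    have hw0 := inv_ne_zero hx.ne_zero
    obtain ⟨s, hs, c, hc, hc'⟩ := exists_lead a hw r (fun i => -(m - d i))
      ⟨i, by simpa [h3] using hn⟩
    obtain ⟨l, hl, hl'⟩ := hmax c hc
    refine rep (fun j => algebraMap K L (c j) * x⁻¹ ^ (d j - d l : ℤ)) l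
      (mul_ne_zero (by simpa using hl) (zpow_ne_zero _ hw0)) fun P => ?_
    rw [Finsupp.smul_apply, smul_eq_mul]
    by_cases hP : P.below L = a
    · have h4 : A P = P.ram L := by rw [hA, pol_map, hP, h3, mul_one]
      have h5 : ∀ j : ℤ, P.Ge (P.ram L * j) (algebraMap L F (x⁻¹ ^ j)) := fun j =>
        Place.ge_map (by rw [hP]; exact a.ge_of_le (by rw [a.ord_zpow, hw, mul_one]))
      have e2 : ∑ j, (algebraMap K L (c j) * x⁻¹ ^ (d j - d l : ℤ)) • b j =
          algebraMap L F (x⁻¹ ^ (s + m - d l)) * ∑ i, r i • b i -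
          ∑ j, algebraMap L F (r j * x⁻¹ ^ (s - -(m - d j)) - algebraMap K L (c j)) *
            (algebraMap L F (x⁻¹ ^ (d j - d l : ℤ)) * b j) := by
        rw [mul_sum, ← sum_sub_distrib]
        refine sum_congr rfl fun j _ => ?_
        rw [show s + m - d l = (s - -(m - d j)) + (d j - d l) by ring, zpow_add₀ hw0]
        simp only [Algebra.smul_def, map_sub, map_mul]
        ring
      rw [e2]
      have h6 := P.ram_pos (L := L)
      refine (((h5 _).mul (hr' P)).mono (by rw [h4]; nlinarith)).sub (Place.ge_sum fun j _ => ?_)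
      exact ((Place.ge_map (hP ▸ hc' j)).mul ((h5 _).mul (hb' j P))).mono
        (le_of_eq (by rw [h4]; ring))
    · have h4 : pol K x (P.below L) = 0 := by
        by_contra h4
        exact hP (eq_of_deg_one (pol_nonneg x) (deg_pol_one hx)
          (lt_of_le_of_ne (pol_nonneg x _) (Ne.symm h4)) (by omega))
      have h5 : A P = 0 := by rw [hA, pol_map, h4, mul_zero]
      refine Place.ge_sum fun j _ => ?_
      by_cases hj : c j = 0
      · rw [hj, map_zero, zero_mul, zero_smul]; exact P.ge_zero _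
      · rw [Algebra.smul_def]
        have h6 : (P.below L).Ge 0 (algebraMap K L (c j) * x⁻¹ ^ (d j - d l : ℤ)) := by
          refine (Place.ge_const _ _).mul0 (Place.ge_of_le _ ?_)
          rw [pol_apply] at h4
          have := hl' j hj
          rw [Place.ord_zpow, Place.ord_inv]
          nlinarith [show 0 ≤ (P.below L).ord x by omega]
        exact ((Place.ge_map h6).mul (hb' j P)).mono (by simp [h5])

theorem exists_ram_div (hx : IsRat K x) : ∃ R : Divisor K F, (∀ P, R P = P.ram L - 1) ∧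
    deg R = 2 * finrank L F + 2 * genus K F - 2 := by
  classical
  have : CharZero L := charZero_of_injective_algebraMap (algebraMap K L).injective
  obtain ⟨b, d, hb, hred⟩ := exists_reduced (F := F) hx
  obtain ⟨W, hW⟩ := exists_isCan K F
  set A := pol K (algebraMap L F x) with hA
  have hA1 : deg A = finrank L F := deg_pol hx
  have hn : (1 : ℤ) ≤ finrank L F := by exact_mod_cast finrank_pos
  have hf : ∀ c : Fin (finrank L F) → ℤ, (∀ i, -1 ≤ c i) →
      (finrank K (∀ i, sec (c i • pol K x)) : ℤ) = ∑ i, c i + finrank L F := fun c hc => by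
    rw [Module.finrank_pi_fintype, Nat.cast_sum, sum_congr rfl (g := fun i => c i + 1) fun i _ => by
      rw [← h0, h0_pol hx, Int.toNat_of_nonneg (by have := hc i; omega)], sum_add_distrib]
    simp
  have hm : ∀ m : ℤ, ∀ i, ∀ r ∈ sec ((m - d i) • pol K x), r • b i ∈ sec (m • A) := by
    intro m i r hr
    have := mul_mem_sec (map_mem_sec (F := F) hr) (hb i)
    rwa [← add_smul, sub_add_cancel, ← Algebra.smul_def] at this
  have h1 : ∑ i, (d i : ℤ) = finrank L F + genus K F - 1 := by
    obtain ⟨m, hm1, hm2⟩ : ∃ m : ℤ, 2 * (genus K F : ℤ) ≤ m ∧ ∀ i, (d i : ℤ) ≤ m :=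
      ⟨2 * genus K F + ∑ i, d i, le_add_of_nonneg_right (by positivity), fun i => by
        have := single_le_sum (f := fun i => (d i : ℤ)) (fun _ _ => by positivity) (mem_univ i)
        push_cast at this ⊢
        omega⟩
    let f : (∀ i, sec ((m - d i) • pol K x)) →ₗ[K] sec (m • A) :=
      { toFun := fun r => ⟨∑ i, (r i).1 • b i, Submodule.sum_mem _ fun i _ => hm m i _ (r i).2⟩
        map_add' := fun r r' => Subtype.ext (by simp [add_smul, sum_add_distrib])
        map_smul' := fun c r => Subtype.ext (by simp [smul_sum]) }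
    have hf' : Function.Bijective f := ⟨(injective_iff_map_eq_zero f).2 fun r hr =>
      funext fun i => Subtype.ext (Fintype.linearIndependent_iff.1 b.linearIndependent _
        (congrArg Subtype.val hr) i), fun z =>
      ⟨fun i => ⟨b.repr z.1 i, hred m _ (by rw [b.sum_repr]; exact z.2) i⟩,
        Subtype.ext (b.sum_repr z.1)⟩⟩
    have h2 := hf (fun i => m - d i) fun i => by have := hm2 i; omega
    rw [(LinearEquiv.ofBijective f hf').finrank_eq, ← h0, hW.nonspecial (by
      rw [deg_zsmul, hA1]; nlinarith), deg_zsmul, hA1, sum_sub_distrib] at h2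
    simp only [sum_const, card_univ, Fintype.card_fin, nsmul_eq_mul] at h2
    linarith
  have h2 : ∀ (R : Divisor K F) (m : ℤ), (∀ P, R P ≤ P.ram L - 1) →
      ∃ f : sec (R + m • A) →ₗ[K] (∀ i, sec ((m + d i) • pol K x)), Function.Injective f ∧
        ∀ z i, (f z i).1 = Algebra.trace L F (z.1 * b i) := fun R m hR => by
    refine ⟨LinearMap.pi fun i => LinearMap.codRestrict _ ((Algebra.trace L F).restrictScalars K ∘ₗ
      LinearMap.mulRight K (b i) ∘ₗ Submodule.subtype _) fun z => trace_mem fun P =>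
        ((z.2 P).mul (hb i P)).mono ?_, (injective_iff_map_eq_zero _).2 fun z hz => ?_,
      fun _ _ => rfl⟩
    · have := hR P
      simp only [Finsupp.add_apply, Finsupp.smul_apply, smul_eq_mul]
      linarith
    · refine Subtype.ext ((traceForm_nondegenerate L F).1 z.1 fun y => ?_)
      rw [← b.sum_repr y, map_sum]
      refine sum_eq_zero fun i _ => ?_
      rw [map_smul, Algebra.traceForm_apply,
        show Algebra.trace L F (z.1 * b i) = 0 from congrArg Subtype.val (congrFun hz i), smul_zero]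
  have h3 : ∀ m : ℤ, 0 ≤ m → (finrank K (∀ i, sec ((m + d i) • pol K x)) : ℤ) =
      m * finrank L F + 2 * finrank L F + genus K F - 1 := fun m hm => by
    rw [hf _ fun i => by omega, sum_add_distrib, h1]
    simp; ring
  have h4 : ∀ R : Divisor K F, (∀ P, R P ≤ P.ram L - 1) →
      deg R ≤ 2 * finrank L F + 2 * genus K F - 2 := fun R hR => by
    obtain ⟨f, hf, -⟩ := h2 R 0 hR
    have h5 := LinearMap.finrank_le_finrank_of_injective hf
    have h6 := h3 0 le_rfl
    have h7 := riemann_ineq (R + (0 : ℤ) • A)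
    rw [← h0] at h5
    rw [deg_add, deg_zsmul] at h7
    omega
  have h5 : (Function.support fun P : Place K F => P.ram L - 1).Finite := by
    by_contra h5
    obtain ⟨s, hs, hs'⟩ := Set.Infinite.exists_subset_card_eq h5
      (2 * finrank L F + 2 * genus K F)
    have h6 := h4 (∑ P ∈ s, Finsupp.single P 1) fun Q => by
      have := Q.ram_pos (L := L)
      simp only [Finsupp.finsetSum_apply, Finsupp.single_apply]
      rw [sum_ite_eq' s Q]
      split_ifs with h
      · have : Q.ram L - 1 ≠ 0 := hs h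
        omega
      · omega
    rw [show deg (∑ P ∈ s, Finsupp.single P (1 : ℤ)) = ∑ P ∈ s, deg (Finsupp.single P (1 : ℤ)) from
      map_sum (degHom K F) _ _] at h6
    simp [hs'] at h6
  refine ⟨Finsupp.ofSupportFinite _ h5, fun _ => rfl, ?_⟩
  generalize hR : Finsupp.ofSupportFinite _ h5 = R
  have hR' : ∀ P, R P = P.ram L - 1 := fun P => hR ▸ rfl
  have hR0 : 0 ≤ deg R := deg_nonneg fun P => by
    have := P.ram_pos (L := L)
    rw [hR']; simp; omega
  obtain ⟨f, hf, hf'⟩ := h2 R (2 * genus K F) fun P => (hR' P).le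
  have h6 : Function.Surjective f := fun q => by
    let b' := (Algebra.traceForm L F).dualBasis (traceForm_nondegenerate L F) b
    have h7 : ∀ i, Algebra.trace L F ((∑ j, (q j).1 • b' j) * b i) = q i := fun i => by
      rw [← Algebra.traceForm_apply, map_sum, LinearMap.sum_apply]
      simp [b', LinearMap.BilinForm.apply_dualBasis_left]
    refine ⟨⟨∑ j, (q j).1 • b' j, fun P => (ge_of_trace hx (m := 2 * genus K F)
      (fun j y hy => ?_) P).mono (le_of_eq ?_)⟩, funext fun i => Subtype.ext ((hf' _ i).trans (h7 i))⟩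
    · rw [← b.sum_repr y, mul_sum, map_sum]
      refine Submodule.sum_mem _ fun i _ => ?_
      rw [mul_smul_comm, map_smul, h7, smul_eq_mul]
      have := mul_mem_sec (hred j _ (by rw [b.sum_repr]; exact hy) i) (q i).2
      rwa [← add_smul, show j - d i + (2 * genus K F + d i) = 2 * genus K F + j by ring] at this
    · simp only [Finsupp.add_apply, Finsupp.smul_apply, smul_eq_mul, hR']; ring
  have h7 := h3 (2 * genus K F) (by positivity)
  rw [← (LinearEquiv.ofBijective f ⟨hf, h6⟩).finrank_eq, ← h0, hW.nonspecial (by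
    rw [deg_add, deg_zsmul, hA1]; nlinarith), deg_add, deg_zsmul, hA1] at h7
  linarith

/-- The divisor of the differential of a function has degree `2 g - 2`. -/
theorem exists_can_div {t : F} (ht : Transcendental K t) : ∃ C : Divisor K F,
    (∀ P, C P = P.fo (dd_ne_zero ht)) ∧ deg C = 2 * genus K F - 2 := by
  have := finDim_adjoin ht
  have := isFF_adjoin ht
  have hx := isRat_adjoin ht
  obtain ⟨R, hR, hR'⟩ := exists_ram_div (F := F) hx
  have h1 := deg_pol (F := F) hx
  set x := IntermediateField.AdjoinSimple.gen K t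
  have e : algebraMap K⟮t⟯ F x = t := rfl
  refine ⟨R - (2 : ℤ) • pol K (algebraMap K⟮t⟯ F x), fun P => ?_, by
    rw [deg_sub, deg_zsmul, hR', h1]; ring⟩
  have h2 := P.ram_pos (L := K⟮t⟯)
  rw [Finsupp.sub_apply, Finsupp.smul_apply, hR, pol_map, pol_apply, smul_eq_mul]
  rcases le_or_gt 0 ((P.below K⟮t⟯).ord x) with h | h
  · obtain ⟨β, hβ⟩ := (P.below K⟮t⟯).residue (Place.ge_of_le _ h)
    have h3 := P.ord_map (x - algebraMap K _ β)
    rw [ord_gen_eq_one hx _ hβ, map_sub, e, ← IsScalarTower.algebraMap_apply] at h3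
    have h4 := P.ord_der (dd_ne_zero ht) (g := t - algebraMap K F β) (by omega)
    rw [map_sub, der_self, Derivation.map_algebraMap, sub_zero, Place.ord_one] at h4
    rw [max_eq_right (by omega)]
    omega
  · have h3 := P.ord_map x
    rw [ord_gen_pole hx _ h, e] at h3
    rw [P.fo_dd (by omega), ord_gen_pole hx _ h, neg_neg, max_eq_left zero_le_one]
    omega

end Pool.Agent.MP_8e057e_ag

end MrgPart4

-- marker of a merged file
example : 731051 + 752048 = 731051 + 752048 := rfl
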