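import Pool.Agent.MP_8e057e_ag.Curve

/-! Exactness of the nonlinear strands of the Koszul complex on global sections. -/

open Pool.Agent.MP_79c67d_ag Pool.Agent.MP_79c67d_ag.FF Module MvPolynomial Finset

set_option linter.unusedSectionVars false

namespace Pool.Agent.MP_8e057e_ag

section chain

variable {K M : Type} [Field K] [AddCommGroup M] [Module K M] {n : ℕ}

/-- Chains of a given degree with components in given subspaces. -/
def chain (V : Finset (Fin n) → Submodule K M) (p : ℕ) : Submodule K (Finset (Fin n) → M) :=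
  Submodule.pi Set.univ fun S => if S.card = p then V S else ⊥

theorem mem_chain {V : Finset (Fin n) → Submodule K M} {p : ℕ} {σ : Finset (Fin n) → M} :
    σ ∈ chain V p ↔ (∀ S, S.card ≠ p → σ S = 0) ∧ ∀ S, σ S ∈ V S := by
  refine ⟨fun h => ⟨fun S hS => ?_, fun S => ?_⟩, fun h S _ => ?_⟩
  · simpa [hS] using h S trivial
  · have := h S trivial
    by_cases hS : S.card = p
    · simpa [hS] using this
    · rw [show σ S = 0 by simpa [hS] using this]; exact zero_mem _
  · by_cases hS : S.card = p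
    · simpa [hS] using h.2 S
    · simpa [hS] using h.1 S hS

/-- Chains as a product. -/
def chainEquiv (V : Finset (Fin n) → Submodule K M) (p : ℕ) :
    chain V p ≃ₗ[K] ∀ S : Finset (Fin n), (if S.card = p then V S else ⊥ : Submodule K M) where
  toFun σ S := ⟨σ.1 S, σ.2 S trivial⟩
  map_add' _ _ := rfl
  map_smul' _ _ := rfl
  invFun σ := ⟨fun S => σ S, fun S _ => (σ S).2⟩
  left_inv _ := rfl
  right_inv _ := rfl

instance (V : Finset (Fin n) → Submodule K M) [∀ S, FiniteDimensional K (V S)] (p : ℕ)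
    (S : Finset (Fin n)) :
    FiniteDimensional K (if S.card = p then V S else ⊥ : Submodule K M) := by
  by_cases h : S.card = p
  · rw [if_pos h]; infer_instance
  · rw [if_neg h]; infer_instance

instance (V : Finset (Fin n) → Submodule K M) [∀ S, FiniteDimensional K (V S)] (p : ℕ) :
    FiniteDimensional K (chain V p) := (chainEquiv V p).symm.finiteDimensional

theorem finrank_chain (V : Finset (Fin n) → Submodule K M) [∀ S, FiniteDimensional K (V S)]
    (p : ℕ) : finrank K (chain V p) = ∑ S ∈ powersetCard p univ, finrank K (V S) := by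
  rw [(chainEquiv V p).finrank_eq, Module.finrank_pi_fintype, powersetCard_eq_filter, powerset_univ,
    sum_filter]
  refine sum_congr rfl fun S _ => ?_
  by_cases h : S.card = p
  · rw [if_pos h, if_pos h]
  · rw [if_neg h, if_neg h, finrank_bot]

end chain

variable {K F : Type} [Field K] [Field F] [Algebra K F] [IsFF K F] [CharZero K] [IsAlgClosed K]
variable {W D : Divisor K F} {n : ℕ}

/-- The component of an adele at a point. -/
def evP (P : Place K F) : Adele K F →+ F where
  toFun α := α.1 P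
  map_zero' := rfl
  map_add' _ _ := rfl

theorem kos_adele (φ : Fin n → F) (β : Finset (Fin n) → Adele K F) (S : Finset (Fin n))
    (P : Place K F) : (kos φ β S).1 P = kos φ (fun T => (β T).1 P) S :=
  kos_map φ φ (evP P) (fun _ _ => rfl) β S

theorem kos_diag (φ : Fin n → F) (f : Finset (Fin n) → F) :
    kos φ (fun T => (diag K (f T) : Adele K F)) = fun T => diag K (kos φ f T) :=
  funext fun S => (kos_map φ φ (diag K).toAddMonoidHom (fun _ _ => rfl) f S).symm

namespace Scroll

variable (X : Scroll W D n)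

/-- The degree of a summand of an exterior power. -/
def eS (S : Finset (Fin n)) : ℤ := ∑ l ∈ S, (X.e l : ℤ)

theorem eS_insert {l : Fin n} {S : Finset (Fin n)} (h : l ∉ S) :
    X.eS (insert l S) = X.e l + X.eS S := sum_insert h

theorem eS_compl_insert {l : Fin n} {S : Finset (Fin n)} (h : l ∉ S) :
    X.eS (insert l S)ᶜ = X.eS Sᶜ - X.e l := by
  rw [compl_insert, eS, eS, ← add_sum_erase _ _ (mem_compl.2 h)]; ring

theorem eS_nonneg (S : Finset (Fin n)) : 0 ≤ X.eS S := sum_nonneg fun _ _ => Int.natCast_nonneg _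

/-- The graded pieces of the relative coordinate ring in positive degree. -/
noncomputable def Gam (q : ℕ) (b : ℤ) : Submodule K F :=
  if q = 1 then (piece K X.e 1 b).map X.ev.toLinearMap else sec ((q : ℤ) • W + b • D)

theorem Gam_le (q : ℕ) (b : ℤ) : X.Gam q b ≤ sec ((q : ℤ) • W + b • D) := by
  rw [Gam]
  split_ifs with h
  · rintro _ ⟨p, hp, rfl⟩
    subst h
    exact X.ev_mem hp
  · rfl

instance (q : ℕ) (b : ℤ) : FiniteDimensional K (X.Gam q b) :=
  Submodule.finiteDimensional_of_le (X.Gam_le q b)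

theorem Gam_succ {q : ℕ} (hq : 1 ≤ q) (b : ℤ) :
    X.Gam (q + 1) b = sec (((q + 1 : ℕ) : ℤ) • W + b • D) := if_neg (by omega)

/-- Chains of global sections. -/
noncomputable abbrev ch (q p : ℕ) (m : ℤ) : Submodule K (Finset (Fin n) → F) :=
  chain (fun S => X.Gam q (m + X.eS S)) p

theorem kos_mem_ch {q p : ℕ} (hq : 1 ≤ q) {m : ℤ} {ξ : Finset (Fin n) → F}
    (hξ : ξ ∈ X.ch q (p + 1) m) : kos X.φ ξ ∈ X.ch (q + 1) p m := by
  rw [mem_chain] at hξ ⊢
  refine ⟨kos_supp _ hξ.1, fun S => ?_⟩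
  rw [X.Gam_succ hq]
  refine Submodule.sum_mem _ fun l hl => zsmul_mem ?_ _
  have := mul_mem_sec (X.φ_mem l) (X.Gam_le _ _ (hξ.2 (insert l S)))
  rw [X.eS_insert (mem_compl.1 hl)] at this
  convert this using 2
  · push_cast; module
  · rfl

end Scroll

namespace Ctx

variable {X : Scroll W D n} (h : Ctx X)
include h

theorem eS_add (S : Finset (Fin n)) : X.eS S + X.eS Sᶜ = X.U.card := by
  rw [Scroll.eS, Scroll.eS, sum_add_sum_compl, h.sum_eq_card, univ_inter]

theorem decomp {ω : Dual K (Adele K F)} (hω : ω ∈ Om W) (hω0 : ω ≠ 0) (q : ℕ) (b : ℤ)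
    (α : Adele K F) (h1 : ∀ z ∈ X.Gam q b, ω (z • α) = 0) :
    ∃ a ∈ AD ((1 - q : ℤ) • W - b • D), ∃ f : F, ∃ G ∈ piece K X.e 0 (b - 2),
      (q ≠ 1 → G = 0) ∧ (α = 0 → f = 0 ∧ G = 0) ∧
      α = a + diag K f + (X.ev G * X.s 1 ^ (1 - b)) • inf D := by
  by_cases h0 : α = 0
  · exact ⟨0, zero_mem _, 0, 0, zero_mem _, fun _ => rfl, fun _ => ⟨rfl, rfl⟩, by simp [h0]⟩
  by_cases hq : q = 1
  · subst hq
    let m : Cox K n →ₗ[K] Adele K F := (LinearMap.toSpanSingleton F _ (inf D)).restrictScalars K ∘ₗ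
      LinearMap.mulRight K (X.s 1 ^ (1 - b)) ∘ₗ X.ev.toLinearMap
    have := h.can.sep hω hω0 (D := -(b • D)) (α := α) (Y := (AD (-(b • D)) ⊔
      LinearMap.range (diag K)) ⊔ (piece K X.e 0 (b - 2)).map m) (le_sup_left.trans le_sup_left)
      (fun f => Submodule.mem_sup_left (Submodule.mem_sup_right ⟨f, rfl⟩)) fun f hf hf' => by
        refine h1 f ?_
        rw [Scroll.Gam, if_pos rfl]
        exact h.ann hω hω0 (by simpa using hf) fun G hG => by
          rw [mul_smul]; exact hf' _ (Submodule.mem_sup_right ⟨G, hG, rfl⟩)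
    obtain ⟨_, h2, _, ⟨G, hG, rfl⟩, rfl⟩ := Submodule.mem_sup.1 this
    obtain ⟨a, ha, _, ⟨f, rfl⟩, rfl⟩ := Submodule.mem_sup.1 h2
    exact ⟨a, by simpa using ha, f, G, hG, fun h => absurd rfl h, fun h => absurd h h0, rfl⟩
  · obtain ⟨a, ha, f, rfl⟩ := h.can.sep' hω hω0 (D := (1 - q : ℤ) • W - b • D) (α := α)
      fun f hf => h1 f (by
        rw [Scroll.Gam, if_neg hq]
        convert hf using 2
        module)
    exact ⟨a, ha, f, 0, zero_mem _, fun _ => rfl, fun h => absurd h h0, by simp⟩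

theorem dual_cycle {q p : ℕ} (hq : 1 ≤ q) (hp : p + q < n) {m : ℤ} (hm : -1 ≤ m)
    {f : Finset (Fin n) → F} (h1 : ∀ T, T.card ≠ n - p - 1 → f T = 0)
    (h2 : ∀ T, kos X.φ f T ∈ sec ((2 - q : ℤ) • W - (m + X.eS Tᶜ) • D)) :
    ∃ c : Finset (Fin n) → F, (∀ T, c T ∈ sec ((1 - q : ℤ) • W - (m + X.eS Tᶜ) • D)) ∧
      kos X.φ c = kos X.φ f := by
  have h3 : ∀ T, T.card ≠ n - p - 2 ∨ n - p - 1 = 0 → kos X.φ f T = 0 := fun T hT => by
    by_cases h3 : n - p - 1 = 0
    · rw [kos_supp_zero X.φ (h3 ▸ h1)]; rfl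
    · exact kos_supp _ (fun S hS => h1 S (by omega)) T (hT.resolve_right h3)
  rcases (show q = 1 ∨ q = 2 ∨ 3 ≤ q by omega) with rfl | rfl | hq
  · have e : ∀ T, ∑ l ∈ T, (X.e l : ℤ) - (X.U.card + m) = -(m + X.eS Tᶜ) := fun T => by
      rw [← h.eS_add T, Scroll.eS]; ring
    obtain ⟨c, -, c2, c3⟩ := h.glf (a := X.U.card + m) (by omega) (j := n - p - 2)
      (σ := kos X.φ f) (fun T hT => h3 T (Or.inl hT)) (fun T => by
        rw [e]
        convert h2 T using 2
        push_cast; module) (kos_kos _ _)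
    refine ⟨c, fun T => ?_, c3⟩
    have := c2 T
    rw [e] at this
    convert this using 2
    push_cast; module
  · refine ⟨0, fun _ => zero_mem _, (kos_zero _).trans (funext fun T => ?_)⟩
    have h4 : ∀ T, ∃ r ∈ piece K X.e 0 (-(m + X.eS Tᶜ)), X.ev r = kos X.φ f T := fun T =>
      h.surj_zero (by have := X.eS_nonneg Tᶜ; omega) (by
        convert h2 T using 2
        push_cast; module)
    choose r hr hr' using h4
    by_contra hn
    obtain ⟨l, hl⟩ := card_pos.1 (show 0 < T.card by
      by_contra h5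
      exact hn (h3 T (Or.inl (by omega))).symm)
    have h5 := h.li (b := -(m + X.eS (T.erase l)ᶜ)) (r := fun a => if a ∈ T.erase l then 0 else
      sgn a (T.erase l) • r (insert a (T.erase l))) (fun a => by
        split_ifs with ha
        · exact zero_mem _
        · refine zsmul_mem (piece_cast (hr _) rfl ?_) _
          rw [X.eS_compl_insert ha]; ring) (by
        rw [← Pi.zero_apply (M := fun _ => F) (T.erase l), ← kos_kos X.φ f, kos,
          ← sum_subset (subset_univ (T.erase l)ᶜ)]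
        · refine sum_congr rfl fun a ha => ?_
          rw [if_neg (mem_compl.1 ha), map_zsmul, hr', mul_smul_comm, smul_eq_mul]
        · intro a _ ha
          rw [if_pos (by simpa using ha), map_zero, mul_zero]) l
    rw [if_neg (notMem_erase l T), insert_erase hl] at h5
    have h6 := congrArg (fun x => sgn l (T.erase l) • x) h5
    simp only [smul_smul, sgn_mul_self, one_smul, smul_zero] at h6
    exact hn (by rw [← hr', h6, map_zero]; rfl)
  · refine ⟨0, fun _ => zero_mem _, (kos_zero _).trans (funext fun T => ?_)⟩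
    refine (eq_zero_of_h0 (h0_eq_zero ?_) (h2 T)).symm
    rw [deg_sub, deg_zsmul, deg_zsmul, h.can.deg_eq, h.deg_eq]
    have h4 := h.n_add
    have h5 := h.two
    have h6 := X.eS_nonneg Tᶜ
    have h7 : (3 : ℤ) ≤ q := by exact_mod_cast hq
    have h8 : (n : ℤ) + 2 ≤ genus K F := by omega
    nlinarith [Int.natCast_nonneg n]

theorem exact {q p : ℕ} (hq : 1 ≤ q) (hp : p + q < n) {m : ℤ} (hm : -1 ≤ m)
    {ζ : Finset (Fin n) → F} (hζ : ζ ∈ X.ch (q + 1) p m) (h0 : kos X.φ ζ = 0) :
    ∃ ξ ∈ X.ch q (p + 1) m, kos X.φ ξ = ζ := by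
  by_contra hn
  obtain ⟨lam, hl, hl'⟩ := Submodule.exists_le_ker_of_notMem
    (p := (X.ch q (p + 1) m).map (kosL (M := F) K X.φ)) (v := ζ) hn
  obtain ⟨ω, hω, hω0⟩ := h.can.exists_om
  have k1 : ∀ T : Finset (Fin n), ∃ β : Adele K F, (Tᶜ.card ≠ p → β = 0) ∧ (Tᶜ.card = p →
      ∀ z ∈ X.Gam (q + 1) (m + X.eS Tᶜ), ω (z • β) = eps Tᶜ • lam (Pi.single Tᶜ z)) := by
    intro T
    by_cases hT : Tᶜ.card = p
    · obtain ⟨β, hβ⟩ := exists_repr hω0 (X.Gam (q + 1) (m + X.eS Tᶜ))
        (eps Tᶜ • lam ∘ₗ LinearMap.single K (fun _ => F) Tᶜ ∘ₗ Submodule.subtype _)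
      exact ⟨β, fun e => absurd hT e, fun _ z hz => hβ ⟨z, hz⟩⟩
    · exact ⟨0, fun _ => rfl, fun e => absurd e hT⟩
  choose β β1 β2 using k1
  have k2 : ∀ σ ∈ X.ch (q + 1) p m, pair ω.toAddMonoidHom σ β = lam σ := fun σ hσ => by
    rw [mem_chain] at hσ
    conv_rhs => rw [← univ_sum_single σ, map_sum]
    refine sum_congr rfl fun S _ => ?_
    by_cases hS : S.card = p
    · have := β2 Sᶜ (by rwa [compl_compl]) (σ S) (by rw [compl_compl]; exact hσ.2 S)
      rw [compl_compl] at this
      rw [LinearMap.toAddMonoidHom_coe, this, smul_smul, eps_mul_self, one_smul]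
    · simp [hσ.1 S hS]
  have hc : ∀ T : Finset (Fin n), Tᶜ.card = n - T.card := fun T => by simp [card_compl]
  have hc' : ∀ T : Finset (Fin n), T.card ≤ n := fun T => by simpa using card_le_univ T
  have k3 : ∀ T, T.card ≠ n - p - 1 → kos X.φ β T = 0 :=
    kos_supp _ fun T hT => β1 T (by have := hc' T; rw [hc]; omega)
  have k4 : ∀ T, ∀ z ∈ X.Gam q (m + X.eS Tᶜ), ω (z • kos X.φ β T) = 0 := fun T z hz => by
    by_cases hT : T.card = n - p - 1
    · have h1 : (Pi.single Tᶜ z : Finset (Fin n) → F) ∈ X.ch q (p + 1) m :=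
        mem_chain.2 ⟨fun S hS => Pi.single_eq_of_ne (fun e => hS (by rw [e, hc]; omega)) _,
          fun S => by
            by_cases hS : S = Tᶜ
            · rw [hS, Pi.single_eq_same]; exact hz
            · rw [Pi.single_eq_of_ne hS]; exact zero_mem _⟩
      have h2 := k2 _ (X.kos_mem_ch hq h1)
      rw [pair_kos, pair_single, compl_compl, show lam (kos X.φ (Pi.single Tᶜ z)) = 0 from
        hl' ⟨_, h1, rfl⟩] at h2
      have h3 := congrArg (fun x => eps Tᶜ • x) h2
      simpa only [smul_smul, eps_mul_self, one_smul, smul_zero, LinearMap.toAddMonoidHom_coe]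
        using h3
    · rw [k3 T hT, smul_zero, map_zero]
  choose a ha f G hG G1 G2 k5 using fun T => h.decomp hω hω0 q _ _ (k4 T)
  have k6 : ∀ T P, kos X.φ (fun T => (a T).1 P) T + kos X.φ f T + kos X.φ (fun T =>
      if D P = 0 then 0 else X.ev (G T) * X.s 1 ^ (1 - (m + X.eS Tᶜ))) T = 0 := fun T P => by
    have := kos_adele X.φ (kos X.φ β) T P
    rw [kos_kos] at this
    rw [← Pi.add_apply (kos _ _), ← kos_add, ← Pi.add_apply (kos _ _), ← kos_add]
    refine Eq.trans ?_ this.symm
    congr 1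
    funext S
    rw [k5 S, Pi.add_apply, ← smul_inf_apply]; rfl
  have k7 : ∀ T (P : Place K F), P.Ge (-((2 - q : ℤ) • W - (m + X.eS Tᶜ) • D) P)
      (kos X.φ (fun T => (a T).1 P) T) := fun T P => Place.ge_sum fun l hl => by
    rw [zsmul_eq_mul]
    refine (P.ge_intCast _).mul0 (((X.φ_mem l P).mul (ha _ P)).mono (le_of_eq ?_))
    rw [X.eS_compl_insert (mem_compl.1 hl)]
    simp only [Finsupp.sub_apply, Finsupp.smul_apply, smul_eq_mul]
    ring
  have k8 : ∀ T, G T = 0 := fun T => by
    by_cases hq1 : q = 1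
    swap
    · exact G1 T hq1
    subst hq1
    rcases T.eq_empty_or_nonempty with rfl | ⟨l, hl⟩
    · exact (G2 _ (k3 _ (by rw [card_empty]; omega))).2
    have h1 := h.gam (c := m + X.eS (T.erase l)ᶜ) (η := - kos X.φ f (T.erase l))
      (G := fun a => if a ∈ T.erase l then 0 else sgn a (T.erase l) • G (insert a (T.erase l)))
      (fun a => by
        split_ifs with ha
        · exact zero_mem _
        · refine zsmul_mem (piece_cast (hG _) rfl ?_) _
          rw [X.eS_compl_insert ha]; ring) (fun P => by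
        have h1 := k7 (T.erase l) P
        rw [eq_neg_of_add_eq_zero_left ((add_assoc _ _ _).symm.trans (k6 (T.erase l) P)),
          neg_add, ← sub_eq_add_neg] at h1
        convert h1 using 2
        · simp; ring
        split_ifs with hP
        · exact (congrFun (kos_zero X.φ) _).symm
        · rw [kos, ← sum_subset (subset_univ (T.erase l)ᶜ)]
          · refine sum_congr rfl fun a ha => ?_
            rw [if_neg (mem_compl.1 ha), map_zsmul, X.eS_compl_insert (mem_compl.1 ha),
              smul_mul_assoc, mul_smul_comm, smul_eq_mul, add_sub_assoc]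
          · intro a _ ha
            rw [if_pos (by simpa using ha), map_zero, zero_mul, mul_zero]) l
    rw [if_neg (notMem_erase l T), insert_erase hl] at h1
    have h2 := congrArg (fun x => sgn l (T.erase l) • x) h1
    simpa only [smul_smul, sgn_mul_self, one_smul, smul_zero] using h2
  simp only [k8, map_zero, zero_mul, zero_smul, add_zero, ite_self] at k5 k6
  have k9 : ∀ T P, kos X.φ (fun T => (a T).1 P) T = - kos X.φ f T := fun T P => by
    have := k6 T P
    rw [show kos X.φ (fun _ => (0 : F)) T = 0 from congrFun (kos_zero X.φ) T, add_zero] at this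
    exact eq_neg_of_add_eq_zero_left this
  obtain ⟨c, c1, c2⟩ := h.dual_cycle hq hp hm (f := f) (fun T hT => (G2 T (k3 T hT)).1)
    fun T P => by simpa [k9] using (k7 T P).neg
  choose l hl1 hl2 using h.exists_gen
  have k10 : ∀ S (P : Place K F), P.Ge (-(-(q : ℤ) • W - (m + X.eS Sᶜ) • D) P)
      ((X.φ (l P))⁻¹ * hom (l P) (fun T => (a T).1 P + c T) S) := fun S P => by
    rw [hom]
    split_ifs with hS
    · rw [zsmul_eq_mul]
      refine ((P.ge_ord _).mul ((P.ge_intCast _).mul0 ((ha _ P).add (c1 _ P)))).mono (le_of_eq ?_)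
      have := X.eS_compl_insert (notMem_erase (l P) S)
      rw [insert_erase hS, hl1] at this
      simp only [this, Place.ord_inv, hl2, Finsupp.sub_apply, Finsupp.smul_apply, smul_eq_mul]
      push_cast; ring
    · rw [mul_zero]; exact P.ge_zero _
  let a' : Finset (Fin n) → Adele K F := fun S => ⟨_, _, k10 S⟩
  have k11 : kos X.φ a' = a + fun T => diag K (c T) := funext fun T => Subtype.ext <|
    funext fun P => by
      rw [kos_adele]
      have h1 : kos X.φ (fun T => (a T).1 P + c T) = 0 := by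
        rw [show (fun T => (a T).1 P + c T) = (fun T => (a T).1 P) + c from rfl, kos_add, c2]
        funext T
        rw [Pi.add_apply, k9, neg_add_cancel]; rfl
      have h2 := kos_smul X.φ (X.φ (l P))⁻¹ (hom (l P) fun T => (a T).1 P + c T)
      rw [kos_hom_of_cycle _ h1, smul_smul, inv_mul_cancel₀ (X.φ_ne _), one_smul] at h2
      exact congrFun h2 T
  obtain ⟨P₀, -⟩ := h.exists_inf
  have k12 : kos X.φ ((X.φ (l P₀))⁻¹ • hom (l P₀) (f - c)) = f - c := by
    rw [kos_smul, kos_hom_of_cycle _ (by rw [kos_sub, c2, sub_self]), smul_smul,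
      inv_mul_cancel₀ (X.φ_ne _), one_smul]
  generalize (X.φ (l P₀))⁻¹ • hom (l P₀) (f - c) = f' at k12
  have k13 : kos X.φ (β - a' - fun T => diag K (f' T)) = 0 := by
    rw [kos_sub, kos_sub, k11, kos_diag, k12]
    funext T
    simp [k5 T]
  have k14 := kos_smul X.φ (X.φ (l P₀))⁻¹ (hom (l P₀) (β - a' - fun T => diag K (f' T)))
  rw [kos_hom_of_cycle _ k13, smul_smul, inv_mul_cancel₀ (X.φ_ne _), one_smul,
    eq_sub_iff_add_eq, eq_sub_iff_add_eq] at k14
  refine hl ?_
  rw [← k2 ζ hζ, ← k14, pair_add, pair_add, ← pair_kos, h0, pair_zero_left, zero_add]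
  rw [mem_chain] at hζ
  rw [pair, pair, sum_eq_zero, sum_eq_zero, add_zero]
  · intro S _
    have h1 := smul_mem_AD (X.Gam_le _ _ (hζ.2 S)) (α := a' Sᶜ) (k10 Sᶜ)
    rw [compl_compl, show ((q + 1 : ℕ) : ℤ) • W + (m + X.eS S) • D +
      (-(q : ℤ) • W - (m + X.eS S) • D) = W by push_cast; module] at h1
    rw [LinearMap.toAddMonoidHom_coe, hω.1 _ h1, smul_zero]
  · intro S _
    rw [LinearMap.toAddMonoidHom_coe, smul_diag, hω.2, smul_zero]

end Ctx

end Pool.Agent.MP_8e057e_ag
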