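import Mathlib.Algebra.BigOperators.Group.Multiset.Basic
import Mathlib.Algebra.BigOperators.Ring.Multiset
import Mathlib.Algebra.Order.BigOperators.Group.Multiset
import Mathlib.Data.Int.Interval
import Mathlib.Algebra.BigOperators.Group.Finset.Piecewise
import Mathlib.Algebra.BigOperators.Group.Finset.Basic
import Mathlib.Tactic.Ring
import Mathlib.Tactic.Linarith
import Pool.Agent.MP_8e057e_ag.Exact
import Mathlib.Algebra.MvPolynomial.Derivation
import Mathlib.RingTheory.Derivation.MapCoeffs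
import Pool.Agent.MP_8e057e_ag.RH
import Mathlib.LinearAlgebra.Matrix.Block
import Mathlib.LinearAlgebra.Matrix.ToLinearEquiv
import Pool.Agent.MP_8e057e_ag.Defs
import Mathlib.RingTheory.Nullstellensatz
import Mathlib.RingTheory.Ideal.KrullsHeightTheorem

-- ======== part 0: formerly Pool.Agent.MP_8e057e_ag.Hilb
section MrgPart0

/-! Hilbert functions of sums of line bundles on the projective line. -/

namespace Pool.Agent.MP_8e057e_ag

open Finset

/-- The number of sections of the twists of a sum of line bundles. -/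
def hilb (a : Multiset ℤ) (b : ℤ) : ℕ := (a.map fun x => (x + b + 1).toNat).sum

theorem hilb_diff (a : Multiset ℤ) (b : ℤ) :
    hilb a b + hilb a (b - 2) = 2 * hilb a (b - 1) + a.count (-b) := by
  induction a using Multiset.induction_on with
  | empty => simp [hilb]
  | cons x a ih =>
    simp only [hilb, Multiset.map_cons, Multiset.sum_cons, Multiset.count_cons] at ih ⊢
    split_ifs with h <;> omega

theorem hilb_inj {a a' : Multiset ℤ} (h : ∀ b, hilb a b = hilb a' b) : a = a' := by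
  ext x
  have h1 := hilb_diff a (-x)
  have h2 := hilb_diff a' (-x)
  rw [neg_neg] at h1 h2
  rw [h, h, h] at h1
  omega

theorem hilb_eq_zero {a : Multiset ℤ} {b : ℤ} (h : ∀ x ∈ a, x + b < 0) : hilb a b = 0 :=
  Multiset.sum_eq_zero fun y hy => by
    obtain ⟨x, hx, rfl⟩ := Multiset.mem_map.1 hy
    have := h x hx
    omega

theorem hilb_lin {a : Multiset ℤ} (h : ∀ x ∈ a, 0 ≤ x) {b : ℤ} (hb : -1 ≤ b) :
    (hilb a b : ℤ) = a.card * (b + 1) + a.sum := by
  induction a using Multiset.induction_on with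
  | empty => simp [hilb]
  | cons x a ih =>
    have h1 := ih fun y hy => h y (Multiset.mem_cons_of_mem hy)
    have h2 := h x (Multiset.mem_cons_self _ _)
    simp only [hilb, Multiset.map_cons, Multiset.sum_cons, Multiset.card_cons] at h1 ⊢
    push_cast at h1 ⊢
    rw [h1, Int.toNat_of_nonneg (by omega)]
    ring

theorem exists_hilb (h : ℤ → ℕ) (N r d : ℤ) (h0 : ∀ b, b < -N → h b = 0)
    (h1 : ∀ b, 2 * h (b - 1) ≤ h b + h (b - 2)) (h2 : ∀ b, -1 ≤ b → (h b : ℤ) = r * (b + 1) + d) :
    ∃ a : Multiset ℤ, (∀ b, h b = hilb a b) ∧ (∀ x ∈ a, 0 ≤ x ∧ x ≤ N) ∧ (a.card : ℤ) = r ∧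
      a.sum = d := by
  let c : ℤ → ℕ := fun x => h (-x) + h (-x - 2) - 2 * h (-x - 1)
  let a : Multiset ℤ := ∑ x ∈ Icc 0 N, Multiset.replicate (c x) x
  have ha : ∀ x, a.count x = c x := fun x => by
    simp only [a, Multiset.count_sum', Multiset.count_replicate]
    rw [sum_ite_eq' (Icc 0 N) x c]
    split_ifs with hx
    · rfl
    · rw [mem_Icc, not_and_or] at hx
      rcases hx with hx | hx
      · have e1 := h2 (-x) (by omega)
        have e2 := h2 (-x - 1) (by omega)
        have e3 := h2 (-x - 2) (by omega)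
        have : (h (-x) : ℤ) + h (-x - 2) = 2 * h (-x - 1) := by rw [e1, e2, e3]; ring
        simp only [c]; omega
      · simp only [c]
        rw [h0 _ (by omega), h0 _ (by omega)]; simp
  have hm : ∀ x ∈ a, 0 ≤ x ∧ x ≤ N := fun x hx => by
    obtain ⟨y, hy, hx⟩ := Multiset.mem_sum.1 hx
    rw [Multiset.eq_of_mem_replicate hx]
    exact mem_Icc.1 hy
  have key : ∀ j : ℕ, ∀ b, b < -N + j → h b = hilb a b := by
    intro j
    induction j with
    | zero =>
      intro b hb
      rw [h0 b (by omega), hilb_eq_zero fun x hx => by have := (hm x hx).2; omega]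
    | succ j ih =>
      intro b hb
      have e1 := ih (b - 1) (by push_cast at hb; omega)
      have e2 := ih (b - 2) (by push_cast at hb; omega)
      have e3 := hilb_diff a b
      have e4 := h1 b
      rw [ha] at e3
      simp only [c, neg_neg] at e3
      omega
  have key' : ∀ b, h b = hilb a b := fun b => key (b + N + 1).toNat b (by omega)
  have e1 := hilb_lin (fun x hx => (hm x hx).1) (b := -1) le_rfl
  have e2 := hilb_lin (fun x hx => (hm x hx).1) (b := 0) (by omega)
  rw [← key', h2 _ (by omega)] at e1 e2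
  exact ⟨a, key', hm, by linarith, by linarith⟩

theorem eq_of_zero_one {a : Multiset ℤ} (h : ∀ x ∈ a, 0 ≤ x ∧ x ≤ 1) {u v : ℕ}
    (h1 : (a.card : ℤ) = u + v) (h2 : a.sum = v) :
    a = Multiset.replicate u 0 + Multiset.replicate v 1 := by
  have h3 : ∀ a : Multiset ℤ, (∀ x ∈ a, 0 ≤ x ∧ x ≤ 1) →
      a = Multiset.replicate (a.count 0) 0 + Multiset.replicate (a.count 1) 1 := fun a h => by
    ext x
    simp only [Multiset.count_add, Multiset.count_replicate]
    by_cases hx : x ∈ a
    · have := h x hx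
      rcases (show x = 0 ∨ x = 1 by omega) with rfl | rfl <;> simp
    · rw [Multiset.count_eq_zero_of_notMem hx]
      split_ifs with e1 e2 e2
      · omega
      · rw [e1, Multiset.count_eq_zero_of_notMem hx]
      · rw [e2, Multiset.count_eq_zero_of_notMem hx]
      · rfl
  have h4 := h3 a h
  rw [h4] at h1 h2
  simp at h1 h2
  rw [h4, show a.count 0 = u by omega, show a.count 1 = v by omega]

end Pool.Agent.MP_8e057e_ag

end MrgPart0

-- ======== part 1: formerly Pool.Agent.MP_8e057e_ag.Count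
section MrgPart1

/-! The Hilbert function of the syzygy bundles. -/

open Pool.Agent.MP_79c67d_ag Pool.Agent.MP_79c67d_ag.FF Module MvPolynomial Finset

set_option linter.unusedSectionVars false

namespace Pool.Agent.MP_8e057e_ag

theorem finrank_map_add {K V V' : Type} [Field K] [AddCommGroup V] [Module K V] [AddCommGroup V']
    [Module K V'] (f : V →ₗ[K] V') (p : Submodule K V) [FiniteDimensional K p] :
    finrank K (p.map f) + finrank K ↥(p ⊓ LinearMap.ker f) = finrank K p := by
  rw [← (f.domRestrict p).finrank_range_add_finrank_ker, LinearMap.range_domRestrict,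
    LinearMap.ker_domRestrict, ← Submodule.finrank_map_subtype_eq p, Submodule.map_comap_subtype]

theorem sum_powersetCard_sum {n : ℕ} (e : Fin (n + 1) → ℤ) (p : ℕ) :
    ∑ S ∈ powersetCard p (univ : Finset (Fin (n + 1))), ∑ l ∈ S, e l =
      ((n + 1).choose p - n.choose p : ℤ) * ∑ l, e l := by
  have h1 : ∀ S : Finset (Fin (n + 1)), ∑ l ∈ S, e l = ∑ l, e l - ∑ l, if l ∉ S then e l else 0 :=
    fun S => by
      rw [← sum_filter, ← sum_add_sum_compl S, filter_not, filter_mem_eq_inter, univ_inter,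
        ← compl_eq_univ_sdiff, add_sub_cancel_right]
  rw [sum_congr rfl fun S _ => h1 S, sum_sub_distrib, sum_const, card_powersetCard, card_univ, Fintype.card_fin, sum_comm,
    sub_mul, nsmul_eq_mul, mul_sum _ _ (n.choose p : ℤ)]
  congr 1
  refine sum_congr rfl fun l _ => ?_
  rw [← sum_filter, sum_const, nsmul_eq_mul]
  congr 2
  rw [show filter (fun S => l ∉ S) (powersetCard p univ) = powersetCard p (univ.erase l) by
    ext S; simp [subset_erase, and_comm], card_powersetCard]
  simp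

variable {K F : Type} [Field K] [Field F] [Algebra K F] [IsFF K F] [CharZero K] [IsAlgClosed K]
variable {W D : Divisor K F}

namespace Scroll

variable {n : ℕ} (X : Scroll W D n)

/-- Cycles of global sections. -/
noncomputable abbrev cy (q p : ℕ) (m : ℤ) : Submodule K (Finset (Fin n) → F) :=
  X.ch q p m ⊓ LinearMap.ker (kosL (M := F) K X.φ)

/-- Chains of polynomials. -/
noncomputable abbrev pc (q : ℤ) (p : ℕ) (m : ℤ) : Submodule K (Finset (Fin n) → Cox K n) :=
  chain (fun S => piece K X.e q (m + X.eS S)) p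

theorem ev_kos (τ : Finset (Fin n) → Cox K n) (S : Finset (Fin n)) :
    X.ev (kos (xx K) τ S) = kos X.φ (fun T => X.ev (τ T)) S :=
  kos_map (xx K) X.φ X.ev.toLinearMap.toAddMonoidHom (fun l x => by simp) τ S

theorem mem_syz {i : ℕ} {m : ℤ} {σ : Finset (Fin n) → Cox K n} : σ ∈ X.syz (i + 1) m ↔
    σ ∈ X.pc 2 i m ∧ (∀ S, X.ev (σ S) = 0) ∧ kos (xx K) σ = 0 := by
  rw [mem_chain, ← koszul_eq, and_assoc]
  exact and_congr_left fun _ => forall_congr' fun S => by simp

instance (i : ℕ) (m : ℤ) : FiniteDimensional K (X.syz (i + 1) m) :=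
  Submodule.finiteDimensional_of_le (S₂ := X.pc 2 i m) fun _ h => (X.mem_syz.1 h).1

theorem exists_kos {q p : ℕ} {m : ℤ} {σ : Finset (Fin n) → Cox K n} (h : σ ∈ X.pc (q + 1) p m)
    (h0 : kos (xx K) σ = 0) : ∃ τ ∈ X.pc q (p + 1) m, kos (xx K) τ = σ := by
  rw [mem_chain] at h
  have h1 := kos_eul' h.1 h.2
  rw [h0, eul_zero, add_zero] at h1
  have h2 : (((q : ℤ) + 1 + p : ℤ) : K) ≠ 0 := by norm_cast; omega
  refine ⟨(((q : ℤ) + 1 + p : ℤ) : K)⁻¹ • eul σ, Submodule.smul_mem _ _ (mem_chain.2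
    ⟨eul_supp h.1, fun S => piece_cast (eul_mem h.2 S) (by ring) rfl⟩), ?_⟩
  rw [kos_smul, h1, smul_smul, inv_mul_cancel₀ h2, one_smul]

theorem kos_mem_pc {q : ℤ} {p : ℕ} {m : ℤ} {τ : Finset (Fin n) → Cox K n}
    (h : τ ∈ X.pc q (p + 1) m) : kos (xx K) τ ∈ X.pc (q + 1) p m := by
  rw [mem_chain] at h ⊢
  exact ⟨kos_supp _ h.1, kos_mem h.2⟩

theorem convex (i : ℕ) (b : ℤ) : 2 * finrank K (X.syz (i + 1) (b - 1)) ≤
    finrank K (X.syz (i + 1) b) + finrank K (X.syz (i + 1) (b - 2)) := by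
  have hm : ∀ (j : Fin 2) (b : ℤ), ∀ σ ∈ X.syz (i + 1) b,
      (MvPolynomial.X (Sum.inl j) : Cox K n) • σ ∈ X.syz (i + 1) (b + 1) := fun j b σ hσ => by
    rw [X.mem_syz, mem_chain] at hσ ⊢
    exact ⟨⟨fun S hS => by simp [hσ.1.1 S hS], fun S =>
      piece_cast (inl_mul_mem j (hσ.1.2 S)) rfl (by ring)⟩, fun S => by simp [hσ.2.1 S],
      by rw [kos_smul, hσ.2.2, smul_zero]⟩
  let m : Fin 2 → (Finset (Fin n) → Cox K n) →ₗ[K] (Finset (Fin n) → Cox K n) := fun j =>
    (LinearMap.lsmul (Cox K n) _ (MvPolynomial.X (Sum.inl j))).restrictScalars K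
  let f : X.syz (i + 1) (b - 1) × X.syz (i + 1) (b - 1) →ₗ[K] X.syz (i + 1) b :=
    LinearMap.coprod ((m 0).restrict fun σ hσ => sub_add_cancel b 1 ▸ hm 0 _ σ hσ)
      ((m 1).restrict fun σ hσ => sub_add_cancel b 1 ▸ hm 1 _ σ hσ)
  have hb : b - 2 + 1 = b - 1 := by ring
  let g : X.syz (i + 1) (b - 2) →ₗ[K] X.syz (i + 1) (b - 1) × X.syz (i + 1) (b - 1) :=
    LinearMap.prod ((m 1).restrict fun σ hσ => hb ▸ hm 1 _ σ hσ)
      (-(m 0).restrict fun σ hσ => hb ▸ hm 0 _ σ hσ)
  have h1 : LinearMap.ker f ≤ LinearMap.range g := by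
    rintro ⟨σ, τ⟩ h
    choose z hz hz' using fun S => exists_of_vw (p := σ.1 S) (q := τ.1 S)
      (congrFun (congrArg Subtype.val h) S)
    have h2 := X.mem_syz.1 σ.2
    rw [mem_chain] at h2
    refine ⟨⟨z, X.mem_syz.2 ⟨mem_chain.2 ⟨fun S hS => ?_, fun S => ?_⟩, fun S => ?_, ?_⟩⟩,
      Prod.ext (Subtype.ext (funext fun S => (hz S).symm))
        (Subtype.ext (funext fun S => (hz' S).symm))⟩
    · exact (mul_eq_zero.1 ((hz S).symm.trans (h2.1.1 S hS))).resolve_left ww_ne
    · exact piece_cast (of_inl_mul_mem 1 (hz S ▸ h2.1.2 S)) rfl (by ring)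
    · have := h2.2.1 S
      rw [hz S, map_mul, X.ev_inl] at this
      exact (mul_eq_zero.1 this).resolve_left (ne_of_li' X.li_s)
    · have := h2.2.2
      rw [show σ.1 = (ww : Cox K n) • z from funext hz, kos_smul] at this
      exact (smul_eq_zero.1 this).resolve_left ww_ne
  have h2 := f.finrank_range_add_finrank_ker
  have h3 := (Submodule.finrank_mono h1).trans g.finrank_range_le
  have h4 := Submodule.finrank_le (LinearMap.range f)
  rw [Module.finrank_prod] at h2
  omega

end Scroll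

namespace Ctx

section

variable {n : ℕ} {X : Scroll W D n} (h : Ctx X)
include h

theorem syz_bot {i : ℕ} {b : ℤ} (hb : b + h0 (W - D) ≤ 1) : X.syz (i + 1) b = ⊥ := by
  rw [eq_bot_iff]
  intro σ hσ
  obtain ⟨h1, h2, h3⟩ := X.mem_syz.1 hσ
  obtain ⟨τ, hτ, rfl⟩ := X.exists_kos (q := 1) h1 h3
  rw [mem_chain] at hτ
  have e : ∀ S, ∑ l ∈ S, (X.e l : ℤ) - -b = b + X.eS S := fun S => by rw [Scroll.eS]; ring
  obtain ⟨c, -, c2, c3⟩ := h.glf (a := -b) (by rw [h.card_U]; omega) (j := i + 1)
    (σ := fun S => X.ev (τ S)) (fun S hS => by simp [hτ.1 S hS])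
    (fun S => e S ▸ X.ev_mem_one (hτ.2 S)) (funext fun S => (X.ev_kos τ S).symm.trans (h2 S))
  have h4 : ∀ S, ∃ r ∈ piece K X.e 0 (b + X.eS S), X.ev r = c S := fun S =>
    h.surj_zero (by
      have := h.eS_add S
      have := X.eS_nonneg Sᶜ
      have := h.card_U
      omega) (e S ▸ c2 S)
  choose r hr hr' using h4
  have h5 : kos (xx K) r = τ := funext fun S => sub_eq_zero.1 (h.inj_one
    (sub_mem (piece_cast (kos_mem hr S) (by ring) rfl) (hτ.2 S)) (by
      rw [map_sub, X.ev_kos, funext hr', c3, sub_self]))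
  rw [← h5, kos_kos]
  exact zero_mem _

theorem syz_bot' {i : ℕ} {b : ℤ} (hb : b + i + 2 < 0) : X.syz (i + 1) b = ⊥ := by
  rw [eq_bot_iff]
  intro σ hσ
  obtain ⟨h1, h2⟩ := mem_chain.1 (X.mem_syz.1 hσ).1
  funext S
  by_cases hS : S.card = i
  · have h3 := h2 S
    have h4 := card_le_card (inter_subset_left (s₁ := S) (s₂ := X.U))
    rwa [piece_eq_bot h.e_le (by rw [Scroll.eS, h.sum_eq_card]; omega)] at h3
  · exact h1 S hS

theorem cy_step {q p : ℕ} (hq : 1 ≤ q) (hp : p + q < n) {m : ℤ} (hm : -1 ≤ m) :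
    (X.ch q (p + 1) m).map (kosL (M := F) K X.φ) = X.cy (q + 1) p m := by
  refine le_antisymm ?_ fun ζ hζ => h.exact hq hp hm hζ.1 hζ.2
  rintro _ ⟨ξ, hξ, rfl⟩
  exact ⟨X.kos_mem_ch hq hξ, kos_kos _ _⟩

theorem finrank_syz {i : ℕ} (hi : i + 1 < n) {m : ℤ} (hm : -1 ≤ m) :
    finrank K (X.syz (i + 1) m) + finrank K (X.pc 0 (i + 2) m) + finrank K (X.cy 2 i m) =
      finrank K (X.pc 1 (i + 1) m) := by
  let Θ : (Finset (Fin n) → Cox K n) →ₗ[K] (Finset (Fin n) → F) :=
    X.ev.toLinearMap.compLeft _ ∘ₗ kosL K (xx K)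
  have hΘ : ∀ τ, Θ τ = kos X.φ fun T => X.ev (τ T) := fun τ => funext (X.ev_kos τ)
  have h1 : (X.pc 1 (i + 1) m).map Θ = X.cy 2 i m := by
    rw [← h.cy_step le_rfl hi hm]
    refine le_antisymm ?_ ?_
    · rintro _ ⟨τ, hτ, rfl⟩
      rw [SetLike.mem_coe, mem_chain] at hτ
      exact ⟨_, mem_chain.2 ⟨fun S hS => by simp [hτ.1 S hS], fun S => ⟨_, hτ.2 S, rfl⟩⟩,
        (hΘ τ).symm⟩
    · rintro _ ⟨ξ, hξ, rfl⟩
      rw [SetLike.mem_coe, mem_chain] at hξ
      choose τ hτ hτ' using hξ.2
      exact ⟨τ, mem_chain.2 ⟨fun S hS => h.inj_one (hτ S) ((hτ' S).trans (hξ.1 S hS)), hτ⟩,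
        (hΘ τ).trans (congrArg _ (funext hτ'))⟩
  have h2 : (X.pc 1 (i + 1) m ⊓ LinearMap.ker Θ).map (kosL K (xx K)) = X.syz (i + 1) m := by
    refine le_antisymm ?_ fun σ hσ => ?_
    · rintro _ ⟨τ, hτ, rfl⟩
      exact X.mem_syz.2 ⟨X.kos_mem_pc hτ.1, congrFun hτ.2, kos_kos _ _⟩
    · obtain ⟨h1, h2, h3⟩ := X.mem_syz.1 hσ
      obtain ⟨τ, hτ, rfl⟩ := X.exists_kos (q := 1) h1 h3
      exact ⟨τ, ⟨hτ, funext h2⟩, rfl⟩
  have h3 : (X.pc 0 (i + 2) m).map (kosL K (xx K)) =
      X.pc 1 (i + 1) m ⊓ LinearMap.ker Θ ⊓ LinearMap.ker (kosL K (xx K)) := by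
    refine le_antisymm ?_ fun σ hσ => X.exists_kos (q := 0) hσ.1.1 hσ.2
    rintro _ ⟨τ, hτ, rfl⟩
    refine ⟨⟨X.kos_mem_pc hτ, ?_⟩, kos_kos _ _⟩
    change X.ev.toLinearMap.compLeft _ (kos (xx K) (kos (xx K) τ)) = 0
    rw [kos_kos, map_zero]
  have h4 : X.pc 0 (i + 2) m ⊓ LinearMap.ker (kosL K (xx K)) = ⊥ := by
    rw [eq_bot_iff]
    rintro τ ⟨hτ, h0⟩
    rw [SetLike.mem_coe, mem_chain] at hτ
    have h5 := kos_eul' hτ.1 hτ.2
    have h6 : eul τ = 0 := funext fun S => by
      have := eul_mem hτ.2 S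
      rwa [piece_eq_bot_of_neg (by omega)] at this
    rw [show kos (xx K) τ = 0 from h0, h6, eul_zero, kos_zero, add_zero] at h5
    exact (smul_eq_zero.1 h5.symm).resolve_left (by norm_cast)
  have e1 := finrank_map_add Θ (X.pc 1 (i + 1) m)
  have e2 := finrank_map_add (kosL K (xx K)) (X.pc 1 (i + 1) m ⊓ LinearMap.ker Θ)
  have e3 := finrank_map_add (kosL K (xx K)) (X.pc 0 (i + 2) m)
  rw [h1] at e1
  rw [h2, ← h3] at e2
  rw [h4, finrank_bot] at e3
  omega

end

variable {c : ℕ} {X : Scroll W D (c + 2)} (h : Ctx X)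
include h

theorem sum_lin (p : ℕ) (u v : ℤ) : ∑ S ∈ powersetCard p univ, (u + v * X.eS S) =
    (c + 2).choose p * u + v * (((c + 2).choose p - (c + 1).choose p : ℤ) * h0 (W - D)) := by
  rw [sum_add_distrib, sum_const, card_powersetCard, card_univ, Fintype.card_fin, ← mul_sum,
    nsmul_eq_mul, ← h.sum_e]
  simp only [Scroll.eS]
  rw [sum_powersetCard_sum, Nat.cast_sum]

theorem finrank_pc_zero (p : ℕ) {m : ℤ} (hm : -1 ≤ m) : (finrank K (X.pc 0 p m) : ℤ) =
    (c + 2).choose p * (m + 1) + ((c + 2).choose p - (c + 1).choose p : ℤ) * h0 (W - D) := by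
  rw [finrank_chain, ← one_mul (_ * (h0 (W - D) : ℤ)), ← h.sum_lin, Nat.cast_sum]
  refine sum_congr rfl fun S _ => ?_
  have := X.eS_nonneg S
  rw [finrank_piece_zero]
  omega

theorem finrank_pc_one (p : ℕ) {m : ℤ} (hm : -1 ≤ m) : (finrank K (X.pc 1 p m) : ℤ) =
    (c + 2).choose p * ((c + 2) * (m + 1) + h0 (W - D)) +
      (c + 2) * (((c + 2).choose p - (c + 1).choose p : ℤ) * h0 (W - D)) := by
  rw [finrank_chain, ← h.sum_lin, Nat.cast_sum]
  refine sum_congr rfl fun S _ => ?_
  have := X.eS_nonneg S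
  rw [finrank_piece_one, Nat.cast_sum, sum_congr rfl
    (g := fun l => (m + 1 + X.eS S) + (X.e l : ℤ)) fun l _ => by omega, sum_add_distrib, ← h.sum_e]
  simp
  ring

theorem finrank_ch {q : ℕ} (hq : 1 ≤ q) (p : ℕ) {m : ℤ} (hm : -1 ≤ m) :
    (finrank K (X.ch (q + 1) p m) : ℤ) =
      (c + 2).choose p * ((2 * q + 1) * (c + 1 + h0 (W - D)) + m * (c + 3)) +
        (c + 3) * (((c + 2).choose p - (c + 1).choose p : ℤ) * h0 (W - D)) := by
  rw [finrank_chain, ← h.sum_lin, Nat.cast_sum]
  refine sum_congr rfl fun S _ => ?_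
  have h1 := X.eS_nonneg S
  have h2 := h.n_add
  have h3 := h.two
  have h4 : (genus K F : ℤ) = c + 2 + h0 (W - D) := by omega
  have h5 : (1 : ℤ) ≤ q := by exact_mod_cast hq
  have h6 : (2 : ℤ) ≤ h0 (W - D) := by exact_mod_cast h3
  rw [X.Gam_succ hq, ← h0, h.can.nonspecial, deg_add, deg_zsmul, deg_zsmul, h.can.deg_eq, h.deg_eq,
    h4]
  · push_cast; ring
  · rw [deg_add, deg_zsmul, deg_zsmul, h.can.deg_eq, h.deg_eq, h4]
    push_cast
    nlinarith [Int.natCast_nonneg c]

theorem finrank_cy (p : ℕ) {q : ℕ} (hq : 1 ≤ q) (hp : p + q < c + 2) {m : ℤ} (hm : -1 ≤ m) :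
    (finrank K (X.cy (q + 1) p m) : ℤ) =
      (c + 1).choose p * ((2 * q + 1) * (c + 1 + h0 (W - D)) + m * (c + 3)) +
        ((c + 1).choose p - c.choose p : ℤ) * ((c + 1) * (h0 (W - D) - 2)) := by
  induction p generalizing q with
  | zero =>
    rw [Scroll.cy, inf_eq_left.2 fun σ hσ => kos_supp_zero _ (mem_chain.1 hσ).1,
      h.finrank_ch hq 0 hm]
    simp
  | succ p ih =>
    have h1 := finrank_map_add (kosL (M := F) K X.φ) (X.ch (q + 1) (p + 1) m)
    rw [h.cy_step (by omega) (by omega) hm] at h1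
    have h2 := ih (q := q + 1) (by omega) (by omega)
    have h3 := h.finrank_ch hq (p + 1) hm
    zify at h1
    rw [h2, h3] at h1
    rw [Nat.choose_succ_succ' (c + 1) p, Nat.choose_succ_succ' c p] at *
    push_cast at *
    linear_combination h1

theorem hilb_eq {i : ℕ} (hi : i < c) {m : ℤ} (hm : -1 ≤ m) :
    (finrank K (X.syz (i + 1) m) : ℤ) =
      ((i + 1) * (c + 1).choose (i + 2) + (c - i) * (c + 1).choose i : ℤ) * (m + 1) +
        (h0 (W - D) - 2) * (c - i) * (c + 1).choose i := by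
  have h1 := h.finrank_syz (i := i) (by omega) hm
  zify at h1
  rw [h.finrank_pc_zero _ hm, h.finrank_pc_one _ hm, h.finrank_cy i le_rfl (by omega) hm,
    Nat.choose_succ_succ' (c + 1) (i + 1), Nat.choose_succ_succ' (c + 1) i] at h1
  have e1 := Nat.choose_succ_right_eq (c + 1) i
  have e2 := Nat.choose_succ_right_eq (c + 1) (i + 1)
  have e3 := Nat.choose_mul_succ_eq c i
  zify [show i ≤ c + 1 by omega, show i + 1 ≤ c + 1 by omega] at e1 e2 e3
  push_cast at h1
  linear_combination h1 - (m + 1) * e2 + (m + 1) * e1 + (h0 (W - D) - 2) * e3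

end Ctx

end Pool.Agent.MP_8e057e_ag

end MrgPart1

-- ======== part 2: formerly Pool.Agent.MP_8e057e_ag.Main
section MrgPart2

/-! The splitting types of the syzygy bundles of a good pencil. -/

open Pool.Agent.MP_79c67d_ag Pool.Agent.MP_79c67d_ag.FF Module MvPolynomial Finset

set_option linter.unusedSectionVars false

namespace Pool.Agent.MP_8e057e_ag

theorem bijOn_of_surj {K V V' : Type} [Field K] [AddCommGroup V] [Module K V] [AddCommGroup V']
    [Module K V'] (f : V →ₗ[K] V') {p : Submodule K V} [FiniteDimensional K p]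
    {q : Submodule K V'} (h1 : ∀ x ∈ p, f x ∈ q) (h2 : ∀ y ∈ q, ∃ x ∈ p, f x = y)
    (h3 : finrank K p = finrank K q) : Set.BijOn f p q := by
  have h4 : p.map f = q := le_antisymm (by rintro _ ⟨x, hx, rfl⟩; exact h1 x hx) h2
  have h5 := finrank_map_add f p
  rw [h4, h3, add_eq_left, Submodule.finrank_eq_zero] at h5
  refine ⟨h1, fun x hx y hy e => sub_eq_zero.1 ?_, h2⟩
  exact h5.le ⟨sub_mem hx hy, by rw [SetLike.mem_coe, LinearMap.mem_ker, map_sub, e, sub_self]⟩

variable {K F : Type} [Field K] [Field F] [Algebra K F] [IsFF K F] [CharZero K] [IsAlgClosed K]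
variable {W D : Divisor K F}

theorem exists_span (V : Submodule K F) [FiniteDimensional K V] {r : ℕ} (h : finrank K V = r) :
    ∃ y : Fin r → F, (∀ i, y i ∈ V) ∧ ∀ z ∈ V, ∃ c : Fin r → K, z = ∑ i, c i • y i := by
  let b := Module.finBasisOfFinrankEq K V h
  refine ⟨fun i => b i, fun i => (b i).2, fun z hz => ⟨b.repr ⟨z, hz⟩, ?_⟩⟩
  have := congrArg Subtype.val (b.sum_repr ⟨z, hz⟩).symm
  rwa [Submodule.coe_sum] at this

theorem exists_scroll (hW : IsCan W) (hD : Good W D) :
    ∃ r, 2 * h0 (W - D) + r = genus K F ∧ Nonempty (Scroll W D (h0 (W - D) + r)) := by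
  obtain ⟨s₀, hs₀, s₁, hs₁, hs⟩ := exists_li_of_h0 hD.pencil.ge
  have hs' : ∀ z ∈ sec D, ∃ a b : K, z = a • s₀ + b • s₁ := fun z hz => by
    have h1 : Submodule.span K (Set.range ![s₀, s₁]) = sec D :=
      Submodule.eq_of_le_of_finrank_eq (Submodule.span_le.2 (by
        rintro _ ⟨i, rfl⟩; fin_cases i; exacts [hs₀, hs₁])) (by
        rw [finrank_span_eq_card hs]; exact hD.pencil.symm)
    obtain ⟨c, rfl⟩ := (Submodule.mem_span_range_iff_exists_fun K).1 (h1.ge hz)
    exact ⟨c 0, c 1, by simp⟩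
  obtain ⟨y, hy, hy'⟩ := exists_span (sec (W - D)) (r := h0 (W - D)) rfl
  have hm : ∀ s ∈ sec D, ∀ z ∈ sec (W - D), s * z ∈ sec W := fun s hs z hz => by
    simpa using mul_mem_sec hs hz
  let μ : sec (W - D) × sec (W - D) →ₗ[K] sec W :=
    LinearMap.coprod ((LinearMap.mulLeft K s₀).restrict (hm s₀ hs₀))
      ((LinearMap.mulLeft K s₁).restrict (hm s₁ hs₁))
  have hμ : Function.Injective μ := (injective_iff_map_eq_zero μ).2 fun p hp => by
    obtain ⟨h1, h2⟩ := pencil_trick hD.petri hs₀ hs₁ hs p.1.2 p.2.2 (congrArg Subtype.val hp)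
    exact Prod.ext (Subtype.ext h1) (Subtype.ext h2)
  obtain ⟨V, hV⟩ := Submodule.exists_isCompl (LinearMap.range μ)
  have h1 := Submodule.finrank_add_eq_of_isCompl hV
  rw [LinearMap.finrank_range_of_inj hμ, Module.finrank_prod, ← h0, ← h0, hW.h0_eq, ← two_mul] at h1
  obtain ⟨x, hx, hx'⟩ := exists_span (V.map (sec W).subtype)
    (Submodule.finrank_map_subtype_eq _ _)
  refine ⟨_, h1, ?_⟩
  generalize finrank K V = r at h1 x hx hx'
  let e : Fin (h0 (W - D) + r) → ℕ := Fin.append (fun _ => 1) fun _ => 0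
  have he : ∀ l, e l ≤ 1 := fun l => by
    refine Fin.addCases (fun i => ?_) (fun i => ?_) l <;> simp [e]
  have h2 : ∀ j, ![s₀, s₁] j ∈ sec D := fun j => by fin_cases j; exacts [hs₀, hs₁]
  have h3 : ∀ l, Fin.append y x l ∈ sec (W - (e l : ℤ) • D) := fun l => by
    refine Fin.addCases (fun i => ?_) (fun i => ?_) l
    · simpa [e] using hy i
    · obtain ⟨z, -, hz⟩ := hx i
      simp [e, ← hz]
  let ev : Cox K (h0 (W - D) + r) →ₐ[K] F := aeval (Sum.elim ![s₀, s₁] (Fin.append y x))
  have h4 : ∀ z ∈ sec (W - D), ∃ p ∈ piece K e 1 (-1), ev p = z := fun z hz => by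
    obtain ⟨c, rfl⟩ := hy' z hz
    refine ⟨∑ i, c i • xx K (Fin.castAdd r i), Submodule.sum_mem _ fun i _ =>
      Submodule.smul_mem _ _ (piece_cast (xx_mem _) rfl (by simp [e])), by simp [ev]⟩
  refine ⟨⟨![s₀, s₁], e, Fin.append y x, fun a b hab => ?_, ?_, fun b hb => ?_⟩⟩
  · revert hab
    refine Fin.addCases (fun i => ?_) (fun i => ?_) a
    · intro _; simpa [e] using he b
    · refine Fin.addCases (fun j => ?_) (fun j => ?_) b
      · intro h
        have := j.2
        rw [Fin.le_def] at h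
        simp at h
        omega
      · intro _; simp [e]
  · refine bijOn_of_surj ev.toLinearMap (fun p hp => by simpa using aeval_mem h2 h3 hp)
      (fun z hz => ?_) (by rw [finrank_piece_zero]; exact hD.pencil.symm)
    obtain ⟨a, b, rfl⟩ := hs' z hz
    exact ⟨a • vv + b • ww, add_mem (Submodule.smul_mem _ _ (inl_mem 0))
      (Submodule.smul_mem _ _ (inl_mem 1)), by simp [ev]⟩
  · have h5 : ∀ p ∈ piece K e 1 b, ev.toLinearMap p ∈ sec (W + b • D) := fun p hp => by
      simpa using aeval_mem h2 h3 hp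
    rcases (show b = 0 ∨ b = -1 ∨ b ≤ -2 by omega) with rfl | rfl | hb
    · refine bijOn_of_surj ev.toLinearMap h5 (fun z hz => ?_) ?_
      · obtain ⟨_, ⟨u, rfl⟩, v, hv, e1⟩ := Submodule.mem_sup.1
          (hV.sup_eq_top.ge (Submodule.mem_top (x := ⟨z, by simpa using hz⟩)))
        obtain ⟨c, hc⟩ := hx' v ⟨v, hv, rfl⟩
        obtain ⟨p, hp, hp'⟩ := h4 _ u.1.2
        obtain ⟨q, hq, hq'⟩ := h4 _ u.2.2
        refine ⟨vv * p + ww * q + ∑ i, c i • xx K (Fin.natAdd _ i), add_mem (add_mem
          (inl_mul_mem 0 hp) (inl_mul_mem 1 hq)) (Submodule.sum_mem _ fun i _ =>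
          Submodule.smul_mem _ _ (piece_cast (xx_mem _) rfl (by simp [e]))), ?_⟩
        have e2 : s₀ * u.1 + s₁ * u.2 + v = z := congrArg Subtype.val e1
        rw [← e2, hc, ← hp', ← hq']
        simp [ev]
      · rw [finrank_piece_one, zero_smul, add_zero, ← h0, hW.h0_eq, ← h1, Fin.sum_univ_add]
        simp [e, mul_comm]
    · refine bijOn_of_surj ev.toLinearMap h5 (fun z hz => h4 z (by
        simpa [sub_eq_add_neg] using hz)) ?_
      rw [finrank_piece_one, neg_smul, one_smul, ← sub_eq_add_neg, ← h0, Fin.sum_univ_add]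
      simp [e]
    · have h6 : sec (W + b • D) = ⊥ := by
        rw [eq_bot_iff]
        intro z hz
        obtain ⟨j, rfl⟩ : ∃ j : ℕ, b = -2 - j := ⟨(-2 - b).toNat, by omega⟩
        have h7 := mul_mem_sec hz (pow_mem_sec hs₀ j)
        rw [show W + (-2 - j : ℤ) • D + (j : ℤ) • D = W - 2 • D by module] at h7
        exact (mul_eq_zero.1 (eq_zero_of_h0 (hD.petri D hD.pencil.ge) h7)).resolve_right
          (pow_ne_zero _ (ne_of_li hs))
      refine bijOn_of_surj ev.toLinearMap h5 (fun z hz => ⟨0, zero_mem _, ?_⟩) ?_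
      · rw [h6] at hz; rw [map_zero]; exact hz.symm
      · rw [h6, piece_eq_bot he (by omega), finrank_bot, finrank_bot]

theorem isSplitting_iff {n : ℕ} (X : Scroll W D n) (i : ℕ) (a : Multiset ℤ) :
    X.IsSplitting (i + 1) a ↔ ∀ b, finrank K (X.syz (i + 1) b) = hilb a b :=
  forall_congr' fun b => by rw [← finrank_eq_rank, Nat.cast_inj]; rfl

theorem good_main (hW : IsCan W) (hD : Good W D) {g k : ℕ} (hg : genus K F = g) (hk : deg D = k)
    (hkg : k < g) : Nonempty (Scroll W D (k - 1)) ∧ ∀ (n : ℕ) (X : Scroll W D n), n + 1 = k ∧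
      ∀ i, 1 ≤ i → i + 3 ≤ k → ∃ a, X.IsSplitting i a ∧ (∀ a', X.IsSplitting i a' → a' = a) ∧
        (∀ x ∈ a, 0 ≤ x ∧ x ≤ min ((g : ℤ) - k - 1) (i + 1)) ∧
        a.card = i * (k - 2).choose (i + 1) + (k - 2 - i) * (k - 2).choose (i - 1) ∧
        a.sum = ((g : ℤ) - k - 1) * ((k - 2 - i) * (k - 2).choose (i - 1) : ℕ) := by
  have h1 := hW.rr D
  rw [hD.pencil, hg, hk] at h1
  have ctx : ∀ (n : ℕ) (X : Scroll W D n), Ctx X.norm := fun n X =>
    ⟨hW, hD.add_div (ne_of_li X.li_s), div_self (ne_of_li X.li_s), by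
      rw [← sub_sub, h0_sub_div _ (ne_of_li X.li_s)]; omega⟩
  have hn : ∀ (n : ℕ) (X : Scroll W D n), n + 1 = k := fun n X => by
    have := (ctx n X).deg_eq
    rw [deg_add, deg_div, hk] at this
    omega
  refine ⟨?_, fun n X => ⟨hn n X, fun i hi hik => ?_⟩⟩
  · obtain ⟨r, -, ⟨X⟩⟩ := exists_scroll hW hD
    have := hn _ X
    exact ⟨(show h0 (W - D) + r = k - 1 by omega) ▸ X⟩
  obtain ⟨i, rfl⟩ := Nat.exists_eq_add_of_le' hi
  have h2 := hn n X
  obtain ⟨c, rfl⟩ : ∃ c, n = c + 2 := ⟨n - 2, by omega⟩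
  subst h2
  have h := ctx _ X
  have h3 : (h0 (W - (D + div K (X.s 0))) : ℤ) = g - (c + 2) := by
    rw [← sub_sub, h0_sub_div _ (ne_of_li X.li_s)]; omega
  obtain ⟨a, a1, a2, a3, a4⟩ := exists_hilb (fun b => finrank K (X.norm.syz (i + 1) b))
    (min ((g : ℤ) - (c + 2 + 1 : ℕ) - 1) ((i + 1 : ℕ) + 1)) _ _ (fun b hb => by
      rcases (show b + h0 (W - (D + div K (X.s 0))) ≤ 1 ∨ b + i + 2 < 0 by omega) with h4 | h4
      · rw [h.syz_bot h4, finrank_bot]
      · rw [h.syz_bot' h4, finrank_bot]) (X.norm.convex i) fun b hb => h.hilb_eq (by omega) hb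
  replace a1 : ∀ b, finrank K (X.syz (i + 1) b) = hilb a b := fun b => X.norm_syz _ b ▸ a1 b
  refine ⟨a, (isSplitting_iff X i a).2 a1, fun a' ha' => hilb_inj fun b =>
    ((isSplitting_iff X i a').1 ha' b).symm.trans (a1 b), a2, ?_, ?_⟩
  · obtain ⟨d, rfl⟩ := Nat.exists_eq_add_of_le' (show i ≤ c by omega)
    rw [show d + i + 2 + 1 - 2 = d + i + 1 by omega, show d + i + 1 - (i + 1) = d by omega]
    zify
    rw [a3]; simp
  · obtain ⟨d, rfl⟩ := Nat.exists_eq_add_of_le' (show i ≤ c by omega)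
    rw [show d + i + 2 + 1 - 2 = d + i + 1 by omega, show d + i + 1 - (i + 1) = d by omega, a4, h3]
    simp; ring

end Pool.Agent.MP_8e057e_ag

end MrgPart2

-- ======== part 3: formerly Pool.Agent.MP_8e057e_ag.Der
section MrgPart3

/-! Derivations of a function field that preserve the constants. -/

open Pool.Agent.MP_79c67d_ag Pool.Agent.MP_79c67d_ag.FF Module Finset Polynomial
open scoped IntermediateField IntermediateField.algebraAdjoinAdjoin

set_option linter.unusedSectionVars false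

namespace Pool.Agent.MP_8e057e_ag

theorem exists_ext {A E : Type} [CommRing A] [Field E] [CharZero E] [Algebra A E]
    (hi : Function.Injective (algebraMap A E)) (ha : Algebra.IsAlgebraic A E)
    (δ : Derivation ℤ A E) : ∃ D : Derivation ℤ E E, ∀ a, D (algebraMap A E a) = δ a := by
  have : FaithfulSMul A E := (faithfulSMul_iff_algebraMap_injective A E).2 hi
  have := IsDomain.of_faithfulSMul A E
  let := FractionRing.liftAlgebra A E
  have : Algebra.IsAlgebraic (FractionRing A) E := IsFractionRing.comap_isAlgebraic_iff.1 ha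
  have : CharZero (FractionRing A) := (algebraMap (FractionRing A) E).charZero
  have h1 : Algebra.FormallyEtale A (FractionRing A) :=
    Algebra.FormallyEtale.of_isLocalization (nonZeroDivisors A)
  have h2 : Algebra.FormallyEtale (FractionRing A) E := Algebra.FormallyEtale.of_isSeparable _ _
  have h3 : Algebra.FormallyEtale A E := Algebra.FormallyEtale.comp A (FractionRing A) E
  refine ⟨(LinearMap.liftBaseChange E δ.liftKaehlerDifferential ∘ₗ
    (KaehlerDifferential.tensorKaehlerEquivOfFormallyEtale ℤ A E).symm.toLinearMap).compDer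
    (KaehlerDifferential.D ℤ E), fun a => ?_⟩
  change LinearMap.liftBaseChange E δ.liftKaehlerDifferential
    ((KaehlerDifferential.tensorKaehlerEquivOfFormallyEtale ℤ A E).symm
      (KaehlerDifferential.D ℤ E (algebraMap A E a))) = _
  rw [KaehlerDifferential.tensorKaehlerEquivOfFormallyEtale_symm_D_algebraMap]
  simp

theorem exists_der_const {K : Type} [Field K] [CharZero K] {ι : Type} {c : ι → K}
    (hc : AlgebraicIndependent ℚ c) (v : ι → K) : ∃ δ : Derivation ℤ K K, ∀ i, δ (c i) = v i := by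
  classical
  obtain ⟨t, ht, hb⟩ := exists_isTranscendenceBasis_superset hc.to_subtype_range
  let := (MvPolynomial.aeval (R := ℚ) ((↑) : t → K)).toAlgebra
  have : IsScalarTower ℚ (MvPolynomial t ℚ) K := .of_algebraMap_eq fun q =>
    ((MvPolynomial.aeval (R := ℚ) ((↑) : t → K)).commutes q).symm
  have := hb.isAlgebraic
  obtain ⟨D, hD⟩ := exists_ext (A := MvPolynomial t ℚ) (E := K) hb.1
    (Algebra.IsAlgebraic.of_ringHom_of_comp_eq hb.1.aevalEquiv (RingHom.id K)
      hb.1.aevalEquiv.surjective Function.injective_id (RingHom.ext fun p =>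
        hb.1.algebraMap_aevalEquiv p))
    ((MvPolynomial.mkDerivation ℚ fun j : t => Function.extend c v 0 j.1).restrictScalars ℤ)
  refine ⟨D, fun i => ?_⟩
  have := (hD (MvPolynomial.X ⟨c i, ht ⟨i, rfl⟩⟩)).trans (MvPolynomial.mkDerivation_X _ _ _)
  rw [hc.injective.extend_apply] at this
  rw [← this]
  exact congrArg D (MvPolynomial.aeval_X (R := ℚ) ((↑) : t → K) ⟨c i, ht ⟨i, rfl⟩⟩).symm

variable {K F : Type} [Field K] [Field F] [Algebra K F] [CharZero K] [IsAlgClosed K] [IsFF K F]

variable (K F) in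
/-- Derivations of the function field that map constants to constants. -/
def DK : Submodule K (Derivation ℤ F F) where
  carrier := {D | ∀ c : K, ∃ c' : K, D (algebraMap K F c) = algebraMap K F c'}
  add_mem' := fun {D D'} h h' c => by
    obtain ⟨a, ha⟩ := h c
    obtain ⟨b, hb⟩ := h' c
    exact ⟨a + b, by simp [ha, hb]⟩
  zero_mem' := fun _ => ⟨0, by simp⟩
  smul_mem' := fun k D h c => by
    obtain ⟨a, ha⟩ := h c
    exact ⟨k * a, by simp [ha, Algebra.smul_def]⟩

theorem exists_DK (δ : Derivation ℤ K K) :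
    ∃ D ∈ DK K F, ∀ c, D (algebraMap K F c) = algebraMap K F (δ c) := by
  have : CharZero F := charZero_of_injective_algebraMap (algebraMap K F).injective
  obtain ⟨x, hx⟩ := exists_transcendental K F
  let := (aeval (R := K) x).toAlgebra
  let : Differential K := ⟨δ⟩
  have := isAlg_adjoin hx
  let e := Polynomial.algEquivOfTranscendental K x hx
  obtain ⟨D, hD⟩ := exists_ext (A := K[X]) (E := F) (transcendental_iff_injective.1 hx)
    (Algebra.IsAlgebraic.of_ringHom_of_comp_eq e (RingHom.id F) e.surjective Function.injective_id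
      (RingHom.ext fun p => by
        exact (aeval_algHom_apply (Algebra.adjoin K {x}).val
          ⟨x, Algebra.self_mem_adjoin_singleton K x⟩ p).symm))
    ((Algebra.linearMap K[X] F).compDer Differential.mapCoeffs)
  have h : ∀ c, D (algebraMap K F c) = algebraMap K F (δ c) := fun c => by
    have := hD (C c)
    change D (aeval x (C c)) = aeval x (Differential.mapCoeffs (C c)) at this
    rwa [Differential.mapCoeffs_C, aeval_C, aeval_C] at this
  exact ⟨D, fun c => ⟨_, h c⟩, h⟩

theorem der_eval' (D : Derivation ℤ F F) (p : F[X]) (y : F) :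
    D (p.eval y) = (∑ i ∈ range (p.natDegree + 1), y ^ i * D (p.coeff i)) +
      p.derivative.eval y * D y := by
  have h1 : ∀ N : ℕ, D (∑ i ∈ range N, p.coeff i * y ^ i) =
      (∑ i ∈ range N, y ^ i * D (p.coeff i)) +
        (∑ i ∈ range N, p.coeff i * i * y ^ (i - 1)) * D y := by
    intro N
    rw [map_sum, sum_mul, ← sum_add_distrib]
    refine sum_congr rfl fun i _ => ?_
    rw [D.leibniz, D.leibniz_pow]
    simp only [smul_eq_mul, nsmul_eq_mul]
    ring
  rw [eval_eq_sum_range, h1, derivative_eval, sum_over_range _ (by simp)]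

/-- The derivation preserves the local ring. -/
def RegAt (P : Place K F) (D : Derivation ℤ F F) : Prop := ∀ y, P.Ge 0 y → P.Ge 0 (D y)

theorem regAt_of_unif {D : Derivation ℤ F F} (hD : D ∈ DK K F) {P : Place K F}
    (h1 : P.Ge 0 (D P.unif)) : RegAt P D := fun y hy => by
  have ht0 := P.ge_unif.mono zero_le_one
  have hA0 : ∀ a ∈ Algebra.adjoin K {P.unif}, P.Ge 0 (D a) := fun a ha => by
    induction ha using Algebra.adjoin_induction with
    | mem a ha => exact ha ▸ h1
    | algebraMap c => obtain ⟨c', hc⟩ := hD c; exact hc ▸ P.ge_const c'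
    | add a b _ _ ha hb => rw [map_add]; exact ha.add hb
    | mul a b h2 h3 ha hb =>
      rw [D.leibniz]
      exact ((P.mem_adjoin_ge ht0 h2).mul0 hb).add ((P.mem_adjoin_ge ht0 h3).mul0 ha)
  have hA : ∀ n : ℕ, ∀ q : K[X], P.Ge (n + 1) (aeval P.unif q) → P.Ge n (D (aeval P.unif q)) := by
    intro n
    induction n with
    | zero => exact fun q _ => hA0 _ (aeval_mem_adjoin_singleton K _)
    | succ n ih =>
      intro q hq
      have h2 : q.eval 0 = 0 := by
        have := (hq.mono (by omega : (1 : ℤ) ≤ _)).sub (P.aeval_sub (a := 0)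
          (by simpa using P.ge_unif) q)
        exact Place.const_eq_zero (by simpa using this)
      obtain ⟨r, rfl⟩ := (X_dvd_iff (f := q)).2 (by rwa [coeff_zero_eq_eval_zero])
      have h3 : P.Ge (n + 1) (aeval P.unif r) := by
        refine Place.Ge.of_mul P.unif_ne ?_
        rw [map_mul, aeval_X, mul_comm] at hq
        simpa using hq
      rw [map_mul, aeval_X, D.leibniz]
      push_cast
      exact ((P.ge_unif.mul (ih r h3)).mono (by omega)).add (h3.mul0' h1)
  have hA' : ∀ n : ℕ, ∀ a ∈ Algebra.adjoin K {P.unif}, P.Ge (n + 1) a → P.Ge n (D a) := by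
    intro n a ha h
    obtain ⟨q, rfl⟩ := (Algebra.adjoin_singleton_eq_range_aeval K _).le ha
    exact hA n q h
  obtain ⟨p, hp, hpy, hd⟩ := exists_sep_rel (P.transcendental (f := P.unif) (by simp)) y
  have hp0 : ∀ i, P.Ge 0 (p.coeff i) := fun i => P.mem_adjoin_ge ht0 (hp i)
  have hp1 : ∀ i, P.Ge 0 (p.derivative.coeff i) := fun i => by
    rw [coeff_derivative]
    exact (hp0 _).mul0 ((P.ge_natCast i).add P.ge_one)
  obtain ⟨m, hm⟩ : ∃ m : ℕ, P.ord (p.derivative.eval y) = m :=
    ⟨_, (Int.toNat_of_nonneg ((hy.eval hp1).le hd)).symm⟩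
  obtain ⟨s, hs, hys⟩ := P.approx hy (m + 1)
  have hs0 := P.mem_adjoin_ge ht0 hs
  have h2 : p.eval s ∈ Algebra.adjoin K {P.unif} := by
    rw [eval_eq_sum_range]
    exact Subalgebra.sum_mem _ fun i _ => mul_mem (hp i) (pow_mem hs i)
  have h3 : P.Ge (m + 1) (p.eval s) := by
    have := (hy.eval_sub hs0 hys hp0).neg
    rw [hpy] at this
    simpa using this
  have h4 := hA' m _ h2 h3
  have h5 := der_eval' D p y
  have h6 := der_eval' D p s
  rw [hpy, map_zero] at h5
  have h7 : P.Ge m ((∑ i ∈ range (p.natDegree + 1), y ^ i * D (p.coeff i)) -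
      ∑ i ∈ range (p.natDegree + 1), s ^ i * D (p.coeff i)) := by
    rw [← sum_sub_distrib]
    refine Place.ge_sum fun i _ => ?_
    rw [← sub_mul]
    exact ((hy.pow_sub hs0 hys i).mul0' (hA0 _ (hp i))).mono (by push_cast; omega)
  have h8 := ((hy.eval_sub hs0 hys hp1).mul0' (hA0 s hs)).mono (by push_cast; omega : (m : ℤ) ≤ _)
  have h9 : (D y - D s) * p.derivative.eval y = -(D (p.eval s)) -
      ((∑ i ∈ range (p.natDegree + 1), y ^ i * D (p.coeff i)) -
      ∑ i ∈ range (p.natDegree + 1), s ^ i * D (p.coeff i)) -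
      (p.derivative.eval y - p.derivative.eval s) * D s := by
    rw [h6]
    linear_combination -h5
  have h10 : P.Ge 0 (D y - D s) := Place.Ge.of_mul hd (by
    rw [h9, hm, zero_add]; exact (h4.neg.sub h7).sub h8)
  simpa using h10.add (hA0 s hs)

namespace RegAt

variable {P : Place K F} {D : Derivation ℤ F F} (h : RegAt P D)
include h

theorem logd {n : ℤ} {s : F} (hs : P.Ge n s) :
    P.Ge n (D s - n * (D P.unif / P.unif) * s) := by
  have h1 : P.Ge n (P.unif ^ n) := P.ge_of_le (by simp)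
  have h2 : P.Ge 0 (s * P.unif ^ (-n)) := (hs.mul (P.ge_ord _)).mono (by simp)
  have h3 := h1.mul0' (h _ h2)
  rw [D.leibniz, D.leibniz_zpow] at h3
  convert h3 using 1
  have := P.unif_ne
  simp only [smul_eq_mul, zsmul_eq_mul, zpow_sub₀ this, zpow_neg, zpow_one]
  have := zpow_ne_zero n this
  push_cast
  field_simp
  ring

theorem unif : P.Ge 0 (D P.unif) := h _ (P.ge_unif.mono zero_le_one)

theorem ge_sub_one {n : ℤ} {s : F} (hs : P.Ge n s) : P.Ge (n - 1) (D s) := by
  have h1 := ((P.ge_intCast n).mul0 (h.unif.mul (P.ge_ord P.unif⁻¹))).mul hs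
  have := ((h.logd hs).mono (by omega : n - 1 ≤ n)).add (h1.mono (by simp))
  rwa [← div_eq_mul_inv, sub_add_cancel] at this

theorem ge_of_inv (hi : P.Ge 1 (D P.unif)) {n : ℤ} {s : F} (hs : P.Ge n s) : P.Ge n (D s) := by
  have h1 := ((P.ge_intCast n).mul0 (hi.mul (P.ge_ord P.unif⁻¹))).mul hs
  have := (h.logd hs).add (h1.mono (by simp))
  rwa [← div_eq_mul_inv, sub_add_cancel] at this

theorem inv_of_ge {s : F} (hs : P.ord s ≠ 0) (h1 : P.Ge (P.ord s) (D s)) :
    P.Ge 1 (D P.unif) := by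
  have hs0 : s ≠ 0 := by rintro rfl; simp at hs
  have : CharZero F := charZero_of_injective_algebraMap (algebraMap K F).injective
  have hn : ((P.ord s : ℤ) : F) ≠ 0 := by exact_mod_cast hs
  have h2 := h1.sub (h.logd (P.ge_ord s))
  rw [sub_sub_cancel] at h2
  have h3 := (Place.Ge.of_mul (n := 0) hs0 (by rwa [zero_add])).mul
    ((Place.Ge.inv_of_ord (P.ord_intCast (P.ord s))).mul0 P.ge_unif)
  have := P.unif_ne
  rwa [show (P.ord s : F) * (D P.unif / P.unif) * ((P.ord s : F)⁻¹ * P.unif) = D P.unif by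
    field_simp, zero_add] at h3

theorem ge_pol (x : F) : P.Ge (-(2 • pol K x) P) (D x) := by
  rw [Finsupp.smul_apply, pol_apply]
  rcases le_or_gt 0 (P.ord x) with h1 | h1
  · exact (h x (P.ge_of_le h1)).mono (by simp)
  · exact (h.ge_sub_one (P.ge_ord x)).mono (by simp; omega)

end RegAt

end Pool.Agent.MP_8e057e_ag

end MrgPart3

-- ======== part 4: formerly Pool.Agent.MP_8e057e_ag.KS
section MrgPart4

/-! The Kodaira-Spencer class of a derivation. -/

open Pool.Agent.MP_79c67d_ag Pool.Agent.MP_79c67d_ag.FF Module Finset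

set_option linter.unusedSectionVars false

namespace Pool.Agent.MP_8e057e_ag

theorem finrank_range_le {K U V V' : Type} [Field K] [AddCommGroup U] [Module K U] [AddCommGroup V]
    [Module K V] [AddCommGroup V'] [Module K V'] (f : U →ₗ[K] V) (g : U →ₗ[K] V')
    [FiniteDimensional K (LinearMap.range g)] {q : Submodule K V} {p : Submodule K V'}
    [FiniteDimensional K q] [FiniteDimensional K p] (hq : ∀ u, f u ∈ q)
    (hp : ∀ u, f u = 0 → g u ∈ p) : finrank K (LinearMap.range g) ≤ finrank K q + finrank K p := by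
  obtain ⟨s, hs⟩ := g.rangeRestrict.exists_rightInverse_of_surjective g.range_rangeRestrict
  have h1 := (f ∘ₗ s).finrank_range_add_finrank_ker
  have h2 : finrank K (LinearMap.range (f ∘ₗ s)) ≤ finrank K q :=
    Submodule.finrank_mono (by rintro _ ⟨y, rfl⟩; exact hq _)
  have h3 : finrank K ((LinearMap.ker (f ∘ₗ s)).map (LinearMap.range g).subtype) ≤ finrank K p :=
    Submodule.finrank_mono (by
      rintro _ ⟨y, hy, rfl⟩
      have h4 : g (s y) = y := congrArg Subtype.val (LinearMap.congr_fun hs y)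
      exact (congrArg (· ∈ p) h4).mp (hp _ hy))
  rw [Submodule.finrank_map_subtype_eq] at h3
  omega

theorem finrank_range_add_le {K U V V' : Type} [Field K] [AddCommGroup U] [Module K U]
    [AddCommGroup V] [Module K V] [AddCommGroup V'] [Module K V'] (f : U →ₗ[K] V →ₗ[K] K)
    (g : U →ₗ[K] V') [FiniteDimensional K (LinearMap.range g)] {p q : Submodule K V}
    {r : Submodule K V'} [FiniteDimensional K q] [FiniteDimensional K r] (h : p ≤ q)
    (hp : ∀ u, ∀ v ∈ p, f u v = 0) (hq : ∀ u, (∀ v ∈ q, f u v = 0) → g u ∈ r) :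
    finrank K (LinearMap.range g) + finrank K p ≤ finrank K q + finrank K r := by
  have h1 := finrank_range_le (V := Dual K q) (q.subtype.dualMap ∘ₗ f) g
    (q := (p.comap q.subtype).dualAnnihilator) (p := r)
    (fun u => (Submodule.mem_dualAnnihilator _).2 fun v hv => hp u _ hv)
    fun u hu => hq u fun v hv => LinearMap.congr_fun hu ⟨v, hv⟩
  have h2 := Subspace.finrank_add_finrank_dualAnnihilator_eq (p.comap q.subtype)
  rw [(Submodule.comapSubtypeEquivOfLe h).finrank_eq] at h2
  omega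

variable {K F : Type} [Field K] [Field F] [Algebra K F] [CharZero K] [IsAlgClosed K] [IsFF K F]

variable (K F) in
/-- Everywhere regular derivations. -/
def Rg : Submodule K (Derivation ℤ F F) where
  carrier := {D | D ∈ DK K F ∧ ∀ P : Place K F, RegAt P D}
  add_mem' := fun h h' => ⟨add_mem h.1 h'.1, fun P y hy => (h.2 P y hy).add (h'.2 P y hy)⟩
  zero_mem' := ⟨zero_mem _, fun P _ _ => P.ge_zero _⟩
  smul_mem' := fun k _ h => ⟨Submodule.smul_mem _ k h.1, fun P y hy => (h.2 P y hy).smul k⟩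

/-- Differentiation with respect to `x`. -/
noncomputable def pd {x : F} (hx : Transcendental K x) : Derivation ℤ F F :=
  (der (dd_ne_zero hx)).restrictScalars ℤ

section

variable {x : F} (hx : Transcendental K x)

theorem pd_self : pd hx x = 1 := der_self (dd_ne_zero hx)

theorem pd_const (c : K) : pd hx (algebraMap K F c) = 0 := (der (dd_ne_zero hx)).map_algebraMap c

theorem pd_unif_ne (P : Place K F) : pd hx P.unif ≠ 0 := P.der_unif_ne (dd_ne_zero hx)

theorem exists_tan : ∃ T : Divisor K F, (∀ P, T P = P.ord (pd hx P.unif)) ∧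
    deg T = 2 - 2 * genus K F := by
  obtain ⟨C, h1, h2⟩ := exists_can_div hx
  exact ⟨-C, fun P => by rw [Finsupp.neg_apply, h1, Place.fo, neg_neg]; rfl, by
    rw [deg_neg, h2]; ring⟩

theorem sub_pd_mem {D : Derivation ℤ F F} (hD : D ∈ DK K F) (φ : F) : D - φ • pd hx ∈ DK K F :=
  fun c => by simpa [pd_const] using hD c

theorem ks_ge {D : Derivation ℤ F F} (hD : D ∈ DK K F) (P : Place K F) {φ : F}
    (h : P.Ge 0 (D P.unif - φ * pd hx P.unif)) : P.Ge (-(2 • pol K x) P) (φ - D x) := by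
  have := ((regAt_of_unif (sub_pd_mem hx hD φ) (P := P) h).ge_pol x).neg
  simpa [pd_self] using this

/-- The Kodaira-Spencer class as an adele. -/
noncomputable def ks : DK K F →ₗ[K] Adele K F where
  toFun D := ⟨fun P => D.1 P.unif / pd hx P.unif - D.1 x, 2 • pol K x, fun P =>
    ks_ge hx D.2 P (by rw [div_mul_cancel₀ _ (pd_unif_ne hx P), sub_self]; exact P.ge_zero _)⟩
  map_add' D D' := Subtype.ext (funext fun P => by simp; ring)
  map_smul' c D := Subtype.ext (funext fun P => by simp [Algebra.smul_def]; ring)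

theorem ks_mem (D : DK K F) : ks hx D ∈ AD (2 • pol K x) := fun P =>
  ks_ge hx D.2 P (by rw [div_mul_cancel₀ _ (pd_unif_ne hx P), sub_self]; exact P.ge_zero _)

end

/-- Evaluation of derivations on constants. -/
noncomputable def ev {N : ℕ} (c : Fin N → K) : Derivation ℤ F F →ₗ[K] (Fin N → F) where
  toFun D i := D (algebraMap K F (c i))
  map_add' _ _ := rfl
  map_smul' _ _ := rfl

theorem map_ev {N : ℕ} {c : Fin N → K} (hc : AlgebraicIndependent ℚ c) :
    (DK K F).map (ev c) = LinearMap.range ((Algebra.linearMap K F).compLeft (Fin N)) := by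
  ext w
  constructor
  · rintro ⟨D, hD, rfl⟩
    choose v hv using hD
    exact ⟨fun i => v (c i), funext fun i => (hv _).symm⟩
  · rintro ⟨v, rfl⟩
    obtain ⟨δ, hδ⟩ := exists_der_const hc v
    obtain ⟨D, hD, h⟩ := exists_DK (F := F) δ
    exact ⟨D, hD, funext fun i => (h _).trans (congrArg _ (hδ i))⟩

instance {N : ℕ} (c : Fin N → K) : FiniteDimensional K ((Rg K F).map (ev c)) :=
  Submodule.finiteDimensional_of_le (S₂ := LinearMap.range ((Algebra.linearMap K F).compLeft
    (Fin N))) (by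
      rintro _ ⟨D, hD, rfl⟩
      choose v hv using hD.1
      exact ⟨fun i => v (c i), funext fun i => (hv _).symm⟩)

theorem ks_count {W : Divisor K F} (hW : IsCan W) (hg : 2 ≤ genus K F) {x : F}
    (hx : Transcendental K x) {N : ℕ} {c : Fin N → K} (hc : AlgebraicIndependent ℚ c) :
    N + h0 (W - 2 • pol K x) + 3 ≤ 3 * genus K F + finrank K ((Rg K F).map (ev c)) := by
  obtain ⟨T, hT, hT'⟩ := exists_tan hx
  have h1 : T ≤ 2 • pol K x := fun P => by
    have h2 := ks_ge hx (zero_mem _) P (φ := (pd hx P.unif)⁻¹) (by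
      simpa [pd_unif_ne hx P] using P.ge_one.neg)
    have := h2.le (by simpa using pd_unif_ne hx P)
    rw [hT]
    simpa using this
  have := (Om_dim T).1
  have h2 : finrank K (LinearMap.range (ev c ∘ₗ (DK K F).subtype)) = N := by
    rw [LinearMap.range_comp, Submodule.range_subtype, map_ev hc, LinearMap.finrank_range_of_inj
      fun a b h => funext fun i => (algebraMap K F).injective (congrFun h i)]
    simp
  have : FiniteDimensional K (LinearMap.range (ev c ∘ₗ (DK K F).subtype)) := by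
    rw [LinearMap.range_comp, Submodule.range_subtype, map_ev hc]; infer_instance
  have h3 := finrank_range_add_le (Dual.eval K _ ∘ₗ ks hx) (ev c ∘ₗ (DK K F).subtype)
    (r := (Rg K F).map (ev c)) (Om_anti h1) (fun D ω hω => hω.1 _ (ks_mem hx D)) fun D hD => by
      have h4 : ks hx D ∈ AD T ⊔ LinearMap.range (diag K) := by
        by_contra hn
        obtain ⟨η, hη, hη'⟩ := Submodule.exists_le_ker_of_notMem hn
        exact hη (hD η ⟨fun a ha => hη' (Submodule.mem_sup_left ha),
          fun f => hη' (Submodule.mem_sup_right ⟨f, rfl⟩)⟩)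
      obtain ⟨a, ha, _, ⟨φ, rfl⟩, e⟩ := Submodule.mem_sup.1 h4
      refine ⟨D.1 - (D.1 x + φ) • pd hx, ⟨sub_pd_mem hx D.2 _, fun P =>
        regAt_of_unif (sub_pd_mem hx D.2 _) ?_⟩, funext fun i => by simp [ev, pd_const]⟩
      have h5 : a.1 P + φ = D.1 P.unif / pd hx P.unif - D.1 x :=
        congrFun (congrArg Subtype.val e) P
      have h6 := (ha P).mul (P.ge_ord (pd hx P.unif))
      rw [hT, neg_add_cancel, eq_sub_of_add_eq h5, sub_mul, sub_mul,
        div_mul_cancel₀ _ (pd_unif_ne hx P)] at h6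
      convert h6 using 1
      simp; ring
  rw [hW.finrank_Om, hW.finrank_Om] at h3
  have h5 := hW.nonspecial (D := W - T) (by rw [deg_sub, hW.deg_eq]; omega)
  rw [deg_sub, hW.deg_eq] at h5
  omega

end Pool.Agent.MP_8e057e_ag

end MrgPart4

-- ======== part 5: formerly Pool.Agent.MP_8e057e_ag.Wei
section MrgPart5

/-! Weierstrass points, and functions killed by all regular derivations. -/

open Pool.Agent.MP_79c67d_ag Pool.Agent.MP_79c67d_ag.FF Module Finset

set_option linter.unusedSectionVars false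

namespace Pool.Agent.MP_8e057e_ag

variable {K F : Type} [Field K] [Field F] [Algebra K F] [CharZero K] [IsAlgClosed K] [IsFF K F]

theorem iter_eq {d δ : Derivation K F F} {φ : F} (h : F) (hφ : ∀ s, δ s = φ * d s) (i : ℕ) :
    ∃ L : ℕ → F, L i = h * φ ^ i ∧ (∀ l, i < l → L l = 0) ∧
      ∀ n, i < n → ∀ s, δ^[i] (h * s) = ∑ l ∈ range n, L l * d^[l] s := by
  induction i with
  | zero =>
    refine ⟨fun l => if l = 0 then h else 0, by simp, fun l hl => if_neg hl.ne', fun n hn s => ?_⟩
    simp [hn]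
  | succ i ih =>
    obtain ⟨L, h1, h2, h3⟩ := ih
    refine ⟨fun l => δ (L l) + if l = 0 then 0 else φ * L (l - 1), ?_, fun l hl => ?_,
      fun n hn s => ?_⟩
    · simp [h2 (i + 1) i.lt_succ_self, h1]; ring
    · simp [h2 l (by omega), h2 (l - 1) (by omega)]
    · obtain ⟨n, rfl⟩ : ∃ m, n = m + 1 := ⟨n - 1, by omega⟩
      simp only [add_mul, sum_add_distrib]
      rw [Function.iterate_succ_apply', h3 n (by omega), map_sum, sum_range_succ,
        h2 n (by omega), sum_range_succ', map_zero, zero_mul, add_zero, if_pos rfl, zero_mul,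
        add_zero, ← sum_add_distrib]
      refine sum_congr rfl fun l _ => ?_
      rw [δ.leibniz, hφ, Function.iterate_succ_apply']
      simp; ring

theorem ge_prod_sub {P : Place K F} {ι : Type} (s : Finset ι) {a b : ι → F}
    (ha : ∀ i, P.Ge 0 (a i)) (hb : ∀ i, P.Ge 0 (b i)) (h : ∀ i, P.Ge 1 (a i - b i)) :
    P.Ge 1 (∏ i ∈ s, a i - ∏ i ∈ s, b i) := by
  classical
  induction s using Finset.induction_on with
  | empty => simpa using P.ge_zero 1
  | insert i s hi ih =>
    rw [prod_insert hi, prod_insert hi]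
    convert ((ha i).mul0 ih).add ((h i).mul0' (Place.ge_prod (s := s) fun j _ => hb j)) using 1
    ring

theorem ord_iter {P : Place K F} {δ : Derivation K F F} (h : Reg P δ) (j : ℕ) {s : F} (hs : s ≠ 0)
    (h1 : P.ord s = j) : ¬ P.Ge 1 (δ^[j] s) := by
  induction j generalizing s with
  | zero => exact fun h2 => by have := h2.le hs; simp at h1 this; omega
  | succ j ih =>
    obtain ⟨h2, h3⟩ := h.ord_der (g := s) (by omega)
    exact ih h2 (by omega)

theorem iter_sum (δ : Derivation K F F) {n : ℕ} (c : Fin n → K) (t : Fin n → F) (i : ℕ) :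
    δ^[i] (∑ j, c j • t j) = ∑ j, c j • δ^[i] (t j) := by
  induction i with
  | zero => rfl
  | succ i ih => simp [Function.iterate_succ_apply', ih]

theorem exists_wei (hg : 2 ≤ genus K F) :
    ∃ P : Place K F, 2 ≤ h0 (Finsupp.single P (genus K F : ℤ)) := by
  by_contra hn
  push Not at hn
  obtain ⟨W, hW⟩ := exists_isCan K F
  obtain ⟨x, hx⟩ := exists_transcendental K F
  obtain ⟨T, hT, hT'⟩ := exists_tan hx
  let b := finBasisOfFinrankEq K (sec W) hW.h0_eq
  let d := der (dd_ne_zero hx)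
  let A : Matrix (Fin (genus K F)) (Fin (genus K F)) F := fun i j => d^[i] (b j)
  have key : ∀ P : Place K F, A.det ≠ 0 ∧
      P.ord A.det = ∑ i : Fin (genus K F), ((i : ℕ) * T P - W P) := fun P => by
    let δ := der P.dd_unif_ne
    have hδ : Reg P δ := P.reg_unif
    have hu := pd_unif_ne hx P
    have hw : P.unif ^ W P ≠ 0 := zpow_ne_zero _ P.unif_ne
    choose L h1 h2 h3 using iter_eq (d := d) (δ := δ) (φ := (pd hx P.unif)⁻¹) (P.unif ^ W P)
      fun s => by rw [eq_inv_mul_iff_mul_eq₀ hu, mul_comm]; exact (P.der_eq_mul _ s).symm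
    let B : Matrix (Fin (genus K F)) (Fin (genus K F)) F := fun i j => δ^[i] (P.unif ^ W P * b j)
    let L' : Matrix (Fin (genus K F)) (Fin (genus K F)) F := fun i l => L i l
    have e1 : B = L' * A := Matrix.ext fun i j => by
      rw [Matrix.mul_apply]
      exact (h3 i _ i.2 _).trans (Fin.sum_univ_eq_sum_range (fun l => L i l * d^[l] (b j)) _).symm
    have e2 : L'.det = ∏ i : Fin (genus K F), P.unif ^ W P * (pd hx P.unif)⁻¹ ^ (i : ℕ) := by
      rw [Matrix.det_of_isLowerTriangular L' fun i l h => h2 i l h]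
      exact prod_congr rfl fun i _ => h1 i
    have hs : ∀ s ∈ sec W, P.Ge 0 (P.unif ^ W P * s) := fun s hs =>
      ((P.ge_ord _).mul (hs P)).mono (by simp)
    have hB : ∀ i j, P.Ge 0 (B i j) := fun i j =>
      Function.Iterate.rec (P.Ge 0) (hs _ (b j).2) hδ.ge _
    have h4 : ¬ P.Ge 1 B.det := fun h4 => by
      let V : Matrix (Fin (genus K F)) (Fin (genus K F)) K := fun i j => P.val (B i j)
      have h5 : P.Ge 1 (B.det - algebraMap K F V.det) := by
        rw [RingHom.map_det, Matrix.det_apply', Matrix.det_apply', ← sum_sub_distrib]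
        refine Place.ge_sum fun σ _ => ?_
        rw [← mul_sub]
        exact (P.ge_intCast _).mul0 (ge_prod_sub _ (fun _ => hB _ _) (fun _ => P.ge_const _)
          fun _ => P.sub_val (hB _ _))
      have h6 := h4.sub h5
      rw [sub_sub_cancel] at h6
      obtain ⟨c, hc, hc'⟩ := Matrix.exists_mulVec_eq_zero_iff.2 (Place.const_eq_zero h6)
      have h7 : (∑ j, c j • b j).1 ≠ 0 := fun e => hc (funext
        (Fintype.linearIndependent_iff.1 b.linearIndependent c (Subtype.ext e)))
      have h8 := (hs _ (∑ j, c j • b j).2).le (mul_ne_zero hw h7)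
      have h9 : P.ord (P.unif ^ W P * (∑ j, c j • b j).1) < genus K F := by
        by_contra h9
        have e3 := hW.rr (Finsupp.single P (genus K F : ℤ))
        have e4 := hn P
        rw [deg_single] at e3
        refine h7 (eq_zero_of_h0 (D := W - Finsupp.single P (genus K F : ℤ)) (by omega) fun Q => ?_)
        rcases eq_or_ne Q P with rfl | hQ
        · rw [Q.ord_mul hw h7] at h9
          exact Q.ge_of_le (by simp at h9 ⊢; omega)
        · rw [Finsupp.sub_apply, Finsupp.single_eq_of_ne hQ, sub_zero]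
          exact (∑ j, c j • b j).2 Q
      obtain ⟨i, hi⟩ : ∃ i : Fin (genus K F), P.ord (P.unif ^ W P * (∑ j, c j • b j).1) = (i : ℕ) :=
        ⟨⟨(P.ord (P.unif ^ W P * (∑ j, c j • b j).1)).toNat, by omega⟩, by simp only []; omega⟩
      refine ord_iter hδ i (mul_ne_zero hw h7) hi ?_
      have e5 : δ^[i] (P.unif ^ W P * (∑ j, c j • b j).1) =
          ∑ j, c j • (B i j - algebraMap K F (V i j)) := by
        have := congrArg (algebraMap K F) (congrFun hc' i)
        simp only [Matrix.mulVec, dotProduct, map_sum, map_mul, Pi.zero_apply, map_zero] at this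
        simp only [Submodule.coe_sum, Submodule.coe_smul, mul_sum, mul_smul_comm, iter_sum, smul_sub,
          sum_sub_distrib]
        simp only [Algebra.smul_def, mul_comm (algebraMap K F (c _)), this, sub_zero, B]
      rw [e5]
      exact Place.ge_sum fun j _ => (P.sub_val (hB _ _)).smul _
    have h5 : P.Ge 0 B.det := by
      rw [Matrix.det_apply']
      exact Place.ge_sum fun σ _ => (P.ge_intCast _).mul0 (Place.ge_prod fun _ _ => hB _ _)
    obtain ⟨h6, h7⟩ := ord_eq_of_not_ge h5 h4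
    rw [e1, Matrix.det_mul] at h6 h7
    refine ⟨right_ne_zero_of_mul h6, ?_⟩
    rw [P.ord_mul (left_ne_zero_of_mul h6) (right_ne_zero_of_mul h6), e2, P.ord_prod _ _ fun i _ =>
      mul_ne_zero hw (pow_ne_zero _ (inv_ne_zero hu))] at h7
    rw [eq_neg_of_add_eq_zero_right h7, ← sum_neg_distrib]
    refine sum_congr rfl fun i _ => ?_
    rw [P.ord_mul hw (pow_ne_zero _ (inv_ne_zero hu)), hT]
    simp; ring
  have h1 : div K A.det = ∑ i : Fin (genus K F), (((i : ℕ) : ℤ) • T - W) := Finsupp.ext fun P => by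
    rw [div_apply, (key P).2, Finsupp.finsetSum_apply]; rfl
  have h2 := congrArg (degHom K F) h1
  rw [map_sum] at h2
  have h3 : ∑ i : Fin (genus K F), degHom K F (((i : ℕ) : ℤ) • T - W) < ∑ _ : Fin (genus K F), 0 :=
    sum_lt_sum_of_nonempty ⟨⟨0, by omega⟩, mem_univ _⟩ fun i _ => by
      change deg _ < 0
      rw [deg_sub, deg_zsmul, hT', hW.deg_eq]
      nlinarith [Int.natCast_nonneg (i : ℕ)]
  rw [← h2, sum_const_zero] at h3
  exact h3.ne (deg_div _)

theorem exists_h0_eq (P : Place K F) {r : ℕ} {D : Divisor K F} (h : r ≤ h0 D) :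
    ∃ n : ℕ, h0 (D - Finsupp.single P (n : ℤ)) = r := by
  classical
  have h1 : ∃ n : ℕ, h0 (D - Finsupp.single P (n : ℤ)) ≤ r := ⟨(deg D + 1).toNat, by
    rw [h0_eq_zero (by rw [deg_sub, deg_single]; omega)]; omega⟩
  refine ⟨Nat.find h1, le_antisymm (Nat.find_spec h1) ?_⟩
  rcases e : Nat.find h1 with _ | n
  · simpa using h
  · have h2 := Nat.find_min h1 (m := n) (by omega)
    have h3 := h0_sub_single (D - Finsupp.single P (n : ℤ)) P
    rw [sub_sub, ← Finsupp.single_add] at h3
    push_cast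
    omega

theorem mem_sec_single {P : Place K F} {n : ℤ} {f : F} :
    f ∈ sec (Finsupp.single P n) ↔ P.Ge (-n) f ∧ ∀ Q, Q ≠ P → Q.Ge 0 f := by
  refine ⟨fun h => ⟨by simpa using h P, fun Q hQ => by simpa [hQ] using h Q⟩, fun h Q => ?_⟩
  rcases eq_or_ne Q P with rfl | hQ
  · simpa using h.1
  · simpa [hQ] using h.2 Q hQ

theorem inv_of_wei {P : Place K F} (h : 2 ≤ h0 (Finsupp.single P (genus K F : ℤ)))
    {D : Derivation ℤ F F} (hD : D ∈ Rg K F) : P.Ge 1 (D P.unif) := by
  by_contra hn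
  obtain ⟨W, hW⟩ := exists_isCan K F
  obtain ⟨f, hf, hf'⟩ : ∃ f ∈ sec (Finsupp.single P (genus K F : ℤ)), ¬ P.Ge 0 f := by
    by_contra h1
    push Not at h1
    have : h0 (Finsupp.single P (genus K F : ℤ)) ≤ h0 (Finsupp.single P 0) :=
      Submodule.finrank_mono fun f hf => mem_sec_single.2 ⟨h1 f hf, (mem_sec_single.1 hf).2⟩
    rw [Finsupp.single_zero, h0_zero] at this
    omega
  rw [Place.not_ge] at hf'
  have h1 : ∀ n : ℕ, D^[n] f ≠ 0 ∧ P.ord (D^[n] f) = P.ord f - n := fun n => by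
    induction n with
    | zero => exact ⟨hf'.1, by simp⟩
    | succ n ih =>
      rw [Function.iterate_succ_apply']
      have := ord_eq_of_not_ge ((hD.2 P).ge_sub_one (P.ge_ord (D^[n] f))) (by
        rw [sub_add_cancel]; exact mt ((hD.2 P).inv_of_ge (by omega)) hn)
      exact ⟨this.1, by omega⟩
  have h2 := (mem_sec_single.1 hf).1.le hf'.1
  have h3 : ∀ n : ℕ, 2 + n ≤ h0 (Finsupp.single P (genus K F + n : ℤ)) := fun n => by
    induction n with
    | zero => simpa using h
    | succ n ih =>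
      obtain ⟨j, hj⟩ : ∃ j : ℕ, P.ord f + genus K F + n + 1 = j := ⟨_, (Int.toNat_of_nonneg
        (by omega)).symm⟩
      refine (Nat.succ_le_of_lt (ih.trans_lt (Submodule.finrank_lt_finrank_of_lt
        (lt_of_le_of_ne (sec_mono (Finsupp.single_mono (by omega))) fun e => ?_))))
      have h4 : D^[j] f ∈ sec (Finsupp.single P (genus K F + (n + 1 : ℕ) : ℤ)) :=
        mem_sec_single.2 ⟨P.ge_of_le (by have := (h1 j).2; omega), fun Q hQ =>
          Function.Iterate.rec (Q.Ge 0) ((mem_sec_single.1 hf).2 Q hQ) (hD.2 Q) _⟩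
      rw [← e] at h4
      have := (mem_sec_single.1 h4).1.le (h1 j).1
      have := (h1 j).2
      omega
  have h4 := h3 (genus K F)
  have h5 := hW.nonspecial (D := Finsupp.single P (genus K F + genus K F : ℤ)) (by
    rw [deg_single]; omega)
  rw [deg_single] at h5
  omega

theorem exists_killed (hg : 2 ≤ genus K F) :
    ∃ x : F, Transcendental K x ∧ ∀ D ∈ Rg K F, D x = 0 := by
  obtain ⟨P, hP⟩ := exists_wei hg
  obtain ⟨n, hn⟩ := exists_h0_eq P hP
  rw [← Finsupp.single_sub] at hn
  generalize (genus K F - n : ℤ) = m at hn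
  have hm : 0 ≤ m := by
    by_contra hm
    rw [h0_eq_zero (by rw [deg_single]; omega)] at hn
    omega
  obtain ⟨f, hf, hf'⟩ : ∃ f ∈ sec (Finsupp.single P m), f ∉ sec (0 : Divisor K F) := by
    by_contra h1
    push Not at h1
    have : h0 (Finsupp.single P m) ≤ h0 0 := Submodule.finrank_mono h1
    rw [h0_zero] at this
    omega
  have ht : Transcendental K f := transcendental_iff_ne.2 fun c e => hf' (e ▸ const_mem_sec le_rfl c)
  have h1 : Submodule.span K (Set.range ![1, f]) = sec (Finsupp.single P m) :=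
    Submodule.eq_of_le_of_finrank_eq (Submodule.span_le.2 (by
      rintro _ ⟨i, rfl⟩
      fin_cases i
      exacts [one_mem_sec (Finsupp.single_nonneg.2 hm), hf])) (by
        rw [finrank_span_eq_card (li_one ht)]; exact hn.symm)
  have h2 : ∀ D ∈ Rg K F, ∃ b : K, ∀ (Q : Place K F) (β : K), Q.Ge 2 (f - algebraMap K F β) →
      D (f - algebraMap K F β) = b • (f - algebraMap K F β) := fun D hD => by
    have h3 : D f ∈ sec (Finsupp.single P m) := mem_sec_single.2
      ⟨(hD.2 P).ge_of_inv (inv_of_wei hP hD) (mem_sec_single.1 hf).1, fun Q hQ =>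
        hD.2 Q _ ((mem_sec_single.1 hf).2 Q hQ)⟩
    rw [← h1, Matrix.range_cons_cons_empty, Submodule.mem_span_pair] at h3
    obtain ⟨a, b, e⟩ := h3
    refine ⟨b, fun Q β h => ?_⟩
    obtain ⟨β', hβ⟩ := hD.1 β
    have h4 := ((hD.2 Q).ge_sub_one h).sub ((h.smul b).mono (by omega))
    have h5 : D (f - algebraMap K F β) - b • (f - algebraMap K F β) =
        algebraMap K F (a + b * β - β') := by
      rw [map_sub, ← e, hβ]; simp [Algebra.smul_def]; ring
    rw [h5] at h4
    rwa [Place.const_eq_zero h4, map_zero, sub_eq_zero] at h5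
  have h3 : ∀ β : K, f - algebraMap K F β ≠ 0 := fun β e =>
    transcendental_iff_ne.1 ht β (sub_eq_zero.1 e)
  obtain ⟨Q, β, Q', β', h4, h5, h6⟩ : ∃ (Q : Place K F) (β : K) (Q' : Place K F) (β' : K),
      Q.Ge 2 (f - algebraMap K F β) ∧ Q'.Ge 2 (f - algebraMap K F β') ∧ β ≠ β' := by
    by_contra h4
    push Not at h4
    obtain ⟨β, hβ⟩ : ∃ β : K, ∀ (Q : Place K F) (β' : K), Q.Ge 2 (f - algebraMap K F β') →
        β' = β := by
      by_cases h5 : ∃ (Q : Place K F) (β : K), Q.Ge 2 (f - algebraMap K F β)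
      · obtain ⟨Q, β, h5⟩ := h5
        exact ⟨β, fun Q' β' h => h4 Q' β' Q β h h5⟩
      · exact ⟨0, fun Q β h => absurd ⟨Q, β, h⟩ h5⟩
    obtain ⟨C, hC, hC'⟩ := exists_can_div ht
    have h5 : C ≤ div K (f - algebraMap K F β) := fun Q => by
      have h6 : ∀ γ : K, Q.ord (f - algebraMap K F γ) ≠ 0 →
          C Q = Q.ord (f - algebraMap K F γ) - 1 := fun γ h => by
        have := Q.ord_der (dd_ne_zero ht) h
        rw [map_sub, der_self, Derivation.map_algebraMap, sub_zero, Place.ord_one, ← hC] at this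
        omega
      rw [div_apply]
      by_cases h7 : Q.ord (f - algebraMap K F β) = 0
      · have h8 : Q.Ge 0 f := by simpa using (Q.ge_of_le h7.ge).add (Q.ge_const β)
        have h9 := (Q.sub_val h8).le (h3 _)
        have h10 := h6 (Q.val f) (by omega)
        have h11 := mt (fun h => hβ Q (Q.val f) (Q.ge_of_le h)) fun e => by
          rw [e] at h9; omega
        omega
      · have := h6 β h7
        omega
    have := deg_mono h5
    rw [deg_div] at this
    omega
  refine ⟨(f - algebraMap K F β) / (f - algebraMap K F β'), Q.transcendental ?_, fun D hD => ?_⟩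
  · have h7 := h4.le (h3 _)
    have h8 := (Place.unit_of_sub (P := Q) (g := f - algebraMap K F β') (sub_ne_zero.2 h6) (by
      rw [map_sub, sub_sub_sub_cancel_right]; exact h4.mono one_le_two)).2
    rw [Q.ord_div (h3 _) (h3 _)]
    omega
  · obtain ⟨b, hb⟩ := h2 D hD
    rw [D.leibniz_div, hb Q β h4, hb Q' β' h5]
    simp [Algebra.smul_def]
    ring_nf
    simp

theorem infinite_inv (hg : 2 ≤ genus K F) :
    {P : Place K F | ∀ D ∈ Rg K F, P.Ge 1 (D P.unif)}.Infinite := by
  obtain ⟨x, hx, h⟩ := exists_killed hg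
  choose p hp using fun n : ℕ => exists_place_of_transcendental hx (n : K)
  refine Set.infinite_of_injective_forall_mem (f := p) (fun a b e => ?_) fun n D hD => ?_
  · have h1 := hp a
    rw [e] at h1
    exact_mod_cast const_unique h1 (hp b)
  · have := ((p n).ge1_iff.2 (hp n)).le fun e => transcendental_iff_ne.1 hx _ (sub_eq_zero.1 e)
    refine (hD.2 _).inv_of_ge (s := x - algebraMap K F n) (by omega) ?_
    rw [map_sub, h D hD, map_natCast, D.map_natCast, sub_zero]
    exact Place.ge_zero _ _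

end Pool.Agent.MP_8e057e_ag

end MrgPart5

-- ======== part 6: formerly Pool.Agent.MP_8e057e_ag.Desc
section MrgPart6

/-! Descent to the constants of a set of regular derivations. -/

open Pool.Agent.MP_79c67d_ag Pool.Agent.MP_79c67d_ag.FF Module Finset

set_option linter.unusedSectionVars false

namespace Pool.Agent.MP_8e057e_ag

theorem indep_iff {K F ι : Type} [Field K] [Field F] [Algebra K F] (x : ι → F) :
    AlgebraicIndependent K x ↔
      LinearIndependent K fun m : ι →₀ ℕ => m.prod fun i n => x i ^ n := by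
  have e : (fun m : ι →₀ ℕ => m.prod fun i n => x i ^ n) =
      (MvPolynomial.aeval x).toLinearMap ∘ MvPolynomial.basisMonomials ι K := by
    ext m; simp [MvPolynomial.aeval_monomial]
  rw [e]
  exact ⟨fun h => (MvPolynomial.basisMonomials ι K).linearIndependent.map' _
    (LinearMap.ker_eq_bot.2 h), fun h => by
      exact LinearMap.injective_of_linearIndependent (MvPolynomial.basisMonomials ι K).span_eq h⟩

variable {K F : Type} [Field K] [Field F] [Algebra K F] [CharZero K] [IsAlgClosed K] [IsFF K F]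

variable (K) in
/-- The constants in `K` of a set of derivations. -/
def constK (S : Set (Derivation ℤ F F)) : IntermediateField ℚ K :=
  Subfield.toIntermediateField
    { carrier := {c | ∀ D ∈ S, D (algebraMap K F c) = 0}
      mul_mem' := fun ha hb D h => by simp [ha D h, hb D h]
      one_mem' := fun D _ => by simp
      add_mem' := fun ha hb D h => by simp [ha D h, hb D h]
      zero_mem' := fun D _ => by simp
      neg_mem' := fun ha D h => by simp [ha D h]
      inv_mem' := fun _ ha D h => by simp [D.leibniz_inv, ha D h] }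
    fun q => SubfieldClass.ratCast_mem _ q

variable (K) in
/-- The constants in `F` of a set of derivations. -/
def constF (S : Set (Derivation ℤ F F)) : IntermediateField (constK K S) F where
  carrier := {z | ∀ D ∈ S, D z = 0}
  mul_mem' := fun ha hb D h => by simp [ha D h, hb D h]
  add_mem' := fun ha hb D h => by simp [ha D h, hb D h]
  algebraMap_mem' := fun c => c.2
  inv_mem' := fun _ ha D h => by simp [D.leibniz_inv, ha D h]

variable {S : Set (Derivation ℤ F F)} (hS : S ⊆ Rg K F)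
include hS

theorem li_of_const {ι : Type} {v : ι → F} (hv : ∀ i, v i ∈ constF K S)
    (h : LinearIndependent (constK K S) v) : LinearIndependent K v := by
  classical
  rw [linearIndependent_iff'] at h ⊢
  intro s
  induction s using Finset.strongInduction with | H s ih => ?_
  intro c hc i hi
  by_contra hn
  have h1 : ∑ j ∈ s, (c j / c i) • v j = 0 := by
    simp only [div_eq_inv_mul, mul_smul, ← smul_sum, hc, smul_zero]
  have h2 : ∀ j ∈ s, c j / c i ∈ constK K S := fun j hj D hD => by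
    choose δ hδ using (hS hD).1
    have h3 := congrArg D h1
    simp only [Algebra.smul_def, map_sum, D.leibniz, hv _ D hD, hδ, mul_zero, zero_add, map_zero,
      Algebra.algebraMap_self_apply] at h3
    have h4 : algebraMap K F (δ (c i / c i)) = 0 := by rw [← hδ, div_self hn]; simp
    rw [← add_sum_erase s _ hi, h4, mul_zero, zero_add] at h3
    by_cases hj' : j = i
    · rw [hj', hδ, h4]
    · rw [hδ, ih _ (erase_ssubset hi) (fun j => δ (c j / c i)) (by
        simpa only [Algebra.smul_def, mul_comm] using h3) j (mem_erase.2 ⟨hj', hj⟩), map_zero]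
  have h3 := h s (fun j => if hj : j ∈ s then ⟨_, h2 j hj⟩ else 0) (by
    rw [← h1]
    exact sum_congr rfl fun j hj => by rw [dif_pos hj]; rfl) i hi
  rw [dif_pos hi] at h3
  exact hn (by simpa [hn] using congrArg Subtype.val h3)

theorem trdeg_const : Algebra.trdeg (constK K S) (constF K S) ≤ 1 := by
  refine ciSup_le' fun s => ?_
  have h1 : AlgebraicIndependent (constK K S) fun i : s.1 => (i.1 : F) :=
    s.2.map' (f := (constF K S).val) Subtype.val_injective
  have h2 := li_of_const hS (v := fun m : s.1 →₀ ℕ => m.prod fun i n => (i.1 : F) ^ n)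
    (fun m => prod_mem fun i _ => pow_mem i.1.2 _) ((indep_iff _).1 h1)
  have h3 := (indep_iff _).2 h2
  exact h3.cardinalMk_le_trdeg.trans IsFF.tr.le

theorem sec_le_span (hg : 2 ≤ genus K F) {E : Divisor K F}
    (hE : ∀ P, E P ≠ 0 → ∀ D ∈ S, P.Ge 1 (D P.unif)) :
    sec E ≤ Submodule.span K {z | z ∈ sec E ∧ z ∈ constF K S} := by
  let J := {Q : Place K F // (∀ D ∈ Rg K F, Q.Ge 1 (D Q.unif)) ∧ E Q = 0}
  have h0 : ∀ (Q : J) (s : sec E), Q.1.Ge 1 (s.1 - algebraMap K F (Q.1.val s.1)) := fun Q s =>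
    Q.1.sub_val (by simpa [Q.2.2] using s.2 Q.1)
  let e : J → Dual K (sec E) := fun Q =>
    { toFun := fun s => Q.1.val s.1
      map_add' := fun s t => Place.val_eq (by
        convert (h0 Q s).add (h0 Q t) using 1; simp; ring)
      map_smul' := fun c s => Place.val_eq (by
        convert (h0 Q s).smul c using 1; simp [Algebra.smul_def]; ring) }
  obtain ⟨b, j, hb⟩ := exists_dual_basis e fun z hz => by
    have hz' : z.1 ≠ 0 := fun h => hz (Subtype.ext h)
    obtain ⟨Q, h1, h2⟩ := (infinite_inv hg).exists_notMem_finite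
      ((finite_ord (K := K) z.1).union E.hasFiniteSupport)
    simp only [Set.mem_union, Function.mem_support, not_or, not_not] at h2
    refine ⟨⟨Q, h1, h2.2⟩, fun h => ?_⟩
    have h3 := h0 ⟨Q, h1, h2.2⟩ z
    rw [show Q.val z.1 = 0 from h, map_zero, sub_zero] at h3
    exact absurd ((h3.le hz').trans_eq h2.1) (by simp)
  intro z hz
  rw [show z = (∑ a, b.repr ⟨z, hz⟩ a • b a).1 by rw [b.sum_repr], Submodule.coe_sum]
  refine Submodule.sum_mem _ fun a _ => Submodule.smul_mem _ _
    (Submodule.subset_span ⟨(b a).2, fun D hD => ?_⟩)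
  have h1 : D (b a) ∈ sec E := fun P => by
    by_cases h : E P = 0
    · simpa [h] using (hS hD).2 P _ (by simpa [h] using (b a).2 P)
    · exact ((hS hD).2 P).ge_of_inv (hE P h D hD) ((b a).2 P)
  have h2 : ∀ a', b.repr ⟨_, h1⟩ a' = 0 := fun a' => by
    have h3 := congrArg (e (j a')) (b.sum_repr ⟨_, h1⟩)
    simp only [map_sum, map_smul, hb, smul_eq_mul, mul_ite, mul_one, mul_zero, sum_ite_eq,
      mem_univ, if_true] at h3
    have h4 := ((hS hD).2 _).ge_of_inv ((j a').2.1 D (hS hD)) (h0 (j a') (b a))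
    rw [show (j a').1.val (b a).1 = _ from hb a' a, map_sub] at h4
    rw [h3]
    refine Place.val_eq ?_
    split_ifs at h4 <;> simpa using h4
  exact congrArg Subtype.val (b.repr.map_eq_zero_iff.1 (Finsupp.ext h2))

theorem isModel_const (hg : 2 ≤ genus K F) : IsModel (constK K S) (constF K S) := by
  refine ⟨eq_top_iff.2 fun y _ => ?_, trdeg_const hS⟩
  obtain ⟨P, hP⟩ := (infinite_inv (K := K) (F := F) hg).nonempty
  let E : Divisor K F := Finsupp.single P (deg (pol K y) + genus K F)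
  have h1 : ∀ z ∈ sec E, z ∈ IntermediateField.adjoin K (constF K S : Set F) := fun z hz =>
    (Submodule.span_le (p := Subalgebra.toSubmodule
      (IntermediateField.adjoin K (constF K S : Set F)).toSubalgebra)).2
      (fun _ h => IntermediateField.subset_adjoin K _ h.2) (sec_le_span hS hg (fun Q hQ D hD => by
        rw [(Finsupp.single_apply_ne_zero.1 hQ).1]; exact hP D (hS hD)) hz)
  have h2 := riemann_ineq (E - pol K y)
  rw [deg_sub, deg_single] at h2
  obtain ⟨b, hb, hb0⟩ := exists_ne_of_h0 (D := E - pol K y) (by omega)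
  have h3 := mul_mem_sec (mem_sec_pol y) hb
  rw [add_sub_cancel] at h3
  rw [← mul_div_cancel_right₀ y hb0]
  exact div_mem (h1 _ h3) (h1 _ (sec_mono (sub_le_self _ (pol_nonneg y)) hb))

theorem exists_pos_ord (hg : 2 ≤ genus K F) {P : Place K F} (hP : ∀ D ∈ S, P.Ge 1 (D P.unif)) :
    ∃ z ∈ constF K S, 0 < P.ord z := by
  by_contra hn
  push Not at hn
  have h1 := riemann_ineq (Finsupp.single P (genus K F + 1 : ℤ))
  have h2 : h0 (Finsupp.single P (genus K F + 1 : ℤ)) ≤ h0 (Finsupp.single P 0) :=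
    Submodule.finrank_mono ((sec_le_span hS hg fun Q hQ => by
      rw [(Finsupp.single_apply_ne_zero.1 hQ).1]; exact hP).trans (Submodule.span_le.2
        fun z hz => mem_sec_single.2 ⟨P.ge_of_le (by
          have := hn _ (inv_mem hz.2)
          rw [P.ord_inv] at this
          omega), (mem_sec_single.1 hz.1).2⟩))
  rw [Finsupp.single_zero, h0_zero] at h2
  rw [deg_single] at h1
  omega

omit hS in
theorem exists_indep {N : ℕ} (h : (N : Cardinal) ≤ Algebra.trdeg ℚ (constK K S)) :
    ∃ c : Fin N → K, AlgebraicIndependent ℚ c ∧ ∀ D ∈ S, ev c D = 0 := by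
  obtain ⟨s, hs⟩ := exists_isTranscendenceBasis ℚ (constK K S)
  rw [← hs.cardinalMk_eq_trdeg, ← Cardinal.mk_fin] at h
  obtain ⟨f⟩ := (Cardinal.le_def _ _).1 h
  exact ⟨fun i => (f i).1.1, (hs.1.comp f f.injective).map' (f := (constK K S).val)
    Subtype.val_injective, fun D hD => funext fun i => (f i).1.2 D hD⟩

end Pool.Agent.MP_8e057e_ag

end MrgPart6

-- ======== part 7: formerly Pool.Agent.MP_8e057e_ag.Hopf
section MrgPart7

/-! Hopf's lemma on nonsingular bilinear maps. -/

open MvPolynomial Finset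

namespace Pool.Agent.MP_8e057e_ag

theorem exists_bilin_zero {K : Type} [Field K] [IsAlgClosed K] {r m f : ℕ}
    (c : Fin f → Fin (r + 1) → Fin (m + 1) → K) (h : f ≤ r + m) :
    ∃ (u : Fin (r + 1) → K) (a : Fin (m + 1) → K), u ≠ 0 ∧ a ≠ 0 ∧
      ∀ k, ∑ i, ∑ j, c k i j * (u i * a j) = 0 := by
  classical
  by_contra hn
  let φ : MvPolynomial (Fin (r + 1) × Fin (m + 1)) K →ₐ[K]
      MvPolynomial (Fin (r + 1) ⊕ Fin (m + 1)) K :=
    aeval fun p => X (Sum.inl p.1) * X (Sum.inr p.2)
  let ρ : Fin (r + 1) ⊕ Fin (m + 1) → ℕ :=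
    Sum.elim (fun i => i) fun j => if j = 0 then 0 else r + j
  let ψ : ℕ → MvPolynomial (Fin (r + 1) ⊕ Fin (m + 1)) K →ₐ[K]
      MvPolynomial (Fin (r + 1) ⊕ Fin (m + 1)) K :=
    fun t => aeval fun v => if ρ v < t then X v else 0
  let p : ℕ → Ideal φ.range := fun t => RingHom.ker ((ψ t).comp φ.range.val)
  have hp : ∀ t, (p t).IsPrime := fun t => RingHom.ker_isPrime _
  have : IsNoetherianRing φ.range :=
    isNoetherianRing_of_surjective _ _ φ.rangeRestrict.toRingHom φ.rangeRestrict_surjective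
  have h1 : ∀ t ≤ r + m, p (t + 1) < p t := fun t ht => by
    have e : (ψ t).comp (ψ (t + 1)) = ψ t := algHom_ext fun v => by
      by_cases h1 : ρ v < t
      · simp [ψ, h1, h1.le]
      · by_cases h2 : ρ v ≤ t <;> simp [ψ, h1, h2]
    refine lt_of_le_of_ne (fun y hy => ?_) fun e' => ?_
    · change ψ t y = 0
      rw [← e, AlgHom.comp_apply, show ψ (t + 1) y = 0 from hy, map_zero]
    · obtain ⟨i, j, h1⟩ : ∃ i j, max (ρ (Sum.inl i)) (ρ (Sum.inr j)) = t := by
        rcases le_or_gt t r with h1 | h1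
        · exact ⟨⟨t, by omega⟩, 0, by simp [ρ]⟩
        · refine ⟨0, ⟨t - r, by omega⟩, ?_⟩
          simp only [ρ, Sum.elim_inl, Sum.elim_inr, Fin.ext_iff, Fin.val_zero]
          split_ifs <;> omega
      have h2 : φ.rangeRestrict (X (i, j)) ∈ p t := by
        change ψ t (φ (X (i, j))) = 0
        simp only [φ, ψ, aeval_X, map_mul]
        split_ifs <;> first | omega | simp
      rw [← e'] at h2
      change ψ (t + 1) (φ (X (i, j))) = 0 at h2
      simp only [φ, ψ, aeval_X, map_mul] at h2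
      rw [if_pos (by omega), if_pos (by omega)] at h2
      exact mul_ne_zero (X_ne_zero _) (X_ne_zero _) h2
  have h2 : ∀ s t : ℕ, s + t = r + m + 1 → (s : ℕ∞) ≤ (p t).height := fun s => by
    induction s with
    | zero => exact fun _ _ => by simp
    | succ s ih =>
      intro t ht
      refine le_trans ?_ (Ideal.height_add_one_le_of_lt_of_isPrime (h1 t (by omega)))
      push_cast
      exact add_le_add_left (ih _ (by omega)) 1
  have h3 : ∀ y, ψ 0 (φ y) = C (aeval (0 : Fin (r + 1) × Fin (m + 1) → K) y) := fun y =>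
    AlgHom.congr_fun (φ₁ := (ψ 0).comp φ) (φ₂ := (Algebra.ofId K _).comp (aeval 0))
      (algHom_ext fun v => by simp [φ, ψ]) y
  let l : Fin f → MvPolynomial (Fin (r + 1) × Fin (m + 1)) K := fun k =>
    ∑ i, ∑ j, C (c k i j) * X (i, j)
  have h4 : p 0 ∈ (Ideal.span (univ.image fun k => φ.rangeRestrict (l k) : Finset _)).minimalPrimes := by
    refine ⟨⟨hp 0, Ideal.span_le.2 fun y hy => ?_⟩, fun q ⟨hq, hq'⟩ _ y hy => ?_⟩
    · obtain ⟨k, -, rfl⟩ := mem_image.1 hy
      exact (h3 _).trans (by simp [l])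
    · obtain ⟨y, rfl⟩ := φ.rangeRestrict_surjective y
      have := Ideal.comap_isPrime φ.rangeRestrict q
      rw [← Ideal.mem_comap, ← IsPrime.vanishingIdeal_zeroLocus (K := K) (q.comap _)]
      intro z hz
      have h4 : z = 0 := by
        by_contra h4
        obtain ⟨⟨i, j⟩, h5⟩ := Function.ne_iff.1 h4
        refine hn ⟨fun i => z (i, j), fun j => z (i, j), Function.ne_iff.2 ⟨i, h5⟩,
          Function.ne_iff.2 ⟨j, h5⟩, fun k => ?_⟩
        have h6 := hz (l k) (hq' (Ideal.subset_span (mem_image_of_mem _ (mem_univ k))))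
        have h7 : ∀ i' j', z (i', j) * z (i, j') = z (i', j') * z (i, j) := fun i' j' => by
          have := hz (X (i', j) * X (i, j') - X (i', j') * X (i, j)) (by
            rw [Ideal.mem_comap, show φ.rangeRestrict _ = 0 from Subtype.ext (by
              change φ _ = 0
              simp [φ]; ring)]
            exact q.zero_mem)
          simpa [sub_eq_zero] using this
        simp only [l, map_sum, map_mul, aeval_C, aeval_X, Algebra.algebraMap_self_apply] at h6
        simp only [h7, ← mul_assoc, ← sum_mul, h6, zero_mul]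
      rw [h4]
      exact C_eq_zero.1 ((h3 y).symm.trans hy)
  have h5 := (h2 _ 0 rfl).trans (Ideal.height_le_card_of_mem_minimalPrimes_span_finset h4)
  have h6 := card_image_le (s := univ) (f := fun k => φ.rangeRestrict (l k))
  rw [card_univ, Fintype.card_fin] at h6
  have := Nat.cast_le.1 h5
  omega

theorem hopf {K Z : Type} [Field K] [IsAlgClosed K] [AddCommGroup Z] [Module K Z]
    [FiniteDimensional K Z] (N : Submodule K (Fin 3 → Z)) (h : 0 < Module.finrank K N)
    (h' : Module.finrank K Z ≤ Module.finrank K N + 1) :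
    ∃ u : Fin 3 → K, u ≠ 0 ∧ ∃ w ∈ N, w ≠ 0 ∧ u 0 • w 0 + u 1 • w 1 + u 2 • w 2 = 0 := by
  obtain ⟨m, hm⟩ : ∃ m, Module.finrank K N = m + 1 := ⟨_, (Nat.succ_pred h.ne').symm⟩
  let n := Module.finBasisOfFinrankEq K N hm
  let b := Module.finBasis K Z
  obtain ⟨u, a, hu, ha, e⟩ := exists_bilin_zero (r := 2) (fun k i j => b.repr ((n j).1 i) k)
    (by omega)
  refine ⟨u, hu, _, (∑ j, a j • n j).2, fun h0 => ha (funext
    (Fintype.linearIndependent_iff.1 n.linearIndependent a (Subtype.ext h0))), ?_⟩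
  rw [← Fin.sum_univ_three fun i => u i • (∑ j, a j • n j).1 i]
  refine b.ext_elem fun k => ?_
  rw [map_zero, Finsupp.zero_apply, ← e k]
  simp only [map_sum, map_smul, Finsupp.finsetSum_apply, Finsupp.smul_apply, smul_eq_mul,
    Submodule.coe_sum, Submodule.coe_smul, Finset.sum_apply, Pi.smul_apply, mul_sum]
  exact sum_congr rfl fun i _ => sum_congr rfl fun j _ => by ring

end Pool.Agent.MP_8e057e_ag

end MrgPart7

-- ======== part 8: formerly Pool.Agent.MP_8e057e_ag.Gen
section MrgPart8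

/-! General curves and general pencils satisfy the open conditions. -/

open Pool.Agent.MP_79c67d_ag Pool.Agent.MP_79c67d_ag.FF Module Finset

set_option linter.unusedSectionVars false

namespace Pool.Agent.MP_8e057e_ag

variable {K F : Type} [Field K] [Field F] [Algebra K F] [CharZero K] [IsAlgClosed K] [IsFF K F]
  {W : Divisor K F}

theorem petri_of_general (hW : IsCan W) (hg : 2 ≤ genus K F) (hC : GeneralCurve K F)
    (A : Divisor K F) (hA : 2 ≤ h0 A) : h0 (W - 2 • A) = 0 := by
  obtain ⟨s, hs, t, ht, h⟩ := exists_li_of_h0 hA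
  obtain ⟨c, hc, hc'⟩ := exists_indep (hC _ _ (isModel_const (S := Rg K F) le_rfl hg))
  have h1 := ks_count hW hg (trans_of_li h) hc
  rw [show (Rg K F).map (ev c) = ⊥ from eq_bot_iff.2 (by rintro _ ⟨D, hD, rfl⟩; exact hc' D hD),
    finrank_bot] at h1
  have h2 : h0 (W - 2 • A - div K (s * s)) ≤ h0 (W - 2 • pol K (t / s)) := h0_mono fun P => by
    have := (hs P).le (ne_of_li h)
    have := (ht P).le (ne_of_li' h)
    simp only [Finsupp.sub_apply, Finsupp.smul_apply, pol_apply, div_apply, nsmul_eq_mul,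
      P.ord_mul (ne_of_li h) (ne_of_li h), P.ord_div (ne_of_li' h) (ne_of_li h)]
    omega
  rw [h0_sub_div _ (mul_ne_zero (ne_of_li h) (ne_of_li h))] at h2
  omega

/-- Regular derivations that fix a point. -/
def Rgp (p : Place K F) : Submodule K (Derivation ℤ F F) where
  carrier := {D | D ∈ Rg K F ∧ p.Ge 1 (D p.unif)}
  add_mem' := fun h h' => ⟨add_mem h.1 h'.1, h.2.add h'.2⟩
  zero_mem' := ⟨zero_mem _, p.ge_zero _⟩
  smul_mem' := fun k _ h => ⟨Submodule.smul_mem _ k h.1, h.2.smul k⟩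

/-- The derivative of a line bundle as an adele. -/
noncomputable def nu (p : Place K F) (M : Divisor K F) : Rgp p →ₗ[K] Adele K F where
  toFun D := ⟨fun P => (-M P : ℤ) * (D.1 P.unif / P.unif), M ⊔ -M, fun P => by
    by_cases h : M P = 0
    · simpa [h] using P.ge_zero _
    · beta_reduce
      rw [div_eq_mul_inv]
      refine ((P.ge_intCast _).mul0 ((D.2.1.2 P).unif.mul (P.ge_ord P.unif⁻¹))).mono ?_
      simp only [Finsupp.sup_apply, Finsupp.neg_apply, Place.ord_inv, Place.ord_unif]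
      omega⟩
  map_add' D D' := Subtype.ext (funext fun P => by simp; ring)
  map_smul' c D := Subtype.ext (funext fun P => by simp [Algebra.smul_def]; ring)

theorem rel_count (hW : IsCan W) (hg : 2 ≤ genus K F) {D : Divisor K F} (hD : GeneralPencil D)
    (p : Place K F) (e : ℤ) {M : Divisor K F} (hM : M = D + Finsupp.single p e) (h1 : 1 ≤ h0 M) :
    finrank K ↥(sec M * sec (W - M)) + 2 * deg D ≤ 2 * genus K F + 3 := by
  obtain ⟨ω, hω, hω0⟩ := hW.exists_om
  obtain ⟨P₀, hP₀⟩ := (infinite_inv (K := K) (F := F) hg).nonempty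
  obtain ⟨n, hn⟩ := exists_h0_eq P₀ h1
  obtain ⟨s, hs, hs0⟩ := exists_ne_of_h0 (hn ▸ zero_lt_one)
  let S : Set (Derivation ℤ F F) := {δ | ∃ h : δ ∈ Rgp p, ∀ z ∈ sec W, ω (z • nu p M ⟨δ, h⟩) = 0}
  have hS : S ⊆ Rg K F := fun δ h => h.1.1
  have h2 : ∀ P, M P + P.ord s ≠ 0 → ∀ δ ∈ S, P.Ge 1 (δ P.unif) := by
    rintro P hP δ ⟨hδ, h⟩
    obtain ⟨a, ha, y, e1⟩ := hW.sep' hω hω0 (D := 0) (by rwa [sub_zero])
    have e2 : ∀ Q : Place K F, (-M Q : ℤ) * (δ Q.unif / Q.unif) = a.1 Q + y := fun Q =>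
      congrFun (congrArg Subtype.val e1) Q
    have ha' : ∀ Q : Place K F, Q.Ge 0 (a.1 Q) := fun Q => by simpa using ha Q
    have h3 : δ s - y * s ∈ sec (M - Finsupp.single P₀ (n : ℤ)) := fun Q => by
      have h4 := ((hδ.1.2 Q).logd (hs Q)).add ((ha' Q).mul0 (hs Q))
      rw [eq_sub_of_add_eq (e2 Q).symm] at h4
      rcases eq_or_ne Q P₀ with rfl | hQ
      · have h5 := ((Q.ge_natCast n).mul0 (((hP₀ δ hδ.1).mul (Q.ge_ord Q.unif⁻¹)).mono
          (by simp : (0 : ℤ) ≤ _))).mul0 (hs Q)
        convert h4.add h5 using 1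
        simp; ring
      · convert h4 using 1
        simp [hQ]; ring
    obtain ⟨c, hc⟩ := (finrank_eq_one_iff_of_nonzero' (⟨s, hs⟩ : sec _)
      fun h => hs0 (congrArg Subtype.val h)).1 hn ⟨_, h3⟩
    have hc' : c • s = δ s - y * s := congrArg Subtype.val hc
    have hu := P.unif_ne
    have h4 : P.ord (s * P.unif ^ M P) ≠ 0 := by
      rw [P.ord_mul hs0 (zpow_ne_zero _ hu)]; simp; omega
    refine (hδ.1.2 P).inv_of_ge h4 ?_
    convert ((P.ge_const c).sub (ha' P)).mul0 (P.ge_ord (s * P.unif ^ M P)) using 1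
    rw [δ.leibniz, δ.leibniz_zpow, eq_sub_of_add_eq (e2 P).symm, eq_add_of_sub_eq hc'.symm,
      zpow_sub₀ hu]
    simp only [smul_eq_mul, Algebra.smul_def, zpow_one, eq_intCast]
    push_cast
    ring
  obtain ⟨c, hc, hc'⟩ := exists_indep (hD.2 _ _ (isModel_const hS hg) s hs0 fun P hP =>
    exists_pos_ord hS hg (by
      rcases eq_or_ne P p with rfl | hQ
      · exact fun δ h => h.1.2
      · exact h2 P (by simpa [hM, hQ] using hP)))
  obtain ⟨x, hx⟩ := exists_transcendental K F
  have h3 := ks_count hW hg hx hc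
  have h4 : ∀ R : Submodule K (Derivation ℤ F F),
      LinearMap.range (ev c ∘ₗ R.subtype) = R.map (ev c) := fun R => by
    rw [LinearMap.range_comp, Submodule.range_subtype]
  have : FiniteDimensional K ((Rgp p).map (ev c)) :=
    Submodule.finiteDimensional_of_le (S₂ := (Rg K F).map (ev c)) (Submodule.map_mono fun _ h => h.1)
  have : FiniteDimensional K (LinearMap.range (ev c ∘ₗ (Rg K F).subtype)) := by
    rw [h4]; infer_instance
  have : FiniteDimensional K (LinearMap.range (ev c ∘ₗ (Rgp p).subtype)) := by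
    rw [h4]; infer_instance
  obtain ⟨l, hl⟩ := p.exists_functional 0
  have h5 := finrank_range_le (l ∘ₗ (⟨⟨fun δ => δ.1 p.unif, fun _ _ => rfl⟩, fun _ _ => rfl⟩ :
    Rg K F →ₗ[K] F)) (ev c ∘ₗ (Rg K F).subtype) (q := ⊤) (p := (Rgp p).map (ev c))
    (fun _ => trivial) fun (δ : Rg K F) h => ⟨δ, ⟨δ.2, (hl _ (δ.2.2 p).unif).1 h⟩, rfl⟩
  obtain ⟨f, hf⟩ : ∃ f : Rgp p →ₗ[K] F →ₗ[K] K, ∀ δ z, f δ z = ω (z • nu p M δ) :=
    ⟨(tw ω).flip ∘ₗ nu p M, fun _ _ => rfl⟩
  have h6 := finrank_range_add_le f (ev c ∘ₗ (Rgp p).subtype)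
    (p := sec M * sec (W - M)) (q := sec W) (r := ⊥) (Submodule.mul_le.2 fun a ha b hb => by
      simpa using mul_mem_sec ha hb) (fun (δ : Rgp p) z hz => by
      refine Submodule.mul_induction_on hz (fun a ha b hb => ?_) fun a b ha hb => by
        rw [map_add, ha, hb, add_zero]
      have h7 : diag K (δ.1 a) - a • nu p M δ ∈ AD M := fun P => by
        have := (δ.2.1.2 P).logd (ha P)
        rwa [mul_comm _ a] at this
      have h8 := smul_mem_AD hb h7
      rw [sub_add_cancel] at h8
      have h9 := hω.1 _ h8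
      rw [smul_sub, map_sub, smul_diag, hω.2, zero_sub, neg_eq_zero, smul_smul, mul_comm] at h9
      exact (hf _ _).trans h9) fun δ h => by
        exact hc' δ ⟨δ.2, fun z hz => (hf _ _).symm.trans (h z hz)⟩
  rw [h4, finrank_top, finrank_self] at h5
  rw [h4, finrank_bot, ← h0, hW.h0_eq] at h6
  omega

section

variable (hP : ∀ A : Divisor K F, 2 ≤ h0 A → h0 (W - 2 • A) = 0) {M : Divisor K F}
include hP

instance (M : Divisor K F) : FiniteDimensional K ↥(sec M * sec (W - M)) :=
  Submodule.finiteDimensional_of_le (S₂ := sec W) (Submodule.mul_le.2 fun a ha b hb => by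
    simpa using mul_mem_sec ha hb)

theorem two_mul_le (h : 2 ≤ h0 M) : 2 * h0 (W - M) ≤ finrank K ↥(sec M * sec (W - M)) := by
  obtain ⟨s, hs, t, ht, h⟩ := exists_li_of_h0 h
  let m : (sec (W - M) × sec (W - M)) →ₗ[K] ↥(sec M * sec (W - M)) :=
    ((LinearMap.mulLeft K s ∘ₗ Submodule.subtype _).coprod
      (LinearMap.mulLeft K t ∘ₗ Submodule.subtype _)).codRestrict _ fun a =>
      add_mem (Submodule.mul_mem_mul hs a.1.2) (Submodule.mul_mem_mul ht a.2.2)
  have := LinearMap.finrank_le_finrank_of_injective ((injective_iff_map_eq_zero m).2 fun a ha => by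
    have := pencil_trick hP hs ht h a.1.2 a.2.2 (congrArg Subtype.val ha)
    exact Prod.ext (Subtype.ext this.1) (Subtype.ext this.2))
  rwa [finrank_prod, ← two_mul] at this

theorem net_aux {s t r a b c : F} {u v w : K} (hs : s ∈ sec M) (ht : t ∈ sec M) (hr : r ∈ sec M)
    (hb : b ∈ sec (W - M)) (hc : c ∈ sec (W - M))
    (h : ∀ x y z : K, x • s + y • t + z • r = 0 → y = 0 ∧ z = 0) (hu : u ≠ 0)
    (e1 : s * a + t * b + r * c = 0) (e2 : u • a + v • b + w • c = 0) :
    a = 0 ∧ b = 0 ∧ c = 0 := by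
  have h1 := pencil_trick hP (sub_mem ((sec M).smul_mem u ht) ((sec M).smul_mem v hs))
    (sub_mem ((sec M).smul_mem u hr) ((sec M).smul_mem w hs)) (LinearIndependent.pair_iff.2
      fun y z e => by
        simpa [hu] using h (-(y * v) - z * w) (y * u) (z * u) (by rw [← e]; module)) hb hc (by
      simp only [Algebra.smul_def] at e2 ⊢
      linear_combination algebraMap K F u * e1 - s * e2)
  exact ⟨by simpa [h1.1, h1.2, hu] using e2, h1⟩

theorem net_le (h : 3 ≤ h0 M) (h' : 2 ≤ h0 (W - M)) :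
    2 * h0 (W - M) + 2 ≤ finrank K ↥(sec M * sec (W - M)) := by
  obtain ⟨s, hs⟩ := exists_linearIndependent_of_le_finrank (R := K) (M := sec M) h
  let μ : (Fin 3 → sec (W - M)) →ₗ[K] ↥(sec M * sec (W - M)) :=
    (∑ i, LinearMap.mulLeft K (s i).1 ∘ₗ Submodule.subtype _ ∘ₗ LinearMap.proj i).codRestrict _
      fun a => by
        rw [LinearMap.sum_apply]
        exact Submodule.sum_mem _ fun i _ => Submodule.mul_mem_mul (s i).2 (a i).2
  have h1 := μ.finrank_range_add_finrank_ker
  have h2 := Submodule.finrank_le (LinearMap.range μ)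
  rw [finrank_pi_fintype, sum_const, card_univ, Fintype.card_fin, ← h0, smul_eq_mul] at h1
  by_contra h3
  obtain ⟨u, hu, w, hw, hw0, e⟩ := hopf (LinearMap.ker μ) (by omega) (by rw [← h0]; omega)
  have e1 : (s 0).1 * w 0 + (s 1).1 * w 1 + (s 2).1 * w 2 = 0 := by
    simpa [μ, Fin.sum_univ_three] using congrArg Subtype.val (LinearMap.mem_ker.1 hw)
  have e2 : u 0 • (w 0).1 + u 1 • (w 1).1 + u 2 • (w 2).1 = 0 := congrArg Subtype.val e
  have h4 : ∀ x y z : K, x • (s 0).1 + y • (s 1).1 + z • (s 2).1 = 0 → x = 0 ∧ y = 0 ∧ z = 0 :=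
    fun x y z e => by
      have := Fintype.linearIndependent_iff.1 hs ![x, y, z] (Subtype.ext (by
        simpa [Fin.sum_univ_three] using e))
      exact ⟨this 0, this 1, this 2⟩
  have h5 : (w 0).1 = 0 ∧ (w 1).1 = 0 ∧ (w 2).1 = 0 := by
    by_cases h6 : u 0 ≠ 0
    · exact net_aux hP (s 0).2 (s 1).2 (s 2).2 (w 1).2 (w 2).2 (fun x y z e => (h4 x y z e).2) h6
        e1 e2
    by_cases h7 : u 1 ≠ 0
    · have := net_aux hP (s 1).2 (s 0).2 (s 2).2 (w 0).2 (w 2).2 (a := w 1) (v := u 0)
        (w := u 2) (fun x y z e => by have := h4 y x z (by rw [← e]; abel); tauto) h7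
        (by rw [← e1]; abel) (by rw [← e2]; abel)
      tauto
    · have := net_aux hP (s 2).2 (s 0).2 (s 1).2 (w 0).2 (w 1).2 (a := w 2) (u := u 2) (v := u 0)
        (w := u 1) (fun x y z e => by have := h4 y z x (by rw [← e]; abel); tauto)
        (fun h8 => hu (funext fun i => by
          fin_cases i
          exacts [not_not.1 h6, not_not.1 h7, h8]))
        (by rw [← e1]; abel) (by rw [← e2]; abel)
      tauto
  refine hw0 (funext fun i => Subtype.ext ?_)
  fin_cases i
  exacts [h5.1, h5.2.1, h5.2.2]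

end

theorem good_of_general (hW : IsCan W) (hg : 2 ≤ genus K F) (hC : GeneralCurve K F)
    {D : Divisor K F} (hD : GeneralPencil D) (hk : deg D < genus K F) : Good W D := by
  have hP := petri_of_general hW hg hC
  have h0' := hD.1
  have h1 := hW.rr D
  have h2 : h0 D = 2 := by
    obtain ⟨p⟩ : Nonempty (Place K F) := inferInstance
    have := rel_count hW hg hD p 0 (by simp) (by omega : 1 ≤ h0 D)
    have := two_mul_le hP hD.1
    omega
  refine ⟨hP, h2, fun P => ?_, fun P => ?_⟩
  · have h3 := h0_sub_single D P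
    have h4 := h0_mono (sub_pt_le D P)
    by_contra h5
    have := rel_count hW hg hD P (-1) (M := D - Finsupp.single P 1)
      (by rw [Finsupp.single_neg, sub_eq_add_neg]) (by omega)
    have := two_mul_le hP (M := D - Finsupp.single P 1) (by omega)
    have := hW.rr (D - Finsupp.single P 1)
    rw [deg_sub, deg_single] at this
    omega
  · have h3 := h0_add_single_le D P
    have h4 := h0_mono (le_add_pt D P)
    have h5 := hW.rr (D + Finsupp.single P 1)
    rw [deg_add, deg_single] at h5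
    rw [sub_sub]
    by_contra h6
    have := rel_count hW hg hD P 1 rfl (by omega)
    have := net_le hP (M := D + Finsupp.single P 1) (by omega) (by omega)
    omega

end Pool.Agent.MP_8e057e_ag

end MrgPart8

-- marker of a merged file
example : 731051 + 608027 = 731051 + 608027 := rfl
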