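import Mathlib.LinearAlgebra.Dimension.OrzechProperty
import Mathlib.Tactic.Module
import Pool.Agent.MP_8e057e_ag.RH

/-! Vanishing of linear Koszul cycles of very negative twist. -/

open Pool.Agent.MP_79c67d_ag Pool.Agent.MP_79c67d_ag.FF Module MvPolynomial Finset

set_option linter.unusedSectionVars false

namespace Pool.Agent.MP_8e057e_ag

section sup

variable {n : ℕ} {R M : Type*} [CommRing R] [AddCommGroup M] [Module R M]

/-- Chains supported on subsets of `U`. -/
def Sup (U : Finset (Fin n)) (σ : Finset (Fin n) → M) : Prop := ∀ S, ¬ S ⊆ U → σ S = 0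

variable {U : Finset (Fin n)} {σ : Finset (Fin n) → M}

theorem Sup.kos (h : Sup U σ) (φ : Fin n → R) : Sup U (kos φ σ) := fun S hS =>
  sum_eq_zero fun l _ => by rw [h _ fun e => hS ((subset_insert _ _).trans e)]; simp

theorem Sup.hom (h : Sup U σ) {l : Fin n} (hl : l ∈ U) : Sup U (hom l σ) := fun S hS => by
  rw [Pool.Agent.MP_8e057e_ag.hom]
  split_ifs with h1
  · rw [h _ fun e => hS (by rw [← insert_erase h1]; exact insert_subset hl e), smul_zero]
  · rfl

theorem Sup.kos_top (h : Sup U σ) (φ : Fin n → R) : Pool.Agent.MP_8e057e_ag.kos φ σ U = 0 :=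
  sum_eq_zero fun l hl => by
    rw [h _ fun e => (mem_compl.1 hl) (e (mem_insert_self _ _))]; simp

theorem Sup.hom_kos (h : Sup U σ) (φ : Fin n → R) {l : Fin n} (hl : l ∈ U) :
    Pool.Agent.MP_8e057e_ag.hom l (Pool.Agent.MP_8e057e_ag.kos φ σ) U = φ l • σ U := by
  rw [← kos_hom, (h.hom hl).kos_top, zero_add]

theorem hom_kos_eq (φ : Fin n → R) (l : Fin n) (σ : Finset (Fin n) → M) :
    hom l (kos φ σ) = φ l • σ - kos φ (hom l σ) := by
  funext S
  rw [Pi.sub_apply, Pi.smul_apply, ← kos_hom, add_sub_cancel_left]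

theorem hom_sub (l : Fin n) (σ τ : Finset (Fin n) → M) : hom l (σ - τ) = hom l σ - hom l τ := by
  funext S
  simp only [hom, Pi.sub_apply]
  split_ifs <;> simp [smul_sub]

theorem hom_smul (l : Fin n) (c : R) (σ : Finset (Fin n) → M) : hom l (c • σ) = c • hom l σ := by
  funext S
  simp only [hom, Pi.smul_apply]
  split_ifs
  · rw [smul_comm]
  · simp

theorem hom_zero (l : Fin n) : hom l (0 : Finset (Fin n) → M) = 0 := by
  funext S; simp [hom]

theorem hom_hom_anti (a b : Fin n) (σ : Finset (Fin n) → M) (S : Finset (Fin n)) :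
    hom a (hom b σ) S = - hom b (hom a σ) S := by
  by_cases hab : a = b
  · subst hab; simp [hom]
  by_cases ha : a ∈ S
  · by_cases hb : b ∈ S
    · have ha' : a ∈ S.erase b := by simp [ha, hab]
      have hb' : b ∈ S.erase a := by simp [hb, Ne.symm hab]
      simp only [hom, if_pos ha, if_pos hb, if_pos ha', if_pos hb', smul_smul]
      have := sgn_anti (S := (S.erase a).erase b) (a := a) (b := b) (by simp) (by simp) hab
      rw [insert_erase hb', sgn_erase_self a, erase_right_comm, insert_erase ha', sgn_erase_self a,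
        sgn_erase_self b, erase_right_comm, sgn_erase_self b] at this
      rw [erase_right_comm (a := b), ← neg_smul, mul_comm (sgn b S), this, neg_neg, mul_comm]
    · simp [hom, hb]
  · simp [hom, ha]

theorem hom_supp {p : ℕ} (h : ∀ S, S.card ≠ p → σ S = 0) (l : Fin n) (S : Finset (Fin n))
    (hS : S.card ≠ p + 1) : hom l σ S = 0 := by
  rw [hom]
  split_ifs with hl
  · rw [h _ (by rw [card_erase_of_mem hl]; have := card_pos.2 ⟨l, hl⟩; omega), smul_zero]
  · rfl

theorem cyc_of_cycle (h : Sup U σ) {φ : Fin n → R} (h0 : kos φ σ = 0) {a b c : Fin n}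
    (ha : a ∈ U) (hb : b ∈ U) (hc : c ∈ U) : φ a • hom b (hom c σ) U + φ b • hom c (hom a σ) U +
      φ c • hom a (hom b σ) U = 0 := by
  have h1 := ((h.hom hc).hom hb).hom_kos φ ha
  have h2 : kos φ (hom b (hom c σ)) = φ b • hom c σ - φ c • hom b σ := by
    rw [← hom_smul b, ← kos_hom_of_cycle c h0, hom_kos_eq, sub_sub_cancel]
  rw [h2, hom_sub, hom_smul, hom_smul] at h1
  rw [← h1, hom_hom_anti c a]
  simp only [Pi.sub_apply, Pi.smul_apply, smul_neg]
  abel

theorem eq_zero_of_hom_hom (h : Sup U σ) (h1 : ∀ S, S.card + 2 ≠ U.card → σ S = 0)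
    (h2 : ∀ a ∈ U, ∀ b ∈ U, hom a (hom b σ) U = 0) : σ = 0 := by
  funext S
  by_contra hn
  have h3 : S ⊆ U := by_contra fun e => hn (h S e)
  have h4 : S.card + 2 = U.card := by_contra fun e => hn (h1 S e)
  obtain ⟨a, b, hab, e⟩ := card_eq_two.1 (show (U \ S).card = 2 by
    rw [card_sdiff_of_subset h3]; omega)
  have ha : a ∈ U \ S := by simp [e]
  have hb : b ∈ U \ S := by simp [e]
  rw [mem_sdiff] at ha hb
  have e1 : (U.erase a).erase b = S := by
    ext x
    have : x ∈ U \ S ↔ x = a ∨ x = b := by simp [e]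
    rw [mem_sdiff] at this
    have h5 := @h3 x
    simp only [mem_erase]
    tauto
  have h5 := h2 a ha.1 b hb.1
  rw [hom, if_pos ha.1, hom, if_pos (by simp [hb.1, hab.symm]), e1] at h5
  have h6 := congrArg (fun x => sgn b (U.erase a) • sgn a U • x) h5
  simp only [smul_zero] at h6
  rw [smul_smul (sgn a U), sgn_mul_self, one_smul, smul_smul, sgn_mul_self, one_smul] at h6
  exact hn h6

theorem hom_hom_kos_kos (φ ψ : Fin n → R) (x : M) {a b : Fin n} (ha : a ∈ U) (hb : b ∈ U) :
    hom a (hom b (kos φ (kos ψ (Pi.single U x)))) U = (φ b * ψ a - φ a * ψ b) • x := by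
  have h : Sup U (Pi.single U x : Finset (Fin n) → M) := fun S hS =>
    Pi.single_eq_of_ne (fun e => hS e.subset) _
  rw [hom_kos_eq φ b, hom_sub, hom_smul, Pi.sub_apply, Pi.smul_apply, h.hom_kos ψ ha,
    ((h.kos ψ).hom hb).hom_kos φ ha, h.hom_kos ψ hb]
  simp [sub_smul, mul_smul]

theorem kos_restrict (φ : Fin n → R) {B : Finset (Fin n)} (hB : ∀ b ∈ B, ∀ l ∈ U, l < b)
    (h : ∀ S, B.card < (S \ U).card → σ S = 0) {A : Finset (Fin n)} (hA : A ⊆ U) :
    kos φ (fun A' => if A' ⊆ U then σ (A' ∪ B) else 0) A = kos φ σ (A ∪ B) := by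
  have hd : ∀ l ∈ U, l ∉ B := fun l hl hb => lt_irrefl _ (hB l hb l hl)
  rw [kos, kos, ← sum_subset (s₁ := U \ A) (s₂ := Aᶜ), ← sum_subset (s₁ := U \ A) (s₂ := (A ∪ B)ᶜ)]
  · refine sum_congr rfl fun l hl => ?_
    rw [mem_sdiff] at hl
    rw [if_pos (insert_subset hl.1 hA), sgn_union fun b hb => hB b hb l hl.1, insert_union]
  · intro l hl
    rw [mem_sdiff] at hl
    simp [hl.2, hd l hl.1]
  · intro l hl hl'
    have h1 : l ∉ A ∧ l ∉ B := by simpa using hl
    have h2 : l ∉ U := fun e => hl' (mem_sdiff.2 ⟨e, h1.1⟩)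
    rw [h, smul_zero, smul_zero]
    rw [Nat.lt_iff_add_one_le, ← card_insert_of_notMem h1.2]
    refine card_le_card (insert_subset (by simp [h2]) fun b hb => ?_)
    have : b ∉ U := fun e => hd b e hb
    simp [hb, this]
  · intro l hl
    simp [(mem_sdiff.1 hl).2]
  · intro l hl hl'
    rw [if_neg fun e => hl' (mem_sdiff.2 ⟨e (mem_insert_self _ _), mem_compl.1 hl⟩)]
    simp

end sup

variable {K F : Type} [Field K] [Field F] [Algebra K F] [IsFF K F] [CharZero K] [IsAlgClosed K]

theorem rank_three {W M : Divisor K F}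
    (hP : ∀ A : Divisor K F, 2 ≤ h0 A → h0 (W - 2 • A) = 0) (hM : M ≤ W) {a b c : F}
    (ha : a ∈ sec M) (hb : b ∈ sec M) (hc : c ∈ sec M) (h1 : LinearIndependent K ![c, a])
    (h2 : LinearIndependent K ![b, c]) {p q r : K}
    (e : p • (a * b) + q • (b * c) + r • (a * c) = 0) : p = 0 := by
  by_contra hp
  have hc0 := ne_of_li h1
  have ha0 := ne_of_li' h1
  have hb0 := ne_of_li h2
  have hq : q ≠ 0 := by
    rintro rfl
    refine hp (LinearIndependent.pair_iff.1 h2 p r (mul_left_cancel₀ ha0 ?_)).1
    simp only [Algebra.smul_def, map_zero] at e ⊢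
    linear_combination e
  have hd : p • (a / c) + algebraMap K F q ≠ 0 := fun h => by
    refine hp (LinearIndependent.pair_iff.1 h1 q p ?_).2
    simp only [Algebra.smul_def] at h ⊢
    field_simp at h
    linear_combination h
  set d := p • (a / c) + algebraMap K F q with hd'
  have e1 : b = -(r • (a / c * (c / d))) := by
    have : b * d * c = -(r • (a * c)) := by
      simp only [Algebra.smul_def, hd'] at e ⊢
      field_simp
      linear_combination e
    simp only [Algebra.smul_def] at this ⊢
    field_simp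
    field_simp at this
    linear_combination this
  have hr : r ≠ 0 := by
    rintro rfl
    simp [hb0] at e1
  have hx : a / c ≠ 0 := div_ne_zero ha0 hc0
  refine div_ne_zero hc0 hd (eq_zero_of_h0 (hP _ (two_le_h0_pol (trans_of_li h1))) fun P => ?_)
  have e2 : (W - 2 • pol K (a / c)) P = W P - 2 * max (-P.ord (a / c)) 0 := by
    rw [Finsupp.sub_apply, Finsupp.smul_apply, pol_apply]; simp
  have h3 := hM P
  have h4 := (ha P).le ha0
  have h5 := (hb P).le hb0
  have h6 := (hc P).le hc0
  have h7 := P.ord_div ha0 hc0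
  refine P.ge_of_le ?_
  rw [e2]
  rcases lt_trichotomy (P.ord (a / c)) 0 with h | h | h
  · have h8 := (Place.add_ne_and_ord (P := P) (smul_ne_zero hp hx) ((P.ge_const q).mono
      (by rw [P.ord_smul hp]; omega))).2
    rw [P.ord_div hc0 hd, hd', h8, P.ord_smul hp]
    omega
  · rw [e1, P.ord_neg, P.ord_smul hr, P.ord_mul hx (div_ne_zero hc0 hd)] at h5
    omega
  · have h8 := (Place.unit_of_sub (P := P) (g := d) hq (by
      rw [hd', add_sub_cancel_right]; exact (P.ge_of_le h).smul p)).2
    rw [P.ord_div hc0 hd, h8]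
    omega

theorem basis_ind {ι V : Type*} [AddCommGroup V] [Module K V] (y : Basis ι K V)
    (p : V → Prop) (p1 : ∀ a, p (y a)) (p2 : ∀ x z, p x → p z → p (x + z))
    (p3 : ∀ (c : K) x, p x → p (c • x)) (p4 : p 0) (x : V) : p x :=
  Submodule.span_induction (p := fun x _ => p x) (by rintro _ ⟨a, rfl⟩; exact p1 a) p4
    (fun x z _ _ => p2 x z) (fun c x _ => p3 c x) (y.mem_span x)

theorem skew_trivial {W M : Divisor K F}
    (hP : ∀ A : Divisor K F, 2 ≤ h0 A → h0 (W - 2 • A) = 0) (hM : M ≤ W)
    (L : sec M →ₗ[K] sec M →ₗ[K] sec M) (hs : ∀ a b, L a b = - L b a)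
    (hc : ∀ a b c : sec M, a.1 * L b c + b.1 * L c a + c.1 * L a b = 0) :
    ∃ c : Dual K (sec M), ∀ a b, L a b = c b • a - c a • b := by
  classical
  choose ev hev using fun P : Place K F => P.exists_functional (-M P)
  obtain ⟨z, j, hz⟩ := exists_dual_basis (K := K) (fun P => ev P ∘ₗ (sec M).subtype)
    fun z hz => by
      have hz0 : z.1 ≠ 0 := fun e => hz (Subtype.ext e)
      obtain ⟨P, hP⟩ := exists_notMem (div K z.1 + M)
      refine ⟨P, fun e => ?_⟩
      have := ((hev P _ (z.2 P)).1 e).le hz0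
      rw [Finsupp.add_apply, div_apply] at hP
      omega
  simp only [LinearMap.comp_apply, Submodule.subtype_apply] at hz
  have hrepr : ∀ x : sec M, x = ∑ a, ev (j a) x • z a := fun x => by
    conv_lhs => rw [← z.sum_repr x]
    refine sum_congr rfl fun a _ => ?_
    congr 1
    conv_rhs => rw [← z.sum_repr x]
    rw [Submodule.coe_sum, map_sum]
    simp [hz]
  have h1 : ∀ a b d, d ≠ a → d ≠ b → ev (j d) (L (z a) (z b)) = 0 := by
    intro a b d hda hdb
    have ha := (hev _ _ ((z a).2 (j d))).1 (by rw [hz, if_neg hda])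
    have hb := (hev _ _ ((z b).2 (j d))).1 (by rw [hz, if_neg hdb])
    obtain ⟨h2, h3⟩ := ord_eq_of_not_ge ((z d).2 (j d)) fun e => by
      have := (hev _ _ ((z d).2 (j d))).2 e
      simp [hz] at this
    refine (hev _ _ ((L (z a) (z b)).2 (j d))).2 (Place.Ge.of_mul h2 ?_)
    rw [mul_comm, ← neg_eq_of_add_eq_zero_right (hc (z a) (z b) (z d)), h3]
    exact ((ha.mul ((L _ _).2 _)).add (hb.mul ((L _ _).2 _))).neg.mono (by omega)
  let m := fun a b => ev (j a) (L (z a) (z b))
  have h2 : ∀ a b, a ≠ b → L (z a) (z b) = m a b • z a - m b a • z b := by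
    intro a b hab
    rw [hrepr (L (z a) (z b)), ← sum_subset (subset_univ {a, b}), sum_pair hab]
    · simp only [m]
      rw [hs (z b) (z a), Submodule.coe_neg, map_neg]
      module
    · intro d _ hd
      simp only [mem_insert, mem_singleton, not_or] at hd
      rw [h1 a b d hd.1 hd.2, zero_smul]
  have hli : ∀ a b, a ≠ b → LinearIndependent K ![(z a : F), (z b : F)] := by
    intro a b hab
    have h3 := (z.linearIndependent.map' _ (sec M).ker_subtype).comp ![a, b] (by
      intro x y; fin_cases x <;> fin_cases y <;> simp [hab, hab.symm])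
    have h4 : ![(z a : F), (z b : F)] = ((sec M).subtype ∘ z) ∘ ![a, b] := by
      funext i; fin_cases i <;> rfl
    rwa [h4]
  have h3 : ∀ a b d, a ≠ d → b ≠ d → m a d = m b d := by
    intro a b d had hbd
    by_contra hn
    have hab : a ≠ b := fun e => hn (e ▸ rfl)
    have h4 := hc (z a) (z b) (z d)
    rw [h2 b d hbd, h2 d a had.symm, h2 a b hab] at h4
    refine hn (sub_eq_zero.1 (rank_three hP hM (z a).2 (z b).2 (z d).2 (hli d a had.symm)
      (hli b d hbd) (p := m b d - m a d) (q := m d a - m b a) (r := m a b - m d b) ?_)).symm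
    simp only [Submodule.coe_sub, Submodule.coe_smul, Algebra.smul_def, map_sub] at h4 ⊢
    linear_combination h4
  let c := fun d => if h : ∃ a, a ≠ d then m h.choose d else 0
  have h4 : ∀ a d, a ≠ d → m a d = c d := fun a d had => by
    have : ∃ a, a ≠ d := ⟨a, had⟩
    simp only [c, dif_pos this]
    exact h3 _ _ _ had this.choose_spec
  refine ⟨z.constr K c, fun a b => ?_⟩
  refine basis_ind z (fun a => L a b = z.constr K c b • a - z.constr K c a • b) (fun a => ?_)
    (fun x y hx hy => by simp only [map_add, LinearMap.add_apply, hx, hy]; module)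
    (fun c x hx => by simp only [map_smul, LinearMap.smul_apply, hx, smul_eq_mul]; module)
    (by simp) a
  refine basis_ind z (fun b => L (z a) b = z.constr K c b • z a - z.constr K c (z a) • b)
    (fun b => ?_) (fun x y hx hy => by simp only [map_add, hx, hy]; module)
    (fun c x hx => by simp only [map_smul, hx, smul_eq_mul]; module) (by simp) b
  rw [Basis.constr_basis, Basis.constr_basis]
  by_cases hab : a = b
  · subst hab
    rw [sub_self, ← smul_right_inj (two_ne_zero (α := K)), two_smul, smul_zero,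
      add_eq_zero_iff_eq_neg]
    exact hs _ _
  · rw [h2 a b hab, h4 a b hab, h4 b a (Ne.symm hab)]

variable {W D : Divisor K F} {n : ℕ}

/-- The indices of the adjoint system. -/
def Scroll.U (X : Scroll W D n) : Finset (Fin n) := univ.filter fun l => X.e l = 1

theorem Scroll.mem_U {X : Scroll W D n} {l : Fin n} : l ∈ X.U ↔ X.e l = 1 := by simp [Scroll.U]

namespace Ctx

variable {X : Scroll W D n} (h : Ctx X)
include h

theorem e_zero {l : Fin n} (hl : l ∉ X.U) : X.e l = 0 := by
  have := h.e_le l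
  rw [Scroll.mem_U] at hl
  omega

theorem sum_eq_card (S : Finset (Fin n)) : ∑ l ∈ S, (X.e l : ℤ) = (S ∩ X.U).card := by
  rw [← sum_inter_add_sum_sdiff S X.U, sum_eq_zero (s := S \ X.U) fun l hl => by
    rw [h.e_zero (mem_sdiff.1 hl).2]; rfl, sum_congr rfl (g := fun _ => (1 : ℤ)) fun l hl => by
    rw [Scroll.mem_U.1 (mem_inter.1 hl).2]; rfl]
  simp

theorem card_U : X.U.card = h0 (W - D) := by
  have := h.sum_eq_card univ
  rw [univ_inter, ← Nat.cast_sum, h.sum_e] at this
  omega

theorem lt_of_U {l b : Fin n} (hl : l ∈ X.U) (hb : b ∉ X.U) : l < b := by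
  by_contra hn
  have := X.anti (not_lt.1 hn)
  rw [h.e_zero hb, Scroll.mem_U.1 hl] at this
  omega

theorem exists_basis : ∃ y : Basis X.U K (sec (W - D)), ∀ l, (y l : F) = X.φ l := by
  let v : X.U → sec (W - D) := fun l => ⟨X.φ l, h.y_mem (Scroll.mem_U.1 l.2)⟩
  have h1 : ⊤ ≤ Submodule.span K (Set.range v) := fun z _ => by
    obtain ⟨c, hc, e⟩ := h.repr z.2
    refine (Submodule.mem_span_range_iff_exists_fun K).2 ⟨fun l => c l, Subtype.ext ?_⟩
    rw [e, ← sum_subset (subset_univ X.U) fun l _ hl => by rw [hc l (h.e_zero hl), zero_smul],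
      ← sum_coe_sort X.U]
    simp [v]
  exact ⟨basisOfTopLeSpanOfCardEqFinrank v h1 (by rw [Fintype.card_coe, h.card_U]; rfl),
    fun l => by simp [v]⟩

theorem sec_bot {b : ℤ} (hb : b ≤ -2) {z : F} (hz : z ∈ sec (W + b • D)) : z = 0 :=
  eq_zero_of_h0 (h.good.petri D h.good.pencil.ge) (sec_mono (fun P => by
    have := h.nonneg P
    simp only [Finsupp.add_apply, Finsupp.sub_apply, Finsupp.smul_apply, smul_eq_mul,
      nsmul_eq_mul]
    push_cast
    nlinarith) hz)

theorem top_zero {σ : Finset (Fin n) → F} (h1 : Sup X.U σ) (h2 : kos X.φ σ = 0) : σ X.U = 0 := by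
  obtain ⟨l, hl⟩ := card_pos.1 (show 0 < X.U.card by rw [h.card_U]; have := h.two; omega)
  have := h1.hom_kos X.φ hl
  rw [h2, hom_zero] at this
  exact (mul_eq_zero.1 this.symm).resolve_left (X.φ_ne l)

theorem clf {a : ℤ} (ha : (X.U.card : ℤ) - 1 ≤ a) {j : ℕ} {σ : Finset (Fin n) → F}
    (h1 : Sup X.U σ) (h2 : ∀ S, S.card ≠ j → σ S = 0) (h3 : ∀ S, σ S ∈ sec (W + (j - a) • D))
    (h4 : kos X.φ σ = 0) : ∃ c : Finset (Fin n) → F, Sup X.U c ∧ (∀ S, S.card ≠ j + 1 → c S = 0) ∧
      (∀ S, c S ∈ sec ((j + 1 - a) • D)) ∧ kos X.φ c = σ := by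
  by_cases h0 : σ = 0
  · exact ⟨0, fun _ _ => rfl, fun _ _ => rfl, fun _ => zero_mem _, by rw [h0, kos_zero]⟩
  obtain ⟨S₀, hS₀⟩ := Function.ne_iff.1 h0
  have h5 : S₀ ⊆ X.U := by_contra fun e => hS₀ (h1 _ e)
  have h6 : S₀.card = j := by_contra fun e => hS₀ (h2 _ e)
  have h7 : S₀ ≠ X.U := fun e => hS₀ (e ▸ h.top_zero h1 h4)
  have h8 := card_lt_card (h5.ssubset_of_ne h7)
  have h9 : -1 ≤ j - a := by_contra fun e => hS₀ (h.sec_bot (by omega) (h3 _))
  rcases (show j + 1 = X.U.card ∨ j + 2 = X.U.card by omega) with hj | hj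
  · let κ := fun l => (X.φ l)⁻¹ • hom l σ
    have k1 : ∀ l ∈ X.U, Sup X.U (κ l) := fun l hl S hS => by simp [κ, h1.hom hl S hS]
    have k2 : ∀ l, kos X.φ (κ l) = σ := fun l => by
      rw [kos_smul, kos_hom_of_cycle l h4, smul_smul, inv_mul_cancel₀ (X.φ_ne l), one_smul]
    have k3 : ∀ l S, S.card ≠ j + 1 → κ l S = 0 := fun l S hS => by simp [κ, hom_supp h2 l S hS]
    obtain ⟨l, hl⟩ := card_pos.1 (show 0 < X.U.card by omega)
    refine ⟨κ l, k1 l hl, k3 l, fun S => ?_, k2 l⟩
    by_cases hS : S = X.U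
    · subst hS
      intro P
      obtain ⟨m, hm, hm'⟩ := h.exists_gen P
      have hmU := Scroll.mem_U.2 hm
      have k4 := h.top_zero (σ := κ l - κ m) (fun S hS => by simp [k1 l hl S hS, k1 m hmU S hS])
        (by rw [kos_sub, k2, k2, sub_self])
      rw [sub_eq_zero.1 k4]
      simp only [κ, Pi.smul_apply, hom, if_pos hmU, smul_eq_mul, zsmul_eq_mul]
      refine ((P.ge_ord _).mul ((P.ge_intCast _).mul0 (h3 _ P))).mono (le_of_eq ?_)
      simp only [Place.ord_inv, hm', Finsupp.add_apply, Finsupp.smul_apply, smul_eq_mul]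
      ring
    · by_cases hS' : S ⊆ X.U
      · rw [k3 l S fun e => hS (eq_of_subset_of_card_le hS' (by omega))]; exact zero_mem _
      · rw [k1 l hl S hS']; exact zero_mem _
  · have ha' : (j : ℤ) - a = -1 := by omega
    rw [ha', neg_smul, one_smul, ← sub_eq_add_neg] at h3
    obtain ⟨y, hy⟩ := h.exists_basis
    have hm : ∀ a b, hom a (hom b σ) X.U ∈ sec (W - D) := fun a b => by
      simp only [hom]
      split_ifs
      · exact zsmul_mem (zsmul_mem (h3 _) _) _
      · rw [smul_zero]; exact zero_mem _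
      · exact zero_mem _
    let L : sec (W - D) →ₗ[K] sec (W - D) →ₗ[K] sec (W - D) :=
      y.constr K fun a => y.constr K fun b => ⟨_, hm a b⟩
    have hL : ∀ a b, (L (y a) (y b) : F) = hom a.1 (hom b.1 σ) X.U := fun a b => by
      simp only [L, Basis.constr_basis]
    have ind := basis_ind y
    obtain ⟨c, hc⟩ := skew_trivial h.good.petri (sub_le_self W h.nonneg) L (fun a b => by
      refine ind (fun a => L a b = - L b a) (fun a => ?_)
        (fun x z hx hz => by simp only [map_add, LinearMap.add_apply, hx, hz, neg_add])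
        (fun c x hx => by simp only [map_smul, LinearMap.smul_apply, hx, smul_neg])
        (by simp only [map_zero, LinearMap.zero_apply, neg_zero]) a
      refine ind (fun b => L (y a) b = - L b (y a)) (fun b => Subtype.ext ?_)
        (fun x z hx hz => by simp only [map_add, LinearMap.add_apply, hx, hz, neg_add])
        (fun c x hx => by simp only [map_smul, LinearMap.smul_apply, hx, smul_neg])
        (by simp only [map_zero, LinearMap.zero_apply, neg_zero]) b
      rw [Submodule.coe_neg, hL, hL]
      exact hom_hom_anti _ _ _ _) fun a b c => by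
      refine ind (fun a => a.1 * L b c + b.1 * L c a + c.1 * L a b = 0) (fun a => ?_)
        (fun x z hx hz => by
          simp only [map_add, LinearMap.add_apply, Submodule.coe_add]; linear_combination hx + hz)
        (fun c x hx => by
          simp only [map_smul, LinearMap.smul_apply, Submodule.coe_smul]
          simp only [Algebra.smul_def]
          linear_combination algebraMap K F c * hx)
        (by simp only [map_zero, LinearMap.zero_apply, Submodule.coe_zero]; ring) a
      refine ind (fun b => (y a).1 * L b c + b.1 * L c (y a) + c.1 * L (y a) b = 0) (fun b => ?_)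
        (fun x z hx hz => by
          simp only [map_add, LinearMap.add_apply, Submodule.coe_add]; linear_combination hx + hz)
        (fun c x hx => by
          simp only [map_smul, LinearMap.smul_apply, Submodule.coe_smul]
          simp only [Algebra.smul_def]
          linear_combination algebraMap K F c * hx)
        (by simp only [map_zero, LinearMap.zero_apply, Submodule.coe_zero]; ring) b
      refine ind (fun c => (y a).1 * L (y b) c + (y b).1 * L c (y a) + c.1 * L (y a) (y b) = 0)
        (fun c => ?_) (fun x z hx hz => by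
          simp only [map_add, LinearMap.add_apply, Submodule.coe_add]; linear_combination hx + hz)
        (fun c x hx => by
          simp only [map_smul, LinearMap.smul_apply, Submodule.coe_smul]
          simp only [Algebra.smul_def]
          linear_combination algebraMap K F c * hx)
        (by simp only [map_zero, LinearMap.zero_apply, Submodule.coe_zero]; ring) c
      simp only [hL, hy]
      exact cyc_of_cycle h1 h4 a.2 b.2 c.2
    let ψ : Fin n → F := fun l => if hl : l ∈ X.U then algebraMap K F (- c (y ⟨l, hl⟩)) else 0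
    have hs : Sup X.U (Pi.single X.U 1 : Finset (Fin n) → F) := fun S hS =>
      Pi.single_eq_of_ne (fun e => hS e.subset) _
    have hs' : ∀ S, S.card ≠ j + 1 → kos ψ (Pi.single X.U 1 : Finset (Fin n) → F) S = 0 :=
      kos_supp ψ fun S hS => Pi.single_eq_of_ne (fun e => hS (by rw [e]; omega)) _
    refine ⟨kos ψ (Pi.single X.U 1), hs.kos ψ, hs', fun S => ?_, sub_eq_zero.1 ?_⟩
    · rw [show (j : ℤ) + 1 - a = 0 by omega, zero_smul]
      refine Submodule.sum_mem _ fun l _ => zsmul_mem ?_ _
      rw [Pi.single_apply]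
      simp only [ψ]
      split_ifs
      · rw [smul_eq_mul, mul_one]; exact const_mem_sec le_rfl _
      all_goals simp
    · refine eq_zero_of_hom_hom (U := X.U) (fun S hS => by simp [(hs.kos ψ).kos X.φ S hS, h1 S hS])
        (fun S hS => by
          rw [Pi.sub_apply, kos_supp X.φ hs' S (by omega), h2 S (by omega), sub_self])
        fun a ha b hb => ?_
      rw [hom_sub, hom_sub, Pi.sub_apply, hom_hom_kos_kos _ _ _ ha hb, ← hL ⟨a, ha⟩ ⟨b, hb⟩, hc]
      simp only [ψ, dif_pos ha, dif_pos hb, Submodule.coe_sub, Submodule.coe_smul, hy,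
        Algebra.smul_def, map_neg, Algebra.algebraMap_self, RingHom.id_apply]
      ring

theorem glf {a : ℤ} (ha : (X.U.card : ℤ) - 1 ≤ a) {j : ℕ} {σ : Finset (Fin n) → F}
    (h2 : ∀ S, S.card ≠ j → σ S = 0) (h3 : ∀ S, σ S ∈ sec (W + (∑ l ∈ S, (X.e l : ℤ) - a) • D))
    (h4 : kos X.φ σ = 0) : ∃ c : Finset (Fin n) → F, (∀ S, S.card ≠ j + 1 → c S = 0) ∧
      (∀ S, c S ∈ sec ((∑ l ∈ S, (X.e l : ℤ) - a) • D)) ∧ kos X.φ c = σ := by
  obtain ⟨r, hr⟩ : ∃ r, ∀ S, r ≤ (S \ X.U).card → σ S = 0 :=
    ⟨j + 1, fun S hS => h2 S (by have := card_le_card (sdiff_subset (s := S) (t := X.U)); omega)⟩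
  induction r generalizing σ with
  | zero => exact ⟨0, fun _ _ => rfl, fun _ => zero_mem _, by
      rw [kos_zero]; exact funext fun S => (hr S (Nat.zero_le _)).symm⟩
  | succ r ih =>
    have key : ∀ B : Finset (Fin n), ∃ c : Finset (Fin n) → F, Disjoint B X.U → B.card = r →
        Sup X.U c ∧ (∀ S, S.card + r ≠ j + 1 → c S = 0) ∧
        (∀ S, c S ∈ sec ((S.card - a) • D)) ∧
        kos X.φ c = fun A => if A ⊆ X.U then σ (A ∪ B) else 0 := by
      intro B
      by_cases hB : Disjoint B X.U ∧ B.card = r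
      swap
      · exact ⟨0, fun a b => absurd ⟨a, b⟩ hB⟩
      have hB' : ∀ b ∈ B, ∀ l ∈ X.U, l < b := fun b hb l hl =>
        h.lt_of_U hl (disjoint_left.1 hB.1 hb)
      have hc : ∀ A ⊆ X.U, (A ∪ B).card = A.card + r := fun A hA => by
        rw [card_union_of_disjoint (hB.1.symm.mono_left hA), hB.2]
      rcases lt_or_ge j r with hj | hj
      · refine ⟨0, fun _ _ => ⟨fun _ _ => rfl, fun _ _ => rfl, fun _ => zero_mem _, ?_⟩⟩
        rw [kos_zero]
        funext A
        split_ifs with hA
        · exact (h2 _ (by rw [hc A hA]; omega)).symm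
        · rfl
      obtain ⟨j, rfl⟩ := Nat.exists_eq_add_of_le' hj
      have k2 : ∀ A : Finset (Fin n), A.card ≠ j → (if A ⊆ X.U then σ (A ∪ B) else 0) = 0 :=
        fun A hA => by
          split_ifs with hA'
          · exact h2 _ (by rw [hc A hA']; omega)
          · rfl
      obtain ⟨c, c1, c2, c3, c4⟩ := h.clf ha (j := j)
        (σ := fun A => if A ⊆ X.U then σ (A ∪ B) else 0) (fun A hA => if_neg hA) k2 (fun A => by
          by_cases hA : A.card = j
          · split_ifs with hA'
            · have := h3 (A ∪ B)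
              rwa [h.sum_eq_card, union_inter_distrib_right, inter_eq_left.2 hA',
                disjoint_iff_inter_eq_empty.1 hB.1, union_empty, hA] at this
            · exact zero_mem _
          · rw [k2 A hA]; exact zero_mem _) (funext fun A => by
          by_cases hA : A ⊆ X.U
          · rw [kos_restrict X.φ hB' (fun S hS => hr S (by omega)) hA, h4]; rfl
          · exact Sup.kos (fun A hA => if_neg hA) _ A hA)
      refine ⟨c, fun _ _ => ⟨c1, fun S hS => c2 S (by omega), fun S => ?_, c4⟩⟩
      by_cases hS : S.card = j + 1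
      · rw [hS]; exact c3 S
      · rw [c2 S hS]; exact zero_mem _
    choose c hc using key
    let c₀ : Finset (Fin n) → F := fun S =>
      if (S \ X.U).card = r then c (S \ X.U) (S ∩ X.U) else 0
    have c1 : ∀ S, S.card ≠ j + 1 → c₀ S = 0 := fun S hS => by
      simp only [c₀]
      split_ifs with h5
      · refine (hc _ sdiff_disjoint h5).2.1 _ ?_
        have := card_sdiff_add_card_inter S X.U
        omega
      · rfl
    have c2 : ∀ S, c₀ S ∈ sec ((∑ l ∈ S, (X.e l : ℤ) - a) • D) := fun S => by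
      simp only [c₀]
      split_ifs with h5
      · rw [h.sum_eq_card]; exact (hc _ sdiff_disjoint h5).2.2.1 _
      · exact zero_mem _
    have c3 : ∀ S, r < (S \ X.U).card → c₀ S = 0 := fun S hS => if_neg hS.ne'
    obtain ⟨c', d1, d2, d3⟩ := ih (σ := σ - kos X.φ c₀)
      (fun S hS => by rw [Pi.sub_apply, h2 S hS, kos_supp _ c1 S hS, sub_self])
      (fun S => sub_mem (h3 S) (Submodule.sum_mem _ fun l hl => zsmul_mem (by
        have := mul_mem_sec (X.φ_mem l) (c2 (insert l S))
        rw [sum_insert (mem_compl.1 hl)] at this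
        convert this using 2
        · module
        · rfl) _))
      (by rw [kos_sub, h4, kos_kos, sub_self]) fun S hS => by
        rcases hS.lt_or_eq with hS | hS
        · rw [Pi.sub_apply, hr S hS, zero_sub, neg_eq_zero]
          exact sum_eq_zero fun l _ => by
            rw [c3 _ (hS.trans_le (card_le_card (sdiff_subset_sdiff (subset_insert _ _)
              Subset.rfl)))]
            simp
        · obtain ⟨e1, -, -, e2⟩ := hc _ sdiff_disjoint hS.symm
          have e3 := congrFun e2 (S ∩ X.U)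
          have e4 : S ∩ X.U ∪ S \ X.U = S := by rw [union_comm, sdiff_union_inter]
          rw [if_pos inter_subset_right, e4] at e3
          rw [Pi.sub_apply, ← e3, sub_eq_zero]
          conv_rhs => rw [← e4]
          rw [← kos_restrict X.φ (U := X.U) (fun b hb l hl => h.lt_of_U hl (mem_sdiff.1 hb).2)
            (fun T hT => c3 T (hS ▸ hT)) inter_subset_right]
          congr 1
          funext A
          split_ifs with hA
          · have e5 : (A ∪ S \ X.U) \ X.U = S \ X.U := by
              rw [union_sdiff_distrib, sdiff_eq_empty_iff_subset.2 hA, empty_union,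
                Finset.sdiff_idem]
            have e6 : (A ∪ S \ X.U) ∩ X.U = A := by
              rw [union_inter_distrib_right, inter_eq_left.2 hA, sdiff_inter_self, union_empty]
            simp only [c₀, e5, e6, if_pos hS.symm]
          · exact e1 A hA
    exact ⟨c₀ + c', fun S hS => by simp [c1 S hS, d1 S hS], fun S => add_mem (c2 S) (d2 S), by
      rw [kos_add, d3, add_sub_cancel]⟩

end Ctx

end Pool.Agent.MP_8e057e_ag
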